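import Pool.Agent.Lib.P0036f5k.Defs

/-!
# The witness machine for path systems (project K, part E)

Letters: `s` (start of a block), `c` (start of an entry), `a`, `b` (unary numbers), `d β` (bits), `h`
(start of the test), `r` (start of a row of the test).

A path system has `k'` rows `q`, with `L` segments `l` each; `s q l` and `t q l` are numbers in
`{1, …, N}`.  A block for `F` is `s` followed by all entries `c a ^ (s q l) b ^ (t q l) d (F q l)`; the test for
`G` is `h` followed by the rows `r` (segments `a ^ (s q l) d (G q l) b ^ (t q l)`).  The machine marks the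
separator `s` of one block and the letter `r` of every row (at most `K` rows), and accepts if `G` is the
system of bits of the marked block.

`lc j`, `rc j`: after a new row has been marked, the marked rows are counted on the way to `h`, then
the machine goes back to the last marked row.  `ra i`: reading `a ^ i`; `gl β i`, `lf β i`: on the way to
the marked block, with the bit `β`; `se β i`: looking for an entry with the first number `i`; `ca β i`,
`cb β j`: reading the entry; `rt j`, `rh j`: on the way back with the second number `j`; `bk j`: comparing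
`j` with the number of `b` in a segment of the test; `bk 0` behind the last `b`: the next segment
(`ra 1`), or a new row, or the end.
-/

set_option autoImplicit false

namespace Pool.Agent.P0036f5e

open Relation Pool.Agent.P0036f5v2

/-- input letters -/
inductive EA : Type
  | s
  | c
  | a
  | b
  | d (β : Bool)
  | h
  | r
  deriving DecidableEq

/-- marks -/
inductive EW : Type
  | ms
  | mr
  deriving DecidableEq

/-- states -/
inductive EQ : Type
  | scan
  | mid
  | fr
  | fin
  | lc (j : ℕ)
  | rc (j : ℕ)
  | ra (i : ℕ)
  | gl (β : Bool) (i : ℕ)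
  | lf (β : Bool) (i : ℕ)
  | se (β : Bool) (i : ℕ)
  | ca (β : Bool) (i : ℕ)
  | cb (β : Bool) (j : ℕ)
  | rt (j : ℕ)
  | rh (j : ℕ)
  | bk (j : ℕ)

/-- the letters of the blocks -/
def EA.blk : EA → Bool
  | .h => false
  | .r => false
  | _ => true

/-- the letters inside the rows -/
def EA.row : EA → Bool
  | .a => true
  | .b => true
  | .d _ => true
  | _ => false

/-- first choice -/
def etr1 (N K : ℕ) : EQ → Sym EA EW → Option (EQ × (EA ⊕ EW) × Bool)
  | .scan, .inp x => if x.blk = true then some (.scan, .inl x, true) else none
  | .mid, .inp x => if x.blk = true then some (.mid, .inl x, true)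
      else if x = .h then some (.fr, .inl x, true) else none
  | .fr, .inp .r => some (.lc 1, .inr .mr, false)
  | .lc j, .inp x => if x.row = true then some (.lc j, .inl x, false)
      else if x = .h then some (.rc j, .inl x, true) else none
  | .lc j, .wrk .mr => if j + 1 ≤ K then some (.lc (j + 1), .inr .mr, false) else none
  | .rc j, .inp x => if x.row = true then some (.rc j, .inl x, true) else none
  | .rc (j + 2), .wrk .mr => some (.rc (j + 1), .inr .mr, true)
  | .rc 1, .wrk .mr => some (.ra 0, .inr .mr, true)
  | .ra i, .inp .a => if i + 1 ≤ N then some (.ra (i + 1), .inl .a, true) else none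
  | .ra i, .inp (.d β) => some (.gl β i, .inl (.d β), false)
  | .gl β i, .inp x => if x.row = true then some (.gl β i, .inl x, false)
      else if x = .h then some (.lf β i, .inl x, false) else none
  | .gl β i, .wrk .mr => some (.gl β i, .inr .mr, false)
  | .lf β i, .inp x => if x.blk = true then some (.lf β i, .inl x, false) else none
  | .lf β i, .wrk .ms => some (.se β i, .inr .ms, true)
  | .se β i, .inp .c => some (.ca β i, .inl .c, true)
  | .se β i, .inp x => if x.row = true then some (.se β i, .inl x, true) else none
  | .ca β (i + 1), .inp .a => some (.ca β i, .inl .a, true)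
  | .ca β 0, .inp .b => some (.cb β 1, .inl .b, true)
  | .cb β j, .inp .b => if j + 1 ≤ N then some (.cb β (j + 1), .inl .b, true) else none
  | .cb β j, .inp (.d β') => if β' = β then some (.rt j, .inl (.d β'), true) else none
  | .rt j, .inp x => if x.blk = true then some (.rt j, .inl x, true)
      else if x = .h then some (.rh j, .inl x, true) else none
  | .rh j, .inp x => if x.row = true then some (.rh j, .inl x, true) else none
  | .rh j, .wrk .mr => some (.rh j, .inr .mr, true)
  | .bk (j + 1), .inp .b => some (.bk j, .inl .b, true)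
  | .bk 0, .inp .a => some (.ra 1, .inl .a, true)
  | .bk 0, .inp .r => some (.lc 1, .inr .mr, false)
  | .bk 0, .rend => some (.fin, .inl .s, true)
  | _, _ => none

/-- second choice -/
def etr2 : EQ → Sym EA EW → Option (EQ × (EA ⊕ EW) × Bool)
  | .scan, .inp .s => some (.mid, .inr .ms, true)
  | .se β i, .inp .c => some (.se β i, .inl .c, true)
  | .rh j, .inp (.d β) => some (.bk j, .inl (.d β), true)
  | _, _ => none

/-- the machine -/
@[reducible] def em (N K : ℕ) : Mach EA where
  Q := EQ
  W := EW
  δ := fun q x => {y | etr1 N K q x = some y ∨ etr2 q x = some y}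
  qI := .scan
  F := {.fin}

/-- an entry -/
def eE (i j : ℕ) (β : Bool) : List EA :=
  EA.c :: (List.replicate i EA.a ++ (List.replicate j EA.b ++ [EA.d β]))

/-- a segment of a row -/
def eS (i j : ℕ) (β : Bool) : List EA :=
  List.replicate i EA.a ++ (EA.d β :: List.replicate j EA.b)

/-- the block for `F` -/
def eB (k' L : ℕ) (s t : ℕ → ℕ → ℕ) (F : ℕ → ℕ → Bool) : List EA :=
  EA.s :: (List.range k').flatMap fun q => (List.range L).flatMap fun l => eE (s q l) (t q l) (F q l)

/-- the first part of the test words -/
def eX (k' L : ℕ) (s t : ℕ → ℕ → ℕ) (Fs : List (ℕ → ℕ → Bool)) : List EA :=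
  Fs.flatMap (eB k' L s t)

/-- the second part of the test words -/
def eY (k' L : ℕ) (s t : ℕ → ℕ → ℕ) (G : ℕ → ℕ → Bool) : List EA :=
  EA.h :: (List.range k').flatMap fun q =>
    EA.r :: (List.range L).flatMap fun l => eS (s q l) (t q l) (G q l)

/-- Numbers of a path system: in `{1, …, N}`, different for different `l`. -/
structure PS (k' L N : ℕ) (s t : ℕ → ℕ → ℕ) : Prop where
  s1 : ∀ q < k', ∀ l < L, 1 ≤ s q l ∧ s q l ≤ N
  t1 : ∀ q < k', ∀ l < L, 1 ≤ t q l ∧ t q l ≤ N
  ls : ∀ q < k', ∀ l < L, ∀ q' < k', ∀ l' < L, s q l = s q' l' → l = l'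
  lt : ∀ q < k', ∀ l < L, ∀ q' < k', ∀ l' < L, t q l = t q' l' → l = l'

/-- After `l` segments in the phase `q` the machine can be in the row `p`: it has entered the rows by
jumps through entries of the block `F`, with the bits `G` read in the rows. -/
def Ph (k' : ℕ) (s t : ℕ → ℕ → ℕ) (F G : ℕ → ℕ → Bool) (q : ℕ) : ℕ → ℕ → Prop
  | 0, p => p = q
  | l + 1, p => p ≤ q ∧ ∃ p' r, Ph k' s t F G q l p' ∧ r < k' ∧ s r l = s p' l ∧ t r l = t p l ∧
      F r l = G p' l

/-- Uniqueness: in the phase `q` the only way to the end of the row `q` is the row itself. -/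
def Uq (k' L : ℕ) (s t : ℕ → ℕ → ℕ) : Prop :=
  ∀ q < k', ∀ p r : ℕ → ℕ, p 0 = q → p L = q → (∀ l ≤ L, p l ≤ q) →
    (∀ l < L, r l < k' ∧ s (r l) l = s (p l) l ∧ t (r l) l = t (p (l + 1)) l) →
    ∀ l < L, r l = q ∧ p l = q

end Pool.Agent.P0036f5e
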