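import Pool.Agent.Lib.P0036f5e.EDefs

/-!
# E6: a path system with strictly convex jumps

Let `b = D ^ e`, `E = e * D ^ 2`, `X = XE L D e = L * E * b`.  A row is a triple `(z, x, y)` of a class
`z : Fin e → Fin D`, a number `x < X` and a vector `y : Fin e → Fin D`; there are `b * (X * b) = KE L D e` rows.
They are numbered by `q < KE L D e` such that the rank `ρ (z) < b` of the class is a growing function of
`q`: e.g. `ρ (z_q) = q / (X * b)` (`finFunctionFinEquiv : (Fin e → Fin D) ≃ Fin (D ^ e)` for the classes and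
the vectors `y`, `finProdFinEquiv` for the pairs; or digits in base `D`).  Let `β_q = E * ρ (z_q)`, so
`x_q + l β_q < 2 X` for `l < L`.
* `s q l` = code (`≥ 1`) of the triple `(l, x_q + l β_q, y_q)` in `Fin L × Fin (3 X) × (Fin e → Fin (2 D))`,
* `t q l` = code of `(l, x_q + l β_q + E - |z_q| ^ 2, y_q + z_q)` in the same set,
  where `|z| ^ 2 = ∑ i, z i ^ 2 ≤ e (D - 1) ^ 2 ≤ E ≤ X`; the set has
  `L * (3 X) * (2 D) ^ e = NE L D e` elements.
`PS` is clear.  `Uq`: let `q, p, r` be given, `l < L`, `p' = p (l + 1)`, and write `p, r` for `p l, r l`.  Then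
  `x_r + l β_r = x_p + l β_p`, `y_r = y_p`,
  `x_r + l β_r - |z_r| ^ 2 = x_p' + l β_p' - |z_p'| ^ 2`, `y_r + z_r = y_p' + z_p'` (in integers).
Put `Φ l = x_(p l) + l β_(p l) + 2 ⟨z_q, y_(p l)⟩` (integers, `⟨ , ⟩` the scalar product).  Then
  `Φ (l + 1) = Φ l + β_p' + |z_q - z_p'| ^ 2 - |z_q - z_r| ^ 2`.
Since `p' ≤ q`, `ρ (z_p') ≤ ρ (z_q)`: if `z_p' = z_q` then `β_p' + |z_q - z_p'| ^ 2 = β_q`, otherwise
`β_p' + |z_q - z_p'| ^ 2 ≤ β_q - E + e (D - 1) ^ 2 < β_q`.  So `Φ (l + 1) - Φ l ≤ β_q`, with equality only if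
`z_p' = z_q` and `z_r = z_q`.  The sum over `l < L` is `Φ L - Φ 0 = L β_q` (`p 0 = p L = q`), so equality
holds for all `l < L` (`Finset.sum_eq_sum_iff_of_le`), all `z_(p l)`, `z_(r l)` are `z_q` (`l ≤ L`, resp. `l < L`).
Then the equations give `x_r = x_p`, `y_r = y_p`, so `r l = p l`, and `x_p' = x_r`, `y_p' = y_r`, so
`p (l + 1) = r l`.  By induction `p l = q` and `r l = q`.
-/

set_option autoImplicit false

namespace Pool.Agent.P0036f5e

/-- number of starting points on a line of the grid -/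
def XE (L D e : ℕ) : ℕ := L * (e * D ^ 2) * D ^ e

/-- number of rows -/
def KE (L D e : ℕ) : ℕ := D ^ e * (XE L D e * D ^ e)

/-- number of codes -/
def NE (L D e : ℕ) : ℕ := L * (3 * XE L D e) * (2 * D) ^ e

namespace GeoAux

/-- digits in base `D` -/
def dg (D n i : ℕ) : ℕ := n / D ^ i % D

theorem dg_lt {D : ℕ} (hD : 1 ≤ D) (n i : ℕ) : dg D n i < D := Nat.mod_lt _ hD

theorem dg_inj {D : ℕ} : ∀ (e n m : ℕ), n < D ^ e → m < D ^ e →
    (∀ i < e, dg D n i = dg D m i) → n = m := by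
  intro e
  induction e with
  | zero =>
    intro n m hn hm _
    simp at hn hm
    omega
  | succ e ih =>
    intro n m hn hm hi
    have h0 : n % D = m % D := by
      have := hi 0 (by omega)
      simpa [dg] using this
    have h1 : n / D = m / D := by
      apply ih (n / D) (m / D)
      · apply Nat.div_lt_of_lt_mul
        rw [← pow_succ']; exact hn
      · apply Nat.div_lt_of_lt_mul
        rw [← pow_succ']; exact hm
      · intro i hie
        have := hi (i + 1) (by omega)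
        unfold dg at this ⊢
        rw [Nat.div_div_eq_div_mul, Nat.div_div_eq_div_mul, ← pow_succ']
        exact this
    rw [← Nat.div_add_mod n D, ← Nat.div_add_mod m D, h0, h1]

theorem rows (X b D e : ℕ) (hb : b = D ^ e) (hD : 1 ≤ D) :
    ∃ (ρ x : ℕ → ℕ) (z y : ℕ → Fin e → ℕ),
      (∀ q i, z q i < D) ∧ (∀ q i, y q i < D) ∧ (∀ q < b * (X * b), x q < X) ∧
      (∀ q < b * (X * b), ρ q < b) ∧ (∀ p q, p ≤ q → ρ p ≤ ρ q) ∧
      (∀ p q, ρ p = ρ q → z p = z q) ∧
      (∀ p < b * (X * b), ∀ q < b * (X * b), z p = z q → ρ p = ρ q) ∧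
      (∀ p q, ρ p = ρ q → x p = x q → y p = y q → p = q) := by
  have hb0 : 0 < b := by rw [hb]; exact pow_pos hD e
  refine ⟨fun q => q / (X * b), fun q => q % (X * b) / b, fun q i => dg D (q / (X * b)) i,
    fun q i => dg D (q % b) i, fun q i => dg_lt hD _ _, fun q i => dg_lt hD _ _, ?_, ?_, ?_, ?_, ?_,
    ?_⟩
  · intro q hq
    have hX : 0 < X * b := by
      rcases Nat.eq_zero_or_pos (X * b) with h | h
      · rw [h] at hq; simp at hq
      · exact h
    rw [Nat.div_lt_iff_lt_mul hb0]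
    exact Nat.mod_lt _ hX
  · intro q hq
    exact Nat.div_lt_of_lt_mul (by rw [mul_comm]; exact hq)
  · intro p q hpq
    exact Nat.div_le_div_right hpq
  · intro p q hpq
    funext i
    simp only at hpq ⊢
    rw [hpq]
  · intro p hp q hq hz
    apply dg_inj e
    · rw [← hb]; exact Nat.div_lt_of_lt_mul (by rw [mul_comm]; exact hp)
    · rw [← hb]; exact Nat.div_lt_of_lt_mul (by rw [mul_comm]; exact hq)
    · intro i hi
      exact congrFun hz ⟨i, hi⟩
  · intro p q h1 h2 h3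
    simp only at h1 h2
    have h4 : p % b = q % b := by
      apply dg_inj e
      · rw [← hb]; exact Nat.mod_lt _ hb0
      · rw [← hb]; exact Nat.mod_lt _ hb0
      · intro i hi
        exact congrFun h3 ⟨i, hi⟩
    have h5 : p % (X * b) = q % (X * b) := by
      rw [← Nat.div_add_mod (p % (X * b)) b, ← Nat.div_add_mod (q % (X * b)) b, h2,
        Nat.mod_mul_left_mod, Nat.mod_mul_left_mod, h4]
    rw [← Nat.div_add_mod p (X * b), ← Nat.div_add_mod q (X * b), h1, h5]

theorem code (L M d e N : ℕ) (hN : N = L * M * d ^ e) : ∃ cd : ℕ → ℕ → (Fin e → ℕ) → ℕ,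
    (∀ l u v, l < L → u < M → (∀ i, v i < d) → 1 ≤ cd l u v ∧ cd l u v ≤ N) ∧
    (∀ l u v l' u' v', l < L → u < M → (∀ i, v i < d) → l' < L → u' < M → (∀ i, v' i < d) →
      cd l u v = cd l' u' v' → l = l' ∧ u = u' ∧ v = v') := by
  have c : (Fin L × Fin M × (Fin e → Fin d)) ≃ Fin N := Fintype.equivFinOfCardEq (by
    rw [hN]; simp [mul_assoc])
  refine ⟨fun l u v => if h : l < L ∧ u < M ∧ (∀ i, v i < d) then
    (c (⟨l, h.1⟩, ⟨u, h.2.1⟩, fun i => ⟨v i, h.2.2 i⟩)).val + 1 else 0, ?_, ?_⟩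
  · intro l u v h1 h2 h3
    simp only
    rw [dif_pos ⟨h1, h2, h3⟩]
    have := (c (⟨l, h1⟩, ⟨u, h2⟩, fun i => ⟨v i, h3 i⟩)).isLt
    omega
  · intro l u v l' u' v' h1 h2 h3 h1' h2' h3' he
    simp only at he
    rw [dif_pos ⟨h1, h2, h3⟩, dif_pos ⟨h1', h2', h3'⟩] at he
    have he2 := c.injective (Fin.ext (Nat.succ_injective he))
    simp only [Prod.mk.injEq, Fin.mk.injEq] at he2
    refine ⟨he2.1, he2.2.1, ?_⟩
    funext i
    have := congrFun he2.2.2 i
    simpa using this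

/-- scalar product -/
def ip {e : ℕ} (u v : Fin e → ℕ) : ℤ := ∑ i, (u i : ℤ) * v i

/-- squared distance -/
def dd {e : ℕ} (u v : Fin e → ℕ) : ℤ := ∑ i, ((u i : ℤ) - v i) ^ 2

theorem dd_eq {e : ℕ} (u v : Fin e → ℕ) : dd u v = ip u u - 2 * ip u v + ip v v := by
  unfold dd ip
  rw [Finset.mul_sum, ← Finset.sum_sub_distrib, ← Finset.sum_add_distrib]
  apply Finset.sum_congr rfl
  intro i _
  ring

theorem dd_nonneg {e : ℕ} (u v : Fin e → ℕ) : 0 ≤ dd u v :=
  Finset.sum_nonneg fun _ _ => sq_nonneg _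

theorem dd_zero {e : ℕ} {u v : Fin e → ℕ} (h : dd u v = 0) : v = u := by
  unfold dd at h
  rw [Finset.sum_eq_zero_iff_of_nonneg (fun i _ => sq_nonneg _)] at h
  funext i
  have := h i (Finset.mem_univ i)
  have := pow_eq_zero_iff (two_ne_zero) |>.1 this
  omega

theorem dd_self {e : ℕ} (u : Fin e → ℕ) : dd u u = 0 := by
  unfold dd
  simp

theorem dd_lt {D e : ℕ} (he : 1 ≤ e) (hD : 1 ≤ D) {u v : Fin e → ℕ} (hu : ∀ i, u i < D)
    (hv : ∀ i, v i < D) : dd u v < (e : ℤ) * D ^ 2 := by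
  have h1 : dd u v ≤ ∑ _i : Fin e, ((D : ℤ) - 1) ^ 2 := by
    unfold dd
    apply Finset.sum_le_sum
    intro i _
    apply sq_le_sq'
    · have := hv i; omega
    · have := hu i; omega
  have h2 : ∑ _i : Fin e, ((D : ℤ) - 1) ^ 2 = e * ((D : ℤ) - 1) ^ 2 := by
    simp
  rw [h2] at h1
  refine lt_of_le_of_lt h1 ?_
  have h3 : (0 : ℤ) < e := by exact_mod_cast he
  have h4 : (1 : ℤ) ≤ D := by exact_mod_cast hD
  apply mul_lt_mul_of_pos_left _ h3
  nlinarith

theorem ip_self_le {D e : ℕ} {u : Fin e → ℕ} (hu : ∀ i, u i < D) :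
    ∑ i, u i ^ 2 ≤ e * D ^ 2 := by
  calc ∑ i, u i ^ 2 ≤ ∑ _i : Fin e, D ^ 2 := by
        apply Finset.sum_le_sum
        intro i _
        exact Nat.pow_le_pow_left (hu i).le 2
    _ = e * D ^ 2 := by simp

theorem ip_self {e : ℕ} (u : Fin e → ℕ) : ip u u = ((∑ i, u i ^ 2 : ℕ) : ℤ) := by
  unfold ip
  push_cast
  apply Finset.sum_congr rfl
  intro i _
  ring

/-- the main computation -/
theorem step_eq {e E l : ℕ} {zq zp' zr yp yr yp' : Fin e → ℕ} {xp xr xp' βp βr βp' : ℕ}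
    (hE1 : ∑ i, zr i ^ 2 ≤ E) (hE2 : ∑ i, zp' i ^ 2 ≤ E)
    (h1 : xr + l * βr = xp + l * βp) (h2 : yr = yp)
    (h3 : xr + l * βr + (E - ∑ i, zr i ^ 2) = xp' + l * βp' + (E - ∑ i, zp' i ^ 2))
    (h4 : (fun i => yr i + zr i) = fun i => yp' i + zp' i) :
    (xp' : ℤ) + (l + 1) * βp' + 2 * ip zq yp' =
      xp + l * βp + 2 * ip zq yp + βp' + dd zq zp' - dd zq zr := by
  rw [dd_eq, dd_eq, ip_self zp', ip_self zr]
  have h5 : ip zq yp' + ip zq zp' = ip zq yr + ip zq zr := by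
    unfold ip
    rw [← Finset.sum_add_distrib, ← Finset.sum_add_distrib]
    apply Finset.sum_congr rfl
    intro i _
    have := congrFun h4 i
    have h6 : (yr i : ℤ) + zr i = yp' i + zp' i := by exact_mod_cast this
    linear_combination -(zq i : ℤ) * h6
  have h7 : (xr : ℤ) + l * βr + (E - ((∑ i, zr i ^ 2 : ℕ) : ℤ)) =
      xp' + l * βp' + (E - ((∑ i, zp' i ^ 2 : ℕ) : ℤ)) := by
    rw [← Nat.cast_sub hE1, ← Nat.cast_sub hE2]
    exact_mod_cast h3
  have h8 : (xr : ℤ) + l * βr = xp + l * βp := by exact_mod_cast h1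
  rw [h2] at h5
  linear_combination (2 : ℤ) * h5 - h7 + h8

theorem telescope {L : ℕ} {Φ : ℕ → ℤ} {β : ℤ} (h : ∀ l < L, Φ (l + 1) ≤ Φ l + β)
    (hL : Φ L = Φ 0 + L * β) : ∀ l < L, Φ (l + 1) = Φ l + β := by
  have h1 : ∀ l, l ≤ L → Φ l ≤ Φ 0 + l * β := by
    intro l
    induction l with
    | zero => intro _; simp
    | succ l ih =>
      intro hl
      have := h l (by omega)
      have := ih (by omega)
      push_cast
      linarith
  have h2 : ∀ k, k ≤ L → Φ L ≤ Φ (L - k) + k * β := by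
    intro k
    induction k with
    | zero => intro _; simp
    | succ k ih =>
      intro hk
      have h3 := h (L - (k + 1)) (by omega)
      have h4 := ih (by omega)
      have h5 : L - (k + 1) + 1 = L - k := by omega
      rw [h5] at h3
      push_cast
      linarith
  intro l hl
  have h3 := h l hl
  have h4 := h1 l hl.le
  have h5 := h2 (L - (l + 1)) (by omega)
  have h6 : L - (L - (l + 1)) = l + 1 := by omega
  rw [h6, hL, Nat.cast_sub (by omega)] at h5
  push_cast at h5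
  linarith

end GeoAux

open GeoAux in
theorem exists_ps (L D e : ℕ) (hL : 1 ≤ L) (hD : 1 ≤ D) (he : 1 ≤ e) :
    ∃ s t : ℕ → ℕ → ℕ, PS (KE L D e) L (NE L D e) s t ∧ Uq (KE L D e) L s t := by
  set b := D ^ e with hb
  set E := e * D ^ 2 with hE
  set X := XE L D e with hX
  have hXE : X = L * E * b := rfl
  have hb1 : 1 ≤ b := Nat.one_le_iff_ne_zero.2 (pow_pos hD e).ne'
  have hE1 : 1 ≤ E := Nat.one_le_iff_ne_zero.2 (by positivity)
  have hEX : E ≤ X := by
    rw [hXE]
    calc E = 1 * E * 1 := by ring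
      _ ≤ L * E * b := by gcongr
  have hK : KE L D e = b * (X * b) := rfl
  have hN : NE L D e = L * (3 * X) * (2 * D) ^ e := rfl
  obtain ⟨ρ, x, z, y, hz, hy, hx, hρ, hmono, hρz, hzρ, hinj⟩ := rows X b D e hb hD
  obtain ⟨cd, hc1, hc2⟩ := code L (3 * X) (2 * D) e (NE L D e) hN
  have hnn : ∀ q, ∑ i, z q i ^ 2 ≤ E := fun q => ip_self_le (hz q)
  -- bounds
  have hu0 : ∀ q < KE L D e, ∀ l < L, x q + l * (E * ρ q) < 2 * X := by
    intro q hq l hl
    have h1 := hx q (hK ▸ hq)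
    have h2 := hρ q (hK ▸ hq)
    have h3 : l * (E * ρ q) ≤ L * E * b := by
      rw [← mul_assoc]
      exact Nat.mul_le_mul (Nat.mul_le_mul_right _ hl.le) h2.le
    rw [← hXE] at h3
    omega
  have hu1 : ∀ q < KE L D e, ∀ l < L, x q + l * (E * ρ q) < 3 * X := by
    intro q hq l hl
    have := hu0 q hq l hl
    omega
  have hu2 : ∀ q < KE L D e, ∀ l < L, x q + l * (E * ρ q) + (E - ∑ i, z q i ^ 2) < 3 * X := by
    intro q hq l hl
    have := hu0 q hq l hl
    omega
  have hv1 : ∀ q i, y q i < 2 * D := fun q i => by have := hy q i; omega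
  have hv2 : ∀ q i, (fun i => y q i + z q i) i < 2 * D := fun q i => by
    have := hy q i
    have := hz q i
    simp only
    omega
  refine ⟨fun q l => cd l (x q + l * (E * ρ q)) (y q),
    fun q l => cd l (x q + l * (E * ρ q) + (E - ∑ i, z q i ^ 2)) (fun i => y q i + z q i), ?_, ?_⟩
  · refine ⟨?_, ?_, ?_, ?_⟩
    · intro q hq l hl
      exact hc1 _ _ _ hl (hu1 q hq l hl) (hv1 q)
    · intro q hq l hl
      exact hc1 _ _ _ hl (hu2 q hq l hl) (hv2 q)
    · intro q hq l hl q' hq' l' hl' hh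
      exact (hc2 _ _ _ _ _ _ hl (hu1 q hq l hl) (hv1 q) hl' (hu1 q' hq' l' hl') (hv1 q') hh).1
    · intro q hq l hl q' hq' l' hl' hh
      exact (hc2 _ _ _ _ _ _ hl (hu2 q hq l hl) (hv2 q) hl' (hu2 q' hq' l' hl') (hv2 q') hh).1
  · intro q hq p r hp0 hpL hple hr
    have hpK : ∀ l ≤ L, p l < KE L D e := fun l hl => lt_of_le_of_lt (hple l hl) hq
    -- the equations
    have heq : ∀ l < L, (x (r l) + l * (E * ρ (r l)) = x (p l) + l * (E * ρ (p l)) ∧
        y (r l) = y (p l)) ∧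
        (x (r l) + l * (E * ρ (r l)) + (E - ∑ i, z (r l) i ^ 2) =
          x (p (l + 1)) + l * (E * ρ (p (l + 1))) + (E - ∑ i, z (p (l + 1)) i ^ 2) ∧
        (fun i => y (r l) i + z (r l) i) = fun i => y (p (l + 1)) i + z (p (l + 1)) i) := by
      intro l hl
      obtain ⟨hrK, h1, h2⟩ := hr l hl
      exact ⟨(hc2 _ _ _ _ _ _ hl (hu1 _ hrK l hl) (hv1 _) hl (hu1 _ (hpK l hl.le) l hl) (hv1 _)
          h1).2,
        (hc2 _ _ _ _ _ _ hl (hu2 _ hrK l hl) (hv2 _) hl (hu2 _ (hpK (l + 1) hl) l hl) (hv2 _)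
          h2).2⟩
    -- the potential
    let Φ : ℕ → ℤ := fun l => (x (p l) : ℤ) + l * ((E * ρ (p l) : ℕ) : ℤ) + 2 * ip (z q) (y (p l))
    have hΦ : ∀ l < L, Φ (l + 1) = Φ l + ((E * ρ (p (l + 1)) : ℕ) : ℤ) + dd (z q) (z (p (l + 1)))
        - dd (z q) (z (r l)) := by
      intro l hl
      obtain ⟨⟨h1, h2⟩, h3, h4⟩ := heq l hl
      have := step_eq (zq := z q) (hnn (r l)) (hnn (p (l + 1))) h1 h2 h3 h4
      simp only [Φ]
      rw [Nat.cast_add, Nat.cast_one]
      exact this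
    have hone : ∀ l ≤ L, ((E * ρ (p l) : ℕ) : ℤ) + dd (z q) (z (p l)) ≤ ((E * ρ q : ℕ) : ℤ) ∧
        (((E * ρ (p l) : ℕ) : ℤ) + dd (z q) (z (p l)) = ((E * ρ q : ℕ) : ℤ) → ρ (p l) = ρ q) := by
      intro l hl
      rcases Nat.eq_or_lt_of_le (hmono _ _ (hple l hl)) with h1 | h1
      · rw [hρz _ _ h1, h1, dd_self]
        simp
      · have h2 := dd_lt he hD (hz q) (hz (p l))
        have h3 : E * (ρ (p l) + 1) ≤ E * ρ q := Nat.mul_le_mul_left _ h1
        have h4 : ((E * (ρ (p l) + 1) : ℕ) : ℤ) ≤ ((E * ρ q : ℕ) : ℤ) := by exact_mod_cast h3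
        have h5 : ((E * (ρ (p l) + 1) : ℕ) : ℤ) = ((E * ρ (p l) : ℕ) : ℤ) + E := by
          push_cast; ring
        have h6 : (E : ℤ) = e * D ^ 2 := by rw [hE]; push_cast; ring
        constructor
        · linarith
        · intro h7
          exfalso
          linarith
    have hstep : ∀ l < L, Φ (l + 1) ≤ Φ l + ((E * ρ q : ℕ) : ℤ) := by
      intro l hl
      rw [hΦ l hl]
      have h1 := (hone (l + 1) hl).1
      have h2 := dd_nonneg (z q) (z (r l))
      linarith
    have hend : Φ L = Φ 0 + L * ((E * ρ q : ℕ) : ℤ) := by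
      simp only [Φ]
      rw [hp0, hpL]
      push_cast
      ring
    have hall := telescope hstep hend
    have hcls : ∀ l < L, ρ (p (l + 1)) = ρ q ∧ ρ (r l) = ρ q := by
      intro l hl
      have h1 := hall l hl
      rw [hΦ l hl] at h1
      have h2 := hone (l + 1) hl
      have h3 := dd_nonneg (z q) (z (r l))
      have h4 : dd (z q) (z (r l)) = 0 := by linarith [h2.1]
      refine ⟨h2.2 (by linarith), ?_⟩
      exact hzρ _ (hK ▸ (hr l hl).1) _ (hK ▸ hq) (dd_zero h4)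
    have hpcls : ∀ l ≤ L, ρ (p l) = ρ q := by
      intro l hl
      cases l with
      | zero => rw [hp0]
      | succ l => exact (hcls l hl).1
    have hrp : ∀ l < L, r l = p l ∧ p (l + 1) = r l := by
      intro l hl
      obtain ⟨⟨h1, h2⟩, h3, h4⟩ := heq l hl
      have c1 := hpcls l hl.le
      have c2 := (hcls l hl).2
      have c3 := (hcls l hl).1
      have hzz : z (p (l + 1)) = z (r l) := hρz _ _ (by rw [c3, c2])
      constructor
      · apply hinj _ _ (by rw [c1, c2]) _ h2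
        rw [c1, c2] at h1
        omega
      · apply hinj _ _ (by rw [c3, c2])
        · rw [c2, c3, hzz] at h3
          omega
        · funext i
          have := congrFun h4 i
          simp only [hzz] at this
          omega
    have hpq : ∀ l ≤ L, p l = q := by
      intro l
      induction l with
      | zero => intro _; exact hp0
      | succ l ih =>
        intro hl
        rw [(hrp l hl).2, (hrp l hl).1, ih (by omega)]
    intro l hl
    exact ⟨by rw [(hrp l hl).1, hpq l hl.le], hpq l hl.le⟩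

end Pool.Agent.P0036f5e
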