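import Pool.Agent.Lib.P0036f5e.Geo

/-!
# E7: the choice of the parameters

Let `λ = Nat.log 2 (k ^ 2 / n)` (natural division; `16 ≤ k ^ 2 / n`, so `4 ≤ λ ≤ Nat.log 2 n`),
`e = Nat.sqrt (λ / 4) ≥ 1`, `D = 2 ^ e` (so `D ^ e = 2 ^ (e ^ 2)`), `x = n / 2 ^ (2 e ^ 2 + 6 e + 24)`,
`L = Nat.sqrt x`.  Facts: `4 e ^ 2 ≤ λ`, so `2 ^ (4 e ^ 2) ≤ k ^ 2 / n`, `2 ^ (4 e ^ 2) * n ≤ k ^ 2`;
`2 e ≤ Nat.sqrt λ ≤ Nat.sqrt (Nat.log 2 n)`; `λ < 4 (e + 1) ^ 2`, i.e. `k ^ 2 / n < 2 ^ (4 (e + 1) ^ 2)`, so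
`k ^ 2 < n * 2 ^ (4 (e + 1) ^ 2)`.  `2 e ^ 2 + 6 e + 24 ≤ Nat.log 2 n` (as `4 e ^ 2 ≤ M := Nat.log 2 n` and
`M ≥ 128`: `2 e ^ 2 ≤ M / 2`, `6 e + 24 ≤ M / 2`), so `x ≥ 1`, `L ≥ 1`,
`L ^ 2 ≤ x ≤ 4 L ^ 2` (`Nat.lt_succ_sqrt`) and `n < 2 x * 2 ^ (2 e ^ 2 + 6 e + 24) ≤ L ^ 2 * 2 ^ (2 e ^ 2 + 6 e + 27)`.
Closed forms: `KE L D e = L * e * 2 ^ (3 e ^ 2 + 2 e)`, `NE L D e = 3 * L ^ 2 * e * 2 ^ (2 e ^ 2 + 3 e)`.
* `NE ≤ 3 e 2 ^ (2 e ^ 2 + 3 e) * n / 2 ^ (2 e ^ 2 + 6 e + 24)`, so `NE * 2 ^ 24 ≤ n` (`3 e ≤ 2 ^ (3 e)`).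
* `KE ^ 2 = L ^ 2 e ^ 2 2 ^ (6 e ^ 2 + 4 e)` and `L ^ 2 2 ^ (2 e ^ 2 + 6 e + 24) ≤ n`, so
  `KE ^ 2 * 2 ^ 24 * 4 ≤ e ^ 2 2 ^ (- 2 e) * 4 * 2 ^ (4 e ^ 2) * n ≤ 2 ^ (4 e ^ 2) * n ≤ k ^ 2` (`4 e ^ 2 ≤ 4 ^ e`):
  `KE * 8192 ≤ k ≤ n`.  Hence `4000 * (NE + KE) ≤ n` and `KE + 2 ≤ k` (`k ≥ 3`).
* Last claim: it suffices that `n ^ 3 * k ^ 2 ≤ (KE * L / 2) ^ 4 * 2 ^ (4 * (6 e + 48))`, roughly; precisely let
  `S = Nat.sqrt (Nat.sqrt (n ^ 3 * k ^ 2))`, `S ^ 4 ≤ n ^ 3 k ^ 2 < n ^ 4 * 2 ^ (4 (e + 1) ^ 2)`, so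
  `S < n * 2 ^ ((e + 1) ^ 2)`, and `n ≤ L ^ 2 * 2 ^ (2 e ^ 2 + 6 e + 27)` gives
  `S ≤ L ^ 2 * 2 ^ (3 e ^ 2 + 8 e + 28) = (L ^ 2 * 2 ^ (3 e ^ 2 + 2 e)) * 2 ^ (6 e + 28) ≤
  (KE * L) * 2 ^ (6 e + 28)`; with `6 e ≤ 3 Nat.sqrt (Nat.log 2 n)`:
  `S / 2 ^ (3 Nat.sqrt (Nat.log 2 n) + 48) ≤ KE * L / 2 ^ 20 ≤ KE * L / 2`.
-/

set_option autoImplicit false

namespace Pool.Agent.P0036f5e

namespace NumEAux

theorem KE_eq (L e : ℕ) : KE L (2 ^ e) e = L * e * 2 ^ (3 * e ^ 2 + 2 * e) := by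
  unfold KE XE
  rw [← pow_mul, ← pow_mul]
  have h : 2 ^ (3 * e ^ 2 + 2 * e) = 2 ^ (e * e) * 2 ^ (e * 2) * 2 ^ (e * e) * 2 ^ (e * e) := by
    rw [← pow_add, ← pow_add, ← pow_add]
    congr 1
    ring
  rw [h]
  ring

theorem NE_eq (L e : ℕ) : NE L (2 ^ e) e = 3 * L ^ 2 * e * 2 ^ (2 * e ^ 2 + 3 * e) := by
  unfold NE XE
  rw [← pow_mul, ← pow_mul, mul_pow, ← pow_mul]
  have h : 2 ^ (2 * e ^ 2 + 3 * e) = 2 ^ (e * 2) * 2 ^ (e * e) * (2 ^ e * 2 ^ (e * e)) := by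
    rw [← pow_add, ← pow_add, ← pow_add]
    congr 1
    ring
  rw [h]
  ring

theorem two_mul_le (e : ℕ) (he : 1 ≤ e) : 2 * e ≤ 2 ^ e := by
  induction e, he using Nat.le_induction with
  | base => norm_num
  | succ m hm ih =>
    rw [pow_succ]
    omega

theorem three_mul_le (e : ℕ) : 3 * e ≤ 2 ^ (3 * e) := (Nat.lt_two_pow_self (n := 3 * e)).le

theorem exp_le {e M : ℕ} (h1 : 4 * e ^ 2 ≤ M) (h2 : 128 ≤ M) : 2 * e ^ 2 + 6 * e + 24 ≤ M := by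
  rcases Nat.lt_or_ge e 7 with h | h
  · interval_cases e <;> omega
  · nlinarith

end NumEAux

open NumEAux

theorem num_lowerE {n k : ℕ} (hn : 2 ^ 128 ≤ n) (hk : k ≤ n) (hk2 : 16 * n ≤ k ^ 2) :
    ∃ L D e, 1 ≤ L ∧ 1 ≤ D ∧ 1 ≤ e ∧ 4000 * (NE L D e + KE L D e) ≤ n ∧ KE L D e + 2 ≤ k ∧
      Nat.sqrt (Nat.sqrt (n ^ 3 * k ^ 2)) / 2 ^ (3 * Nat.sqrt (Nat.log 2 n) + 48) ≤
        KE L D e * L / 2 := by
  have hn0 : 0 < n := lt_of_lt_of_le (by positivity) hn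
  set M := Nat.log 2 n with hM
  have hM1 : 128 ≤ M := (Nat.le_log_iff_pow_le (by norm_num) hn0.ne').2 hn
  have hMn : 2 ^ M ≤ n := Nat.pow_log_le_self 2 hn0.ne'
  set Q := k ^ 2 / n with hQ
  have hQ16 : 16 ≤ Q := (Nat.le_div_iff_mul_le hn0).2 hk2
  have hQn : Q ≤ n := by
    have h1 : k ^ 2 ≤ n * n := by nlinarith
    exact (Nat.div_le_div_right h1).trans (by rw [Nat.mul_div_cancel _ hn0])
  have hQk : Q * n ≤ k ^ 2 := Nat.div_mul_le_self _ _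
  have hkQ : k ^ 2 < n * (Q + 1) := Nat.lt_mul_div_succ _ hn0
  set lam := Nat.log 2 Q with hlam
  have hl1 : 2 ^ lam ≤ Q := Nat.pow_log_le_self 2 (by omega)
  have hl2 : Q < 2 ^ (lam + 1) := Nat.lt_pow_succ_log_self (by norm_num) Q
  have hl3 : lam ≤ M := Nat.log_mono_right hQn
  have hl4 : 4 ≤ lam := (Nat.le_log_iff_pow_le (by norm_num) (by omega)).2 (by simpa using hQ16)
  set e := Nat.sqrt (lam / 4) with he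
  have he1 : e ^ 2 ≤ lam / 4 := by rw [pow_two]; exact Nat.sqrt_le _
  have he2 : lam / 4 < (e + 1) ^ 2 := by rw [pow_two]; exact Nat.lt_succ_sqrt _
  have he3 : 4 * e ^ 2 ≤ lam := by omega
  have he4 : lam + 1 ≤ 4 * (e + 1) ^ 2 := by omega
  have he0 : 1 ≤ e := by
    rw [he, Nat.le_sqrt]
    omega
  have f1 : 2 ^ (4 * e ^ 2) * n ≤ k ^ 2 :=
    (Nat.mul_le_mul_right n ((Nat.pow_le_pow_right (by norm_num) he3).trans hl1)).trans hQk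
  have f2 : k ^ 2 < n * 2 ^ (4 * (e + 1) ^ 2) :=
    lt_of_lt_of_le hkQ (Nat.mul_le_mul_left n (le_trans hl2 (Nat.pow_le_pow_right (by norm_num) he4)))
  have f3 : 2 * e ≤ Nat.sqrt M := by
    rw [Nat.le_sqrt]
    nlinarith
  have f4 : 2 * e ^ 2 + 6 * e + 24 ≤ M := exp_le (he3.trans hl3) hM1
  set w := 2 * e ^ 2 + 6 * e + 24 with hw
  have hw0 : 0 < 2 ^ w := by positivity
  have hx1 : 1 ≤ n / 2 ^ w := by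
    rw [Nat.le_div_iff_mul_le hw0, one_mul]
    exact (Nat.pow_le_pow_right (by norm_num) f4).trans hMn
  set x := n / 2 ^ w with hx
  have hxn : x * 2 ^ w ≤ n := Nat.div_mul_le_self _ _
  have hnx : n < 2 ^ w * (x + 1) := Nat.lt_mul_div_succ _ hw0
  set L := Nat.sqrt x with hL
  have hL0 : 1 ≤ L := by
    rw [hL, Nat.le_sqrt]
    omega
  have hL1 : L ^ 2 ≤ x := by rw [pow_two]; exact Nat.sqrt_le _
  have hL2 : x < (L + 1) ^ 2 := by rw [pow_two]; exact Nat.lt_succ_sqrt _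
  have hL3 : x + 1 ≤ 4 * L ^ 2 := by nlinarith
  have g1 : L ^ 2 * 2 ^ w ≤ n := (Nat.mul_le_mul_right _ hL1).trans hxn
  have g2 : n < L ^ 2 * 2 ^ (w + 2) := by
    calc n < 2 ^ w * (x + 1) := hnx
      _ ≤ 2 ^ w * (4 * L ^ 2) := Nat.mul_le_mul_left _ hL3
      _ = L ^ 2 * 2 ^ (w + 2) := by ring
  clear_value L x w e lam Q M
  clear hn hM1 hMn hQ16 hQn hQk hkQ hl1 hl2 hl3 hl4 he1 he2 he3 he4 hx1 hxn hnx hL1 hL2 hL3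
  have hN : NE L (2 ^ e) e * 2 ^ 24 ≤ n := by
    rw [NE_eq]
    calc 3 * L ^ 2 * e * 2 ^ (2 * e ^ 2 + 3 * e) * 2 ^ 24
        = L ^ 2 * ((3 * e) * 2 ^ (2 * e ^ 2 + 3 * e) * 2 ^ 24) := by ring
      _ ≤ L ^ 2 * (2 ^ (3 * e) * 2 ^ (2 * e ^ 2 + 3 * e) * 2 ^ 24) :=
          Nat.mul_le_mul_left _ (Nat.mul_le_mul_right _ (Nat.mul_le_mul_right _ (three_mul_le e)))
      _ = L ^ 2 * 2 ^ w := by
          rw [hw, ← pow_add, ← pow_add]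
          congr 2
          ring
      _ ≤ n := g1
  have hK : KE L (2 ^ e) e * 8192 ≤ k := by
    have h1 : (KE L (2 ^ e) e * 8192) ^ 2 ≤ k ^ 2 := by
      rw [KE_eq]
      calc (L * e * 2 ^ (3 * e ^ 2 + 2 * e) * 8192) ^ 2
          = L ^ 2 * ((2 * e) ^ 2 * (2 ^ (3 * e ^ 2 + 2 * e)) ^ 2 * 2 ^ 24) := by ring
        _ ≤ L ^ 2 * ((2 ^ e) ^ 2 * (2 ^ (3 * e ^ 2 + 2 * e)) ^ 2 * 2 ^ 24) :=
            Nat.mul_le_mul_left _ (Nat.mul_le_mul_right _ (Nat.mul_le_mul_right _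
              (Nat.pow_le_pow_left (two_mul_le e he0) 2)))
        _ = 2 ^ (4 * e ^ 2) * (L ^ 2 * 2 ^ w) := by
            rw [← pow_mul, ← pow_mul, ← pow_add, ← pow_add, mul_left_comm, ← pow_add]
            congr 2
            rw [hw]
            ring
        _ ≤ 2 ^ (4 * e ^ 2) * n := Nat.mul_le_mul_left _ g1
        _ ≤ k ^ 2 := f1
    exact (Nat.pow_le_pow_iff_left two_ne_zero).1 h1
  have hKL : L ^ 2 * 2 ^ (3 * e ^ 2 + 2 * e) ≤ KE L (2 ^ e) e * L := by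
    rw [KE_eq]
    calc L ^ 2 * 2 ^ (3 * e ^ 2 + 2 * e) = L ^ 2 * 1 * 2 ^ (3 * e ^ 2 + 2 * e) := by ring
      _ ≤ L ^ 2 * e * 2 ^ (3 * e ^ 2 + 2 * e) :=
          Nat.mul_le_mul_right _ (Nat.mul_le_mul_left _ he0)
      _ = L * e * 2 ^ (3 * e ^ 2 + 2 * e) * L := by ring
  have hK0 : 1 ≤ KE L (2 ^ e) e := by
    rw [KE_eq]
    exact Nat.mul_pos (Nat.mul_pos hL0 he0) (Nat.pow_pos (by norm_num))
  refine ⟨L, 2 ^ e, e, hL0, Nat.one_le_two_pow, he0, ?_, by omega, ?_⟩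
  · have h24 : (2 : ℕ) ^ 24 = 16777216 := by norm_num
    rw [h24] at hN
    omega
  · set S := Nat.sqrt (Nat.sqrt (n ^ 3 * k ^ 2)) with hS
    have s1 : S ^ 4 ≤ n ^ 3 * k ^ 2 := by
      have h1 : S * S ≤ Nat.sqrt (n ^ 3 * k ^ 2) := Nat.sqrt_le _
      have h2 : Nat.sqrt (n ^ 3 * k ^ 2) * Nat.sqrt (n ^ 3 * k ^ 2) ≤ n ^ 3 * k ^ 2 := Nat.sqrt_le _
      calc S ^ 4 = (S * S) * (S * S) := by ring
        _ ≤ _ := (Nat.mul_le_mul h1 h1).trans h2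
    have s2 : S ^ 4 < (n * 2 ^ ((e + 1) ^ 2)) ^ 4 := by
      calc S ^ 4 ≤ n ^ 3 * k ^ 2 := s1
        _ < n ^ 3 * (n * 2 ^ (4 * (e + 1) ^ 2)) := Nat.mul_lt_mul_of_pos_left f2 (by positivity)
        _ = (n * 2 ^ ((e + 1) ^ 2)) ^ 4 := by
            rw [mul_pow, ← pow_mul, mul_comm ((e + 1) ^ 2) 4]
            ring
    have s3 : S < n * 2 ^ ((e + 1) ^ 2) := lt_of_pow_lt_pow_left₀ 4 (Nat.zero_le _) s2
    have s4 : S ≤ KE L (2 ^ e) e * L * 2 ^ (6 * e + 27) := by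
      calc S ≤ n * 2 ^ ((e + 1) ^ 2) := s3.le
        _ ≤ L ^ 2 * 2 ^ (w + 2) * 2 ^ ((e + 1) ^ 2) := Nat.mul_le_mul_right _ g2.le
        _ = L ^ 2 * 2 ^ (3 * e ^ 2 + 2 * e) * 2 ^ (6 * e + 27) := by
            rw [mul_assoc, mul_assoc, ← pow_add, ← pow_add]
            congr 2
            rw [hw]
            ring
        _ ≤ _ := Nat.mul_le_mul_right _ hKL
    have s5 : 2 * 2 ^ (6 * e + 27) ≤ 2 ^ (3 * Nat.sqrt M + 48) := by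
      calc 2 * 2 ^ (6 * e + 27) = 2 ^ (6 * e + 28) := by ring
        _ ≤ _ := Nat.pow_le_pow_right (by norm_num) (by omega)
    rw [Nat.le_div_iff_mul_le (by norm_num)]
    have hp : 0 < 2 ^ (6 * e + 27) := by positivity
    refine Nat.le_of_mul_le_mul_right ?_ hp
    calc S / 2 ^ (3 * Nat.sqrt M + 48) * 2 * 2 ^ (6 * e + 27)
        = S / 2 ^ (3 * Nat.sqrt M + 48) * (2 * 2 ^ (6 * e + 27)) := by ring
      _ ≤ S / 2 ^ (3 * Nat.sqrt M + 48) * 2 ^ (3 * Nat.sqrt M + 48) := Nat.mul_le_mul_left _ s5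
      _ ≤ S := Nat.div_mul_le_self _ _
      _ ≤ _ := s4

end Pool.Agent.P0036f5e
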