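import Pool.Agent.Lib.P0036f5e.EDefs

/-!
# E1: size of the witness machine

The set of states `scan, mid, fr, fin`,
`lc j, rc j (j ≤ K)`, `ra i, gl β i, lf β i, se β i, ca β i (i ≤ N)`, `cb β j, rt j, rh j, bk j (j ≤ N)` is
closed (`1 ≤ N`, `1 ≤ K`), it has at most `4 + 2 (K + 1) + 14 (N + 1) ≤ 32 (N + K)` elements; 8 letters,
2 marks, 12 tape symbols, at most two transitions per state and symbol; the size is at most
`32 (N + K) + 8 + 12 + 1 + 1 + 5 * (32 (N + K) * 12 * 2) ≤ 4000 (N + K)`.  Restrict with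
`Mach.restrict`.  The last part: reachable configurations of the restricted machine are reachable
configurations of the machine, its transitions are transitions of the machine.
-/

set_option autoImplicit false

namespace Pool.Agent.P0036f5e

open Relation Pool.Agent.P0036f5v2 Pool.Agent.P0036f5w Pool.Agent.P0036f5g Pool.Agent.P0036f5k
  Classical

namespace WitAAux

theorem few_restrict {A : Type} (M : Mach A) (cv : Bool) (k : ℕ) (K : Set M.Q) (hI : M.qI ∈ K)
    (hM : FewWrites M cv k) : FewWrites (M.restrict K hI) cv k := by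
  intro w c hr
  have key : ∀ c : (M.restrict K hI).Cfg, Reach (M.restrict K hI) cv w c →
      Reach M cv w ⟨c.st.1, c.pos, c.tape, c.seen⟩ := by
    intro c hr
    let φ : (M.restrict K hI).Cfg → M.Cfg := fun c => ⟨c.st.1, c.pos, c.tape, c.seen⟩
    have : ReflTransGen (M.Step cv w.length) (φ ((M.restrict K hI).init w)) (φ c) := by
      refine ReflTransGen.lift φ ?_ _ _ hr
      rintro a b ⟨h1, x, d, h2, h3, h4, h5, h6, h7⟩
      exact ⟨h1, x, d, h2, h3, h4, h5, h6, h7⟩
    exact this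
  obtain ⟨h1, h2, h3⟩ := hM w _ (key c hr)
  refine ⟨h1, h2, ?_⟩
  intro hs hp1 hp2 q x d hx hok
  exact h3 hs hp1 hp2 q.1 x d hx hok

/-- the states with a bit and a number -/
def fam (g : Bool → ℕ → EQ) (n : ℕ) : Set EQ :=
  (fun p : Bool × ℕ => g p.1 p.2) '' (Set.univ ×ˢ Set.Iic n)

/-- the states that can occur -/
def kst (N K : ℕ) : Set EQ :=
  ((({.scan, .mid, .fr, .fin} ∪ EQ.ra '' Set.Iic N) ∪ (EQ.lc '' Set.Iic K ∪ EQ.rc '' Set.Iic K)) ∪
    ((EQ.rt '' Set.Iic N ∪ EQ.rh '' Set.Iic N) ∪ (EQ.bk '' Set.Iic N ∪ fam EQ.cb N))) ∪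
    ((fam EQ.gl N ∪ fam EQ.lf N) ∪ (fam EQ.se N ∪ fam EQ.ca N))

theorem mem_scan (N K : ℕ) : EQ.scan ∈ kst N K := by simp [kst]
theorem mem_mid (N K : ℕ) : EQ.mid ∈ kst N K := by simp [kst]
theorem mem_fr (N K : ℕ) : EQ.fr ∈ kst N K := by simp [kst]
theorem mem_fin (N K : ℕ) : EQ.fin ∈ kst N K := by simp [kst]
theorem mem_lc (N K j : ℕ) : EQ.lc j ∈ kst N K ↔ j ≤ K := by simp [kst, fam]
theorem mem_rc (N K j : ℕ) : EQ.rc j ∈ kst N K ↔ j ≤ K := by simp [kst, fam]
theorem mem_ra (N K i : ℕ) : EQ.ra i ∈ kst N K ↔ i ≤ N := by simp [kst, fam]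
theorem mem_rt (N K i : ℕ) : EQ.rt i ∈ kst N K ↔ i ≤ N := by simp [kst, fam]
theorem mem_rh (N K i : ℕ) : EQ.rh i ∈ kst N K ↔ i ≤ N := by simp [kst, fam]
theorem mem_bk (N K i : ℕ) : EQ.bk i ∈ kst N K ↔ i ≤ N := by simp [kst, fam]
theorem mem_cb (N K i : ℕ) (c : Bool) : EQ.cb c i ∈ kst N K ↔ i ≤ N := by
  cases c <;> simp [kst, fam]
theorem mem_gl (N K i : ℕ) (c : Bool) : EQ.gl c i ∈ kst N K ↔ i ≤ N := by
  cases c <;> simp [kst, fam]
theorem mem_lf (N K i : ℕ) (c : Bool) : EQ.lf c i ∈ kst N K ↔ i ≤ N := by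
  cases c <;> simp [kst, fam]
theorem mem_se (N K i : ℕ) (c : Bool) : EQ.se c i ∈ kst N K ↔ i ≤ N := by
  cases c <;> simp [kst, fam]
theorem mem_ca (N K i : ℕ) (c : Bool) : EQ.ca c i ∈ kst N K ↔ i ≤ N := by
  cases c <;> simp [kst, fam]

theorem fam_finite (g : Bool → ℕ → EQ) (n : ℕ) : (fam g n).Finite :=
  (Set.finite_univ.prod (Set.finite_Iic n)).image _

theorem fam_ncard (g : Bool → ℕ → EQ) (n : ℕ) : (fam g n).ncard ≤ 2 * (n + 1) := by
  have c2 : (Set.Iic n).ncard = n + 1 := by simp [Set.ncard_eq_toFinset_card']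
  have c3 : ((Set.univ : Set Bool) ×ˢ Set.Iic n).ncard = 2 * (n + 1) := by
    rw [Set.ncard_prod, c2]
    congr 1
    simp
  exact (Set.ncard_image_le (Set.finite_univ.prod (Set.finite_Iic n))).trans c3.le

theorem im_ncard (g : ℕ → EQ) (n : ℕ) : (g '' Set.Iic n).ncard ≤ n + 1 := by
  have c2 : (Set.Iic n).ncard = n + 1 := by simp [Set.ncard_eq_toFinset_card']
  exact (Set.ncard_image_le (Set.finite_Iic n)).trans c2.le

theorem kst_finite (N K : ℕ) : (kst N K).Finite := by
  have hi : ∀ (g : ℕ → EQ) (n : ℕ), (g '' Set.Iic n).Finite :=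
    fun g n => (Set.finite_Iic n).image g
  unfold kst
  exact ((((Set.toFinite _).union (hi _ _)).union ((hi _ _).union (hi _ _))).union
    (((hi _ _).union (hi _ _)).union ((hi _ _).union (fam_finite _ _)))).union
    (((fam_finite _ _).union (fam_finite _ _)).union ((fam_finite _ _).union (fam_finite _ _)))

theorem kst_ncard (N K : ℕ) : (kst N K).ncard ≤ 4 + 2 * (K + 1) + 14 * (N + 1) := by
  have i0 : ({.scan, .mid, .fr, .fin} : Set EQ).ncard ≤ 4 := by
    have e1 := Set.ncard_insert_le EQ.scan ({.mid, .fr, .fin} : Set EQ)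
    have e2 := Set.ncard_insert_le EQ.mid ({.fr, .fin} : Set EQ)
    have e3 := Set.ncard_insert_le EQ.fr ({.fin} : Set EQ)
    rw [Set.ncard_singleton] at e3
    omega
  have u1 := Set.ncard_union_le (((({.scan, .mid, .fr, .fin} : Set EQ) ∪ EQ.ra '' Set.Iic N) ∪
    (EQ.lc '' Set.Iic K ∪ EQ.rc '' Set.Iic K)) ∪
    ((EQ.rt '' Set.Iic N ∪ EQ.rh '' Set.Iic N) ∪ (EQ.bk '' Set.Iic N ∪ fam EQ.cb N)))
    ((fam EQ.gl N ∪ fam EQ.lf N) ∪ (fam EQ.se N ∪ fam EQ.ca N))
  have u2 := Set.ncard_union_le ((({.scan, .mid, .fr, .fin} : Set EQ) ∪ EQ.ra '' Set.Iic N) ∪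
    (EQ.lc '' Set.Iic K ∪ EQ.rc '' Set.Iic K))
    ((EQ.rt '' Set.Iic N ∪ EQ.rh '' Set.Iic N) ∪ (EQ.bk '' Set.Iic N ∪ fam EQ.cb N))
  have u3 := Set.ncard_union_le (({.scan, .mid, .fr, .fin} : Set EQ) ∪ EQ.ra '' Set.Iic N)
    (EQ.lc '' Set.Iic K ∪ EQ.rc '' Set.Iic K)
  have u4 := Set.ncard_union_le ({.scan, .mid, .fr, .fin} : Set EQ) (EQ.ra '' Set.Iic N)
  have u5 := Set.ncard_union_le (EQ.lc '' Set.Iic K) (EQ.rc '' Set.Iic K)
  have u6 := Set.ncard_union_le (EQ.rt '' Set.Iic N ∪ EQ.rh '' Set.Iic N)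
    (EQ.bk '' Set.Iic N ∪ fam EQ.cb N)
  have u7 := Set.ncard_union_le (EQ.rt '' Set.Iic N) (EQ.rh '' Set.Iic N)
  have u8 := Set.ncard_union_le (EQ.bk '' Set.Iic N) (fam EQ.cb N)
  have u9 := Set.ncard_union_le (fam EQ.gl N ∪ fam EQ.lf N) (fam EQ.se N ∪ fam EQ.ca N)
  have u10 := Set.ncard_union_le (fam EQ.gl N) (fam EQ.lf N)
  have u11 := Set.ncard_union_le (fam EQ.se N) (fam EQ.ca N)
  have f1 := im_ncard EQ.ra N
  have f2 := im_ncard EQ.lc K
  have f3 := im_ncard EQ.rc K
  have f4 := im_ncard EQ.rt N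
  have f5 := im_ncard EQ.rh N
  have f6 := im_ncard EQ.bk N
  have f7 := fam_ncard EQ.cb N
  have f8 := fam_ncard EQ.gl N
  have f9 := fam_ncard EQ.lf N
  have f10 := fam_ncard EQ.se N
  have f11 := fam_ncard EQ.ca N
  unfold kst
  omega

theorem kst_closed (N K : ℕ) (hN : 1 ≤ N) (hK : 1 ≤ K) : ∀ q ∈ kst N K, ∀ s,
    ∀ x ∈ (em N K).δ q s, x.1 ∈ kst N K := by
  intro q hq s x hx
  have hx' : etr1 N K q s = some x ∨ etr2 q s = some x := hx
  clear hx
  rcases q with _ | _ | _ | _ | j | (_ | _ | j) | i | ⟨e, i⟩ | ⟨e, i⟩ | ⟨e, i⟩ | ⟨e, (_ | i)⟩ |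
      ⟨e, j⟩ | j | j | (_ | j) <;>
    rcases s with (_ | _ | _ | _ | _ | _ | _) | (_ | _) | _ | _ <;>
    simp only [etr1, etr2, EA.blk, EA.row, mem_lc, mem_rc, mem_ra, mem_rt, mem_rh, mem_bk, mem_cb,
      mem_gl, mem_lf, mem_se, mem_ca, reduceCtorEq, or_false, or_self, Option.some.injEq,
      if_true, if_false] at hx' hq <;>
    (try split_ifs at hx') <;>
    (try simp only [Option.some.injEq, false_or, reduceCtorEq] at hx') <;>
    (try (rcases hx' with hx' | hx')) <;>
    (try subst hx') <;>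
    (try simp only [mem_scan, mem_mid, mem_fr, mem_fin, mem_lc, mem_rc, mem_ra, mem_rt, mem_rh,
      mem_bk, mem_cb, mem_gl, mem_lf, mem_se, mem_ca]) <;>
    (try omega)

end WitAAux

open WitAAux in
theorem eexists_small (N K : ℕ) (hN : 1 ≤ N) (hK : 1 ≤ K) :
    ∃ M : LA EA, (∀ cv, M.toMach.lang cv = (em N K).lang cv) ∧
      M.toMach.size ≤ 4000 * (N + K) ∧
      ∀ (cv : Bool) (k : ℕ), FewWrites (em N K) cv k → FewWrites M.toMach cv k := by
  have hI : (em N K).qI ∈ kst N K := mem_scan N K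
  let M' : Mach EA := (em N K).restrict (kst N K) hI
  have fQ : Finite M'.Q := (kst_finite N K).to_subtype
  let eW : EW ≃ Bool :=
    { toFun := fun a => match a with
        | .ms => false
        | .mr => true
      invFun := fun a => match a with
        | false => .ms
        | true => .mr
      left_inv := fun a => by rcases a with _ | _ <;> rfl
      right_inv := fun a => by rcases a with _ | _ <;> rfl }
  have fW0 : Finite EW := Finite.of_equiv _ eW.symm
  have fW : Finite M'.W := fW0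
  refine ⟨⟨M', fQ, fW⟩, ?_, ?_, ?_⟩
  · intro cv
    exact Mach.restrict_lang _ cv _ hI (kst_closed N K hN hK)
  · show M'.size ≤ _
    let eA : EA ≃ (Bool × Bool) ⊕ (Bool × Bool) :=
      { toFun := fun v => match v with
          | .s => .inl (false, false)
          | .c => .inl (false, true)
          | .a => .inl (true, false)
          | .b => .inl (true, true)
          | .d β => .inr (true, β)
          | .h => .inr (false, false)
          | .r => .inr (false, true)
        invFun := fun a => match a with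
          | .inl (false, false) => .s
          | .inl (false, true) => .c
          | .inl (true, false) => .a
          | .inl (true, true) => .b
          | .inr (true, β) => .d β
          | .inr (false, false) => .h
          | .inr (false, true) => .r
        left_inv := fun v => by rcases v with _ | _ | _ | _ | β | _ | _ <;> rfl
        right_inv := fun a => by rcases a with ⟨_ | _, _ | _⟩ | ⟨_ | _, _ | _⟩ <;> rfl }
    have fA : Finite EA := Finite.of_equiv _ eA.symm
    have hA : Nat.card EA = 8 := by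
      rw [Nat.card_congr eA]
      simp
    have hW : Nat.card EW = 2 := by
      rw [Nat.card_congr eW]
      simp
    have hS : Nat.card (Sym EA M'.W) = 12 := by
      have : Nat.card (Sym EA EW) = 12 := by
        rw [card_sym, hA, hW]
      exact this
    have hQ : Nat.card M'.Q = (kst N K).ncard := rfl
    have hF : M'.F.ncard ≤ Nat.card M'.Q := Set.ncard_le_card M'.F
    have fS : Finite (Sym EA M'.W) := by
      apply Nat.finite_of_card_ne_zero
      rw [hS]
      norm_num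
    have hT : Nat.card {t : (M'.Q × Sym EA M'.W) ×
        (M'.Q × (EA ⊕ M'.W) × Bool) // t.2 ∈ M'.δ t.1.1 t.1.2} ≤
        Nat.card ((M'.Q × Sym EA M'.W) × Bool) := by
      refine Nat.card_le_card_of_injective
        (fun u => (u.1.1, decide (etr1 N K u.1.1.1.1 u.1.1.2 = some (u.1.2.1.1, u.1.2.2)))) ?_
      rintro ⟨⟨⟨q, s⟩, ⟨r, y⟩⟩, h⟩ ⟨⟨⟨q', s'⟩, ⟨r', y'⟩⟩, h'⟩ heq
      simp only [Prod.mk.injEq] at heq
      obtain ⟨⟨rfl, rfl⟩, hd⟩ := heq
      have h1 : etr1 N K q.1 s = some (r.1, y) ∨ etr2 q.1 s = some (r.1, y) := h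
      have h2 : etr1 N K q.1 s = some (r'.1, y') ∨ etr2 q.1 s = some (r'.1, y') := h'
      have h3 : (etr1 N K q.1 s = some (r.1, y)) ↔ (etr1 N K q.1 s = some (r'.1, y')) := by
        simpa using hd
      have h4 : (r.1, y) = (r'.1, y') := by
        by_cases hc : etr1 N K q.1 s = some (r.1, y)
        · have := h3.1 hc
          rw [hc] at this
          exact Option.some.inj this
        · have hc' : ¬ etr1 N K q.1 s = some (r'.1, y') := fun h => hc (h3.2 h)
          have a1 := h1.resolve_left hc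
          have a2 := h2.resolve_left hc'
          rw [a1] at a2
          exact Option.some.inj a2
      have h5 : r = r' := Subtype.ext (congrArg Prod.fst h4)
      have h6 : y = y' := congrArg Prod.snd h4
      subst h5 h6
      rfl
    rw [Nat.card_prod, Nat.card_prod, hS] at hT
    have hB : Nat.card Bool = 2 := by simp
    rw [hB] at hT
    have hK' := kst_ncard N K
    unfold Mach.size
    rw [hA, hS]
    rw [hQ] at hT hF ⊢
    omega
  · intro cv k hk
    exact few_restrict (em N K) cv k (kst N K) hI hk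

end Pool.Agent.P0036f5e
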