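import Pool.Agent.Lib.P0036f5e.EDefs

/-!
# E4: correct test words are accepted (the proof below is formalized)

The input is `w = eX k' L s t Fs ++ eY k' L s t G`, `F = Fs[l0]` agrees with `G`.  The computation: `scan` to
the block of `F`, mark `s`, `mid` to `h`, `fr` marks the first `r`.  For every row `q` (after its `r` has been
marked, `q + 1 ≤ k' ≤ K` rows are marked): `lc 1` goes left, passes the `q` older marked rows, reaches `h` in
the state `lc (q + 1)`; `rc (q + 1)` goes right, passes `q` marked rows, and at the last one gets `ra 0`.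
For every segment `l < L` of the row `q`: `ra` counts `s q l` letters `a` (`≤ N`), `d (G q l)`: `gl β i` with
`i = s q l`, `β = G q l` goes left to `h`, `lf` to the marked `s`, `se` right to the entry `(q, l)` of the marked
block, `ca`, `cb` read it (`F q l = G q l`), `rt j`, `rh j` with `j = t q l` go right to the `d` cell of the segment
`(q, l)`, `bk j` counts the `t q l` letters `b` down to `bk 0` at the next cell: letter `a` of the next segment
(`ra 1`), or the unmarked `r` of the next row (marked, `lc 1`), or the right end-marker (accept).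
All cells visited before keep their symbols; the tape after the mark of the row `q` is the input with
the marked `s` and the marked `r` of the rows `0, …, q`.  Compare `P0036f5b/WitB2.lean` (helper30) and
`P0036f5k/WitB2.lean` (helper6).  For the first visits: a step that writes the symbol it reads is
possible under both conventions, whether the cell has been seen or not; the cells that get marked have
not been seen before (`s` in `scan`; `r` of a new row: all earlier positions of the head were left of
it).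
-/

set_option autoImplicit false

namespace Pool.Agent.P0036f5e

open Relation Pool.Agent.P0036f5v2 Pool.Agent.P0036f5w Pool.Agent.P0036f5g Pool.Agent.P0036f5k
  Classical

namespace WitB2Aux

/-- the tape with the marked separator at `A` and the marked rows `0, …, m - 1` -/
noncomputable def TE (A : ℕ) (ρ : ℕ → ℕ) (τ : ℕ → Sym EA EW) (m p : ℕ) : Sym EA EW :=
  if p = A then .wrk .ms else if ∃ q, q < m ∧ p = ρ q then .wrk .mr else τ p

/-- data of a correct test word -/
structure Dat (k' L N K : ℕ) (s t : ℕ → ℕ → ℕ) (F G : ℕ → ℕ → Bool) (w : List EA)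
    (τ : ℕ → Sym EA EW) (A H : ℕ) (ρ : ℕ → ℕ) (σ : ℕ → ℕ → ℕ) : Prop where
  L1 : 1 ≤ L
  k1 : 1 ≤ k'
  kK : k' ≤ K
  ini : (em N K).initTape w = τ
  hA : 1 ≤ A
  hAH : A < H
  s1 : ∀ q < k', ∀ l < L, 1 ≤ s q l ∧ s q l ≤ N
  t1 : ∀ q < k', ∀ l < L, 1 ≤ t q l ∧ t q l ≤ N
  r0 : ρ 0 = H + 1
  rl : ∀ q < k', ρ q < ρ (q + 1)
  g0 : ∀ q < k', σ q 0 = ρ q + 1
  gs : ∀ q < k', ∀ l < L, σ q (l + 1) = σ q l + s q l + t q l + 1
  rs : ∀ q < k', σ q L = ρ (q + 1)
  len : ρ k' = w.length + 1
  fl : ∀ p, 1 ≤ p → p < H → ∃ x, τ p = .inp x ∧ x.blk = true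
  fA : τ A = .inp .s
  fH : τ H = .inp .h
  fr : ∀ q < k', τ (ρ q) = .inp .r
  fi : ∀ q < k', ∀ p, ρ q < p → p < ρ (q + 1) → ∃ x, τ p = .inp x ∧ x.row = true
  fa : ∀ q < k', ∀ l < L, ∀ u < s q l, τ (σ q l + u) = .inp .a
  fd : ∀ q < k', ∀ l < L, τ (σ q l + s q l) = .inp (.d (G q l))
  fb : ∀ q < k', ∀ l < L, ∀ u < t q l, τ (σ q l + s q l + 1 + u) = .inp .b
  fe : τ (w.length + 1) = .rend
  ent : ∀ q < k', ∀ l < L, ∃ e, A < e ∧ e + s q l + t q l + 1 < H ∧
    (∀ p, A < p → p < e → ∃ x, τ p = .inp x ∧ (x = .c ∨ x.row = true)) ∧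
    τ e = .inp .c ∧ (∀ u < s q l, τ (e + 1 + u) = .inp .a) ∧
    (∀ u < t q l, τ (e + 1 + s q l + u) = .inp .b) ∧
    τ (e + 1 + s q l + t q l) = .inp (.d (F q l))
  eq : ∀ q < k', ∀ l < L, F q l = G q l

/-- reachable with `m` marked rows -/
def R (N K : ℕ) (cv : Bool) (w : List EA) (τ : ℕ → Sym EA EW) (A : ℕ) (ρ : ℕ → ℕ) (m : ℕ)
    (q : EQ) (p : ℕ) : Prop :=
  ∃ sn : Set ℕ, ReflTransGen ((em N K).Step cv w.length) ((em N K).init w)
    ⟨q, p, TE A ρ τ m, sn⟩ ∧ ∀ i ∈ sn, i < ρ m

variable {k' L N K : ℕ} {s t : ℕ → ℕ → ℕ} {F G : ℕ → ℕ → Bool} {w : List EA}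
  {τ : ℕ → Sym EA EW} {A H : ℕ} {ρ : ℕ → ℕ} {σ : ℕ → ℕ → ℕ} {cv : Bool}

theorem Dat.mono (D : Dat k' L N K s t F G w τ A H ρ σ) : ∀ q', q' ≤ k' → ∀ q, q < q' →
    ρ q < ρ q' := by
  intro q'
  induction q' with
  | zero => intro _ q hq; omega
  | succ q' ih =>
    intro h q hq
    have h1 := D.rl q' (by omega)
    rcases Nat.lt_or_ge q q' with h2 | h2
    · have := ih (by omega) q h2
      omega
    · have h3 : q = q' := by omega
      subst h3
      exact h1

theorem Dat.mono' (D : Dat k' L N K s t F G w τ A H ρ σ) {q q' : ℕ} (h1 : q ≤ q')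
    (h2 : q' ≤ k') : ρ q ≤ ρ q' := by
  rcases Nat.eq_or_lt_of_le h1 with h | h
  · rw [h]
  · exact (D.mono q' h2 q h).le

theorem Dat.low (D : Dat k' L N K s t F G w τ A H ρ σ) {q : ℕ} (h : q ≤ k') : H < ρ q := by
  have := D.mono' (Nat.zero_le q) h
  have := D.r0
  omega

theorem te_A (m : ℕ) : TE A ρ τ m A = .wrk .ms := by
  unfold TE
  rw [if_pos rfl]

theorem Dat.te_low (D : Dat k' L N K s t F G w τ A H ρ σ) {m p : ℕ} (hm : m ≤ k')
    (hp : p ≠ A) (hH : p ≤ H) : TE A ρ τ m p = τ p := by
  unfold TE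
  rw [if_neg hp, if_neg]
  rintro ⟨q, h1, h2⟩
  have := D.low (q := q) (by omega)
  omega

theorem Dat.te_mr (D : Dat k' L N K s t F G w τ A H ρ σ) {m q : ℕ} (hm : m ≤ k')
    (hq : q < m) : TE A ρ τ m (ρ q) = .wrk .mr := by
  have := D.low (q := q) (by omega)
  have := D.hAH
  unfold TE
  rw [if_neg (by omega), if_pos ⟨q, hq, rfl⟩]

theorem Dat.te_row (D : Dat k' L N K s t F G w τ A H ρ σ) {m q p : ℕ} (hm : m ≤ k')
    (hq : q < k') (h1 : ρ q < p) (h2 : p < ρ (q + 1)) : TE A ρ τ m p = τ p := by
  have := D.low (q := q) (by omega)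
  have := D.hAH
  unfold TE
  rw [if_neg (by omega), if_neg]
  rintro ⟨q', h3, h4⟩
  rcases Nat.lt_or_ge q q' with h5 | h5
  · have := D.mono' (q := q + 1) (q' := q') (by omega) (by omega)
    omega
  · have := D.mono' (q := q') (q' := q) h5 (by omega)
    omega

theorem Dat.te_new (D : Dat k' L N K s t F G w τ A H ρ σ) {m : ℕ} (hm : m ≤ k') :
    TE A ρ τ m (ρ m) = τ (ρ m) := by
  have := D.low hm
  have := D.hAH
  unfold TE
  rw [if_neg (by omega), if_neg]
  rintro ⟨q', h3, h4⟩
  have := D.mono m hm q' h3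
  omega

theorem Dat.te_update (D : Dat k' L N K s t F G w τ A H ρ σ) {m : ℕ} (hm : m < k') :
    Function.update (TE A ρ τ m) (ρ m) (.wrk .mr) = TE A ρ τ (m + 1) := by
  have hl := D.low hm.le
  have hAH := D.hAH
  funext p
  by_cases hp : p = ρ m
  · rw [hp, Function.update_self, D.te_mr (by omega) (by omega)]
  · rw [Function.update_of_ne hp]
    unfold TE
    by_cases hA : p = A
    · rw [if_pos hA, if_pos hA]
    · rw [if_neg hA, if_neg hA]
      by_cases h1 : ∃ q, q < m ∧ p = ρ q
      · rw [if_pos h1, if_pos]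
        obtain ⟨q, h2, h3⟩ := h1
        exact ⟨q, by omega, h3⟩
      · rw [if_neg h1, if_neg]
        rintro ⟨q, h2, h3⟩
        rcases Nat.lt_or_ge q m with h4 | h4
        · exact h1 ⟨q, h4, h3⟩
        · have : q = m := by omega
          subst this
          exact hp h3

theorem Dat.find (D : Dat k' L N K s t F G w τ A H ρ σ) : ∀ m, m ≤ k' → ∀ p, H < p →
    p < ρ m → ∃ q, q < m ∧ ρ q ≤ p ∧ p < ρ (q + 1) := by
  intro m
  induction m with
  | zero => intro _ p h1 h2; have := D.r0; omega
  | succ m ih =>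
    intro hm p h1 h2
    rcases Nat.lt_or_ge p (ρ m) with h3 | h3
    · obtain ⟨q, h4, h5⟩ := ih (by omega) p h1 h3
      exact ⟨q, by omega, h5⟩
    · exact ⟨m, by omega, h3, h2⟩

/-- the cells of the marked rows -/
theorem Dat.cell (D : Dat k' L N K s t F G w τ A H ρ σ) {m p : ℕ} (hm : m ≤ k') (h1 : H < p)
    (h2 : p < ρ m) : (∃ x, TE A ρ τ m p = .inp x ∧ x.row = true) ∨
      TE A ρ τ m p = .wrk .mr := by
  obtain ⟨q, h3, h4, h5⟩ := D.find m hm p h1 h2
  rcases Nat.eq_or_lt_of_le h4 with h6 | h6
  · right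
    rw [← h6]
    exact D.te_mr hm h3
  · left
    rw [D.te_row hm (by omega) h6 h5]
    exact D.fi q (by omega) p h6 h5

theorem R.step (D : Dat k' L N K s t F G w τ A H ρ σ) {m : ℕ} {q q' : EQ} {p p' : ℕ}
    {x : EA ⊕ EW} {d : Bool} (h : R N K cv w τ A ρ m q p) (hm : m ≤ k') (hp : 1 ≤ p)
    (hp1 : p < ρ m) (hx : Sym.ofW x = TE A ρ τ m p)
    (hp2 : p' = if d = true then p + 1 else p - 1)
    (ht : etr1 N K q (TE A ρ τ m p) = some (q', x, d) ∨
      etr2 q (TE A ρ τ m p) = some (q', x, d)) : R N K cv w τ A ρ m q' p' := by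
  obtain ⟨sn, hr, hs⟩ := h
  have hlen := D.len
  have hmk := D.mono' hm le_rfl
  refine ⟨insert p sn, hr.tail ⟨by simp only; omega, x, d, ht,
    fun h0 => by simp only at h0; omega, hp2, ?_, ?_, rfl⟩, ?_⟩
  · intro _
    simp only
    rw [hx, Function.update_eq_self]
  · intro _
    exact ⟨rfl, fun _ _ _ => hx⟩
  · rintro i (hi | hi)
    · omega
    · exact hs i hi

theorem R.mark (D : Dat k' L N K s t F G w τ A H ρ σ) {m : ℕ} {q q' : EQ}
    (h : R N K cv w τ A ρ m q (ρ m)) (hm : m < k')
    (ht : etr1 N K q (.inp .r) = some (q', .inr .mr, false)) :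
    R N K cv w τ A ρ (m + 1) q' (ρ m - 1) := by
  obtain ⟨sn, hr, hs⟩ := h
  have hlen := D.len
  have hlt := D.rl m hm
  have hmk := D.mono' (q := m + 1) (q' := k') (by omega) le_rfl
  have hlow := D.low hm.le
  have e : TE A ρ τ m (ρ m) = .inp .r := by rw [D.te_new hm.le, D.fr m hm]
  have hns : ρ m ∉ sn := fun hc => by have := hs _ hc; omega
  refine ⟨insert (ρ m) sn, hr.tail ⟨by simp only; omega, .inr .mr, false,
    Or.inl (by simp only; rw [e]; exact ht), fun h0 => by simp only at h0; omega,
    by simp, ?_, ?_, rfl⟩, ?_⟩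
  · intro _
    simp only
    exact (D.te_update hm).symm
  · intro hc
    exact absurd ⟨by simp only; omega, by simp only; omega, hns⟩ hc
  · rintro i (hi | hi)
    · omega
    · have := hs i hi; omega

/-- a step to the right on a letter -/
theorem R.right (D : Dat k' L N K s t F G w τ A H ρ σ) {m : ℕ} {q q' : EQ} {p : ℕ} {y : EA}
    (h : R N K cv w τ A ρ m q p) (hm : m ≤ k') (hp : 1 ≤ p) (hp1 : p < ρ m)
    (hy : TE A ρ τ m p = .inp y)
    (ht : etr1 N K q (.inp y) = some (q', .inl y, true) ∨
      etr2 q (.inp y) = some (q', .inl y, true)) : R N K cv w τ A ρ m q' (p + 1) := by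
  refine R.step D (x := .inl y) (d := true) h hm hp hp1 (by rw [hy]; rfl)
    (by rw [if_pos rfl]) ?_
  rw [hy]
  exact ht

/-- a step to the left on a letter -/
theorem R.left (D : Dat k' L N K s t F G w τ A H ρ σ) {m : ℕ} {q q' : EQ} {p : ℕ} {y : EA}
    (h : R N K cv w τ A ρ m q (p + 1)) (hm : m ≤ k') (hp1 : p + 1 < ρ m)
    (hy : TE A ρ τ m (p + 1) = .inp y)
    (ht : etr1 N K q (.inp y) = some (q', .inl y, false)) : R N K cv w τ A ρ m q' p := by
  refine R.step D (x := .inl y) (d := false) h hm (by omega) hp1 (by rw [hy]; rfl)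
    (by simp) ?_
  rw [hy]
  exact Or.inl ht

/-- a step to the right on a mark -/
theorem R.wright (D : Dat k' L N K s t F G w τ A H ρ σ) {m : ℕ} {q q' : EQ} {p : ℕ} {v : EW}
    (h : R N K cv w τ A ρ m q p) (hm : m ≤ k') (hp : 1 ≤ p) (hp1 : p < ρ m)
    (hy : TE A ρ τ m p = .wrk v)
    (ht : etr1 N K q (.wrk v) = some (q', .inr v, true)) : R N K cv w τ A ρ m q' (p + 1) := by
  refine R.step D (x := .inr v) (d := true) h hm hp hp1 (by rw [hy]; rfl)
    (by rw [if_pos rfl]) ?_
  rw [hy]
  exact Or.inl ht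

/-- a step to the left on a mark -/
theorem R.wleft (D : Dat k' L N K s t F G w τ A H ρ σ) {m : ℕ} {q q' : EQ} {p : ℕ} {v : EW}
    (h : R N K cv w τ A ρ m q (p + 1)) (hm : m ≤ k') (hp1 : p + 1 < ρ m)
    (hy : TE A ρ τ m (p + 1) = .wrk v)
    (ht : etr1 N K q (.wrk v) = some (q', .inr v, false)) : R N K cv w τ A ρ m q' p := by
  refine R.step D (x := .inr v) (d := false) h hm (by omega) hp1 (by rw [hy]; rfl)
    (by simp) ?_
  rw [hy]
  exact Or.inl ht

/-- counting the marked rows on the way to `h` -/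
theorem lc_walk (D : Dat k' L N K s t F G w τ A H ρ σ) {q : ℕ} (hq : q < k')
    (h : R N K cv w τ A ρ (q + 1) (.lc 1) (ρ q - 1)) : ∀ u j, u + j = q →
      R N K cv w τ A ρ (q + 1) (.lc (u + 1)) (ρ j - 1) := by
  have hkK := D.kK
  intro u
  induction u with
  | zero =>
    intro j hj
    have : j = q := by omega
    subst this
    exact h
  | succ u ih =>
    intro j hj
    have h1 := ih (j + 1) (by omega)
    have hjl := D.rl j (by omega)
    have hlow := D.low (q := j) (by omega)
    have hup := D.mono' (q := j + 1) (q' := q) (by omega) (by omega)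
    have hup' := D.rl q hq
    have key : ∀ v, ρ j + v + 1 ≤ ρ (j + 1) →
        R N K cv w τ A ρ (q + 1) (.lc (u + 1)) (ρ (j + 1) - 1 - v) := by
      intro v
      induction v with
      | zero => intro _; exact h1
      | succ v ihv =>
        intro hv
        have h2 := ihv (by omega)
        have e : ρ (j + 1) - 1 - v = (ρ (j + 1) - 1 - (v + 1)) + 1 := by omega
        rw [e] at h2
        obtain ⟨x, hx, hrow⟩ := D.fi j (by omega) (ρ (j + 1) - 1 - (v + 1) + 1) (by omega)
          (by omega)
        refine h2.left D (by omega) (by omega) (y := x) ?_ ?_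
        · rw [D.te_row (q := j) (by omega) (by omega) (by omega) (by omega)]
          exact hx
        · simp only [etr1]
          rw [if_pos hrow]
    have h3 := key (ρ (j + 1) - 1 - ρ j) (by omega)
    have e : ρ (j + 1) - 1 - (ρ (j + 1) - 1 - ρ j) = (ρ j - 1) + 1 := by omega
    rw [e] at h3
    refine h3.wleft D (by omega) (by omega) (v := .mr) ?_ ?_
    · have e2 : ρ j - 1 + 1 = ρ j := by omega
      rw [e2]
      exact D.te_mr (by omega) (by omega)
    · simp only [etr1]
      rw [if_pos (by omega)]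

/-- walking to the right over a row -/
theorem row_walk (D : Dat k' L N K s t F G w τ A H ρ σ) {q j p : ℕ} (hq : q < k') (hj : j ≤ q)
    {S : EQ} (hS : ∀ x : EA, x.row = true → etr1 N K S (.inp x) = some (S, .inl x, true))
    (hp : ρ j < p) (hp' : p ≤ ρ (j + 1)) (h : R N K cv w τ A ρ (q + 1) S p) :
    R N K cv w τ A ρ (q + 1) S (ρ (j + 1)) := by
  have hlow := D.low (q := j) (by omega)
  have hup := D.mono' (q := j + 1) (q' := q + 1) (by omega) (by omega)
  have key : ∀ v, p + v ≤ ρ (j + 1) → R N K cv w τ A ρ (q + 1) S (p + v) := by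
    intro v
    induction v with
    | zero => intro _; exact h
    | succ v ihv =>
      intro hv
      obtain ⟨x, hx, hrow⟩ := D.fi j (by omega) (p + v) (by omega) (by omega)
      refine (ihv (by omega)).right D (p := p + v) (by omega) (by omega) (by omega) (y := x) ?_
        (Or.inl (hS x hrow))
      rw [D.te_row (q := j) (by omega) (by omega) (by omega) (by omega)]
      exact hx
  have h1 := key (ρ (j + 1) - p) (by omega)
  have e : p + (ρ (j + 1) - p) = ρ (j + 1) := by omega
  rwa [e] at h1

/-- back to the last marked row -/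
theorem rc_walk (D : Dat k' L N K s t F G w τ A H ρ σ) {q : ℕ} (hq : q < k')
    (h : R N K cv w τ A ρ (q + 1) (.rc (q + 1)) (ρ 0)) : ∀ j u, u + j = q →
      R N K cv w τ A ρ (q + 1) (.rc (u + 1)) (ρ j) := by
  intro j
  induction j with
  | zero =>
    intro u hu
    have : u = q := by omega
    subst this
    exact h
  | succ j ih =>
    intro u hu
    have h1 := ih (u + 1) (by omega)
    have hlow := D.low (q := j) (by omega)
    have hup := D.mono (q + 1) (by omega) j (by omega)
    have hjl := D.rl j (by omega)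
    have h2 : R N K cv w τ A ρ (q + 1) (.rc (u + 1)) (ρ j + 1) := by
      refine h1.wright D (by omega) (by omega) hup (v := .mr) ?_ rfl
      exact D.te_mr (by omega) (by omega)
    refine row_walk D hq (j := j) (by omega) ?_ (by omega) (by omega) h2
    intro x hx
    simp only [etr1]
    rw [if_pos hx]

/-- from the new mark to the start of the row -/
theorem to_row (D : Dat k' L N K s t F G w τ A H ρ σ) {q : ℕ} (hq : q < k')
    (h : R N K cv w τ A ρ (q + 1) (.lc 1) (ρ q - 1)) :
    R N K cv w τ A ρ (q + 1) (.ra 0) (σ q 0) := by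
  have hA := D.hA
  have hAH := D.hAH
  have h0 := D.r0
  have hlow := D.low (q := q + 1) (by omega)
  have h1 := lc_walk D hq h q 0 (by omega)
  have e : ρ 0 - 1 = H := by omega
  rw [e] at h1
  have h2 : R N K cv w τ A ρ (q + 1) (.rc (q + 1)) (H + 1) := by
    refine h1.right D (by omega) (by omega) hlow (y := .h) ?_ (Or.inl ?_)
    · rw [D.te_low (by omega) (by omega) le_rfl]
      exact D.fH
    · simp [etr1, EA.row]
  rw [← h0] at h2
  have h3 := rc_walk D hq h2 q 0 (by omega)
  have hl := D.rl q hq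
  have hlow' := D.low (q := q) (by omega)
  have h4 : R N K cv w τ A ρ (q + 1) (.ra 0) (ρ q + 1) := by
    refine h3.wright D (by omega) (by omega) hl (v := .mr) ?_ rfl
    exact D.te_mr (by omega) (by omega)
  rwa [← D.g0 q hq] at h4

/-- positions in a row -/
theorem Dat.gle (D : Dat k' L N K s t F G w τ A H ρ σ) {q : ℕ} (hq : q < k') : ∀ l, l ≤ L →
    ρ q < σ q l ∧ σ q l ≤ ρ (q + 1) := by
  have up : ∀ u l, u + l = L → σ q l ≤ ρ (q + 1) := by
    intro u
    induction u with
    | zero =>
      intro l hl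
      have : l = L := by omega
      subst this
      rw [D.rs q hq]
    | succ u ih =>
      intro l hl
      have h1 := ih (l + 1) (by omega)
      have h2 := D.gs q hq l (by omega)
      omega
  intro l hl
  refine ⟨?_, up (L - l) l (by omega)⟩
  induction l with
  | zero => rw [D.g0 q hq]; omega
  | succ l ih =>
    have h1 := ih (by omega)
    have h2 := D.gs q hq l (by omega)
    omega

/-- one segment -/
theorem seg (D : Dat k' L N K s t F G w τ A H ρ σ) {q l : ℕ} (hq : q < k') (hl : l < L)
    (h : R N K cv w τ A ρ (q + 1) (.ra 1) (σ q l + 1)) :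
    R N K cv w τ A ρ (q + 1) (.bk 0) (σ q (l + 1)) := by
  have hA := D.hA
  have hAH := D.hAH
  obtain ⟨hs1, hs2⟩ := D.s1 q hq l hl
  obtain ⟨ht1, ht2⟩ := D.t1 q hq l hl
  have hgs := D.gs q hq l hl
  obtain ⟨hg1, -⟩ := D.gle hq l (by omega)
  obtain ⟨-, hg2⟩ := D.gle hq (l + 1) (by omega)
  have hlow := D.low (q := q) (by omega)
  obtain ⟨e, e1, e2, e3, e4, e5, e6, e7⟩ := D.ent q hq l hl
  have hmk : q + 1 ≤ k' := by omega
  have heq := D.eq q hq l hl
  have hfa := D.fa q hq l hl
  have hfd := D.fd q hq l hl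
  have hfb := D.fb q hq l hl
  have tr : ∀ p, ρ q < p → p < ρ (q + 1) → TE A ρ τ (q + 1) p = τ p :=
    fun p a b => D.te_row hmk hq a b
  have tl : ∀ p, A < p → p ≤ H → TE A ρ τ (q + 1) p = τ p :=
    fun p a b => D.te_low hmk (by omega) b
  -- reading the first number
  have h1 : ∀ u, u + 1 ≤ s q l → R N K cv w τ A ρ (q + 1) (.ra (u + 1)) (σ q l + (u + 1)) := by
    intro u
    induction u with
    | zero => intro _; exact h
    | succ u ih =>
      intro hu
      refine (ih (by omega)).right D (p := σ q l + (u + 1)) hmk (by omega) (by omega)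
        (y := .a) ?_ (Or.inl ?_)
      · rw [tr _ (by omega) (by omega)]
        exact hfa (u + 1) (by omega)
      · simp only [etr1]
        rw [if_pos (by omega)]
  have h2 := h1 (s q l - 1) (by omega)
  have e0 : s q l - 1 + 1 = s q l := by omega
  rw [e0] at h2
  -- the bit
  have h3 : R N K cv w τ A ρ (q + 1) (.gl (G q l) (s q l)) (σ q l + s q l - 1) := by
    have e8 : σ q l + s q l = (σ q l + s q l - 1) + 1 := by omega
    rw [e8] at h2
    refine h2.left D hmk (by omega) (y := .d (G q l)) ?_ rfl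
    rw [← e8, tr _ (by omega) (by omega)]
    exact hfd
  -- to `h`
  have h4 : ∀ v, H + v ≤ σ q l + s q l - 1 →
      R N K cv w τ A ρ (q + 1) (.gl (G q l) (s q l)) (σ q l + s q l - 1 - v) := by
    intro v
    induction v with
    | zero => intro _; exact h3
    | succ v ihv =>
      intro hv
      have h5 := ihv (by omega)
      have e8 : σ q l + s q l - 1 - v = (σ q l + s q l - 1 - (v + 1)) + 1 := by omega
      rw [e8] at h5
      rcases D.cell (p := σ q l + s q l - 1 - (v + 1) + 1) hmk (by omega) (by omega) with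
        ⟨x, hx, hrow⟩ | hx
      · refine h5.left D hmk (by omega) hx ?_
        simp only [etr1]
        rw [if_pos hrow]
      · exact h5.wleft D hmk (by omega) hx rfl
  have h5 := h4 (σ q l + s q l - 1 - H) (by omega)
  have e8 : σ q l + s q l - 1 - (σ q l + s q l - 1 - H) = (H - 1) + 1 := by omega
  rw [e8] at h5
  have h6 : R N K cv w τ A ρ (q + 1) (.lf (G q l) (s q l)) (H - 1) := by
    refine h5.left D hmk (by omega) (y := .h) ?_ ?_
    · have e9 : H - 1 + 1 = H := by omega
      rw [e9, tl _ hAH le_rfl]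
      exact D.fH
    · simp [etr1, EA.row]
  -- to the marked block
  have h7 : ∀ v, A + v ≤ H - 1 →
      R N K cv w τ A ρ (q + 1) (.lf (G q l) (s q l)) (H - 1 - v) := by
    intro v
    induction v with
    | zero => intro _; exact h6
    | succ v ihv =>
      intro hv
      have h8 := ihv (by omega)
      have e9 : H - 1 - v = (H - 1 - (v + 1)) + 1 := by omega
      rw [e9] at h8
      obtain ⟨x, hx, hb⟩ := D.fl (H - 1 - (v + 1) + 1) (by omega) (by omega)
      refine h8.left D hmk (by omega) (y := x) ?_ ?_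
      · rw [tl _ (by omega) (by omega)]
        exact hx
      · simp only [etr1]
        rw [if_pos hb]
  have h8 := h7 (H - 1 - A) (by omega)
  have e9 : H - 1 - (H - 1 - A) = A := by omega
  rw [e9] at h8
  have h9 : R N K cv w τ A ρ (q + 1) (.se (G q l) (s q l)) (A + 1) :=
    h8.wright D hmk hA (by omega) (te_A _) rfl
  -- to the entry
  have h10 : ∀ v, A + 1 + v ≤ e →
      R N K cv w τ A ρ (q + 1) (.se (G q l) (s q l)) (A + 1 + v) := by
    intro v
    induction v with
    | zero => intro _; exact h9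
    | succ v ihv =>
      intro hv
      obtain ⟨x, hx, hb⟩ := e3 (A + 1 + v) (by omega) (by omega)
      refine (ihv (by omega)).right D (p := A + 1 + v) hmk (by omega) (by omega) (y := x) ?_ ?_
      · rw [tl _ (by omega) (by omega)]
        exact hx
      · rcases hb with hb | hb
        · subst hb
          exact Or.inr rfl
        · left
          cases x <;> first | rfl | exact absurd hb (by simp [EA.row])
  have h11 := h10 (e - (A + 1)) (by omega)
  have e10 : A + 1 + (e - (A + 1)) = e := by omega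
  rw [e10] at h11
  -- the first number of the entry
  have h12 : ∀ v u, u + v = s q l →
      R N K cv w τ A ρ (q + 1) (.ca (G q l) u) (e + 1 + v) := by
    intro v
    induction v with
    | zero =>
      intro u hu
      have : u = s q l := by omega
      subst this
      refine h11.right D hmk (by omega) (by omega) (y := .c) ?_ (Or.inl rfl)
      rw [tl _ (by omega) (by omega)]
      exact e4
    | succ v ihv =>
      intro u hu
      refine (ihv (u + 1) (by omega)).right D (p := e + 1 + v) hmk (by omega) (by omega)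
        (y := .a) ?_ (Or.inl rfl)
      rw [tl _ (by omega) (by omega)]
      exact e5 v (by omega)
  have h13 := h12 (s q l) 0 (by omega)
  -- the second number
  have h14 : ∀ v, v + 1 ≤ t q l →
      R N K cv w τ A ρ (q + 1) (.cb (G q l) (v + 1)) (e + 1 + s q l + (v + 1)) := by
    intro v
    induction v with
    | zero =>
      intro hv
      refine h13.right D (p := e + 1 + s q l) hmk (by omega) (by omega) (y := .b) ?_
        (Or.inl rfl)
      rw [tl _ (by omega) (by omega)]
      exact e6 0 (by omega)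
    | succ v ihv =>
      intro hv
      refine (ihv (by omega)).right D (p := e + 1 + s q l + (v + 1)) hmk (by omega) (by omega)
        (y := .b) ?_ (Or.inl ?_)
      · rw [tl _ (by omega) (by omega)]
        exact e6 (v + 1) (by omega)
      · simp only [etr1]
        rw [if_pos (by omega)]
  have h15 := h14 (t q l - 1) (by omega)
  have e11 : t q l - 1 + 1 = t q l := by omega
  rw [e11] at h15
  have h16 : R N K cv w τ A ρ (q + 1) (.rt (t q l)) (e + 1 + s q l + t q l + 1) := by
    refine h15.right D (p := e + 1 + s q l + t q l) hmk (by omega) (by omega)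
      (y := .d (F q l)) ?_ (Or.inl ?_)
    · rw [tl _ (by omega) (by omega)]
      exact e7
    · simp only [etr1]
      rw [if_pos heq]
  -- back to `h`
  have h17 : ∀ v, e + 1 + s q l + t q l + 1 + v ≤ H →
      R N K cv w τ A ρ (q + 1) (.rt (t q l)) (e + 1 + s q l + t q l + 1 + v) := by
    intro v
    induction v with
    | zero => intro _; exact h16
    | succ v ihv =>
      intro hv
      obtain ⟨x, hx, hb⟩ := D.fl (e + 1 + s q l + t q l + 1 + v) (by omega) (by omega)
      refine (ihv (by omega)).right D (p := e + 1 + s q l + t q l + 1 + v) hmk (by omega)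
        (by omega) (y := x) ?_ (Or.inl ?_)
      · rw [tl _ (by omega) (by omega)]
        exact hx
      · simp only [etr1]
        rw [if_pos hb]
  have h18 := h17 (H - (e + 1 + s q l + t q l + 1)) (by omega)
  have e12 : e + 1 + s q l + t q l + 1 + (H - (e + 1 + s q l + t q l + 1)) = H := by omega
  rw [e12] at h18
  have h19 : R N K cv w τ A ρ (q + 1) (.rh (t q l)) (H + 1) := by
    refine h18.right D hmk (by omega) (by omega) (y := .h) ?_ (Or.inl ?_)
    · rw [tl _ hAH le_rfl]
      exact D.fH
    · simp [etr1, EA.blk]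
  -- to the segment
  have h20 : ∀ v, H + 1 + v ≤ σ q l + s q l →
      R N K cv w τ A ρ (q + 1) (.rh (t q l)) (H + 1 + v) := by
    intro v
    induction v with
    | zero => intro _; exact h19
    | succ v ihv =>
      intro hv
      have h21 := ihv (by omega)
      rcases D.cell (p := H + 1 + v) hmk (by omega) (by omega) with ⟨x, hx, hrow⟩ | hx
      · refine h21.right D (p := H + 1 + v) hmk (by omega) (by omega) hx (Or.inl ?_)
        simp only [etr1]
        rw [if_pos hrow]
      · exact h21.wright D (p := H + 1 + v) hmk (by omega) (by omega) hx rfl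
  have h21 := h20 (σ q l + s q l - (H + 1)) (by omega)
  have e13 : H + 1 + (σ q l + s q l - (H + 1)) = σ q l + s q l := by omega
  rw [e13] at h21
  -- the second number of the segment
  have h22 : ∀ v u, u + v = t q l →
      R N K cv w τ A ρ (q + 1) (.bk u) (σ q l + s q l + 1 + v) := by
    intro v
    induction v with
    | zero =>
      intro u hu
      have : u = t q l := by omega
      subst this
      refine h21.right D (p := σ q l + s q l) hmk (by omega) (by omega) (y := .d (G q l)) ?_
        (Or.inr rfl)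
      rw [tr _ (by omega) (by omega)]
      exact hfd
    | succ v ihv =>
      intro u hu
      refine (ihv (u + 1) (by omega)).right D (p := σ q l + s q l + 1 + v) hmk (by omega)
        (by omega) (y := .b) ?_ (Or.inl rfl)
      rw [tr _ (by omega) (by omega)]
      exact hfb v (by omega)
  have h23 := h22 (t q l) 0 (by omega)
  have e14 : σ q l + s q l + 1 + t q l = σ q (l + 1) := by omega
  rwa [e14] at h23

/-- one row -/
theorem row (D : Dat k' L N K s t F G w τ A H ρ σ) {q : ℕ} (hq : q < k')
    (h : R N K cv w τ A ρ (q + 1) (.lc 1) (ρ q - 1)) : ∀ l, l < L →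
    R N K cv w τ A ρ (q + 1) (.bk 0) (σ q (l + 1)) := by
  have h0 := to_row D hq h
  have hlow := D.low (q := q) (by omega)
  have key : ∀ l, l < L → ∀ S : EQ, (S = .ra 0 ∨ S = .bk 0) →
      R N K cv w τ A ρ (q + 1) S (σ q l) → R N K cv w τ A ρ (q + 1) (.bk 0) (σ q (l + 1)) := by
    intro l hl S hS h1
    apply seg D hq hl
    obtain ⟨hs1, hs2⟩ := D.s1 q hq l hl
    obtain ⟨hg1, -⟩ := D.gle hq l (by omega)
    obtain ⟨-, hg2⟩ := D.gle hq (l + 1) (by omega)
    have hgs := D.gs q hq l hl
    refine h1.right D (by omega) (by omega) (by omega) (y := .a) ?_ (Or.inl ?_)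
    · rw [D.te_row (by omega) hq hg1 (by omega)]
      exact D.fa q hq l hl 0 (by omega)
    · rcases hS with rfl | rfl
      · simp only [etr1]
        rw [if_pos (by omega)]
      · rfl
  intro l
  induction l with
  | zero => intro hl; exact key 0 hl _ (Or.inl rfl) h0
  | succ l ih => intro hl; exact key (l + 1) hl _ (Or.inr rfl) (ih (by omega))

theorem row' (D : Dat k' L N K s t F G w τ A H ρ σ) {q : ℕ} (hq : q < k')
    (h : R N K cv w τ A ρ (q + 1) (.lc 1) (ρ q - 1)) :
    R N K cv w τ A ρ (q + 1) (.bk 0) (ρ (q + 1)) := by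
  have hL := D.L1
  have h1 := row D hq h (L - 1) (by omega)
  have e : L - 1 + 1 = L := by omega
  rw [e, D.rs q hq] at h1
  exact h1

/-- up to the separator of the block -/
theorem scan (D : Dat k' L N K s t F G w τ A H ρ σ) : ∀ k, k < A → ∃ sn : Set ℕ,
    ReflTransGen ((em N K).Step cv w.length) ((em N K).init w) ⟨.scan, k + 1, τ, sn⟩ ∧
      ∀ j ∈ sn, j < k + 1 := by
  have hAH := D.hAH
  have hlen := D.len
  have hlow := D.low (q := k') le_rfl
  intro k
  induction k with
  | zero =>
    intro _
    refine ⟨∅, ?_, fun j hj => absurd hj (Set.notMem_empty j)⟩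
    have e : (em N K).init w = ⟨.scan, 0 + 1, τ, ∅⟩ := by
      unfold Mach.init
      rw [D.ini]
    rw [e]
  | succ k ih =>
    intro hk
    obtain ⟨sn, hr, hs⟩ := ih (by omega)
    obtain ⟨y, hy, hb⟩ := D.fl (k + 1) (by omega) (by omega)
    refine ⟨insert (k + 1) sn, hr.tail ⟨by simp only; omega, .inl y, true, Or.inl ?_,
      fun _ => rfl, rfl, ?_, ?_, rfl⟩, ?_⟩
    · simp only
      rw [hy]
      simp only [etr1]
      rw [if_pos hb]
    · intro _
      simp only
      have : (Sym.ofW (Sum.inl y) : Sym EA EW) = τ (k + 1) := hy.symm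
      rw [this, Function.update_eq_self]
    · intro _
      exact ⟨rfl, fun _ _ _ => hy.symm⟩
    · rintro j (hj | hj)
      · omega
      · have := hs j hj
        omega

theorem mid0 (D : Dat k' L N K s t F G w τ A H ρ σ) : R N K cv w τ A ρ 0 .mid (A + 1) := by
  have hA := D.hA
  have hAH := D.hAH
  have hlen := D.len
  have hlow := D.low (q := k') le_rfl
  have h0 := D.r0
  obtain ⟨sn, hr, hs⟩ := scan (cv := cv) D (A - 1) (by omega)
  have e : A - 1 + 1 = A := by omega
  rw [e] at hr hs
  have hns : A ∉ sn := fun h => by have := hs A h; omega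
  refine ⟨insert A sn, hr.tail ⟨by simp only; omega, .inr .ms, true, Or.inr ?_,
    fun _ => rfl, rfl, fun _ => ?_, ?_, rfl⟩, ?_⟩
  · simp only
    rw [D.fA]
    rfl
  · simp only
    funext i
    by_cases hi : i = A
    · rw [hi, Function.update_self, te_A]
      rfl
    · rw [Function.update_of_ne hi]
      unfold TE
      rw [if_neg hi, if_neg]
      rintro ⟨q, h1, h2⟩
      omega
  · intro h
    exact absurd ⟨hA, by simp only; omega, hns⟩ h
  · rintro i (hi | hi)
    · omega
    · have := hs i hi
      omega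

theorem fr0 (D : Dat k' L N K s t F G w τ A H ρ σ) : R N K cv w τ A ρ 0 .fr (ρ 0) := by
  have hA := D.hA
  have hAH := D.hAH
  have h0 := D.r0
  have key : ∀ v, A + 1 + v ≤ H → R N K cv w τ A ρ 0 .mid (A + 1 + v) := by
    intro v
    induction v with
    | zero => intro _; exact mid0 D
    | succ v ihv =>
      intro hv
      obtain ⟨x, hx, hb⟩ := D.fl (A + 1 + v) (by omega) (by omega)
      refine (ihv (by omega)).right D (p := A + 1 + v) (Nat.zero_le _) (by omega) (by omega)
        (y := x) ?_ (Or.inl ?_)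
      · rw [D.te_low (Nat.zero_le _) (by omega) (by omega)]
        exact hx
      · simp only [etr1]
        rw [if_pos hb]
  have h1 := key (H - (A + 1)) (by omega)
  have e : A + 1 + (H - (A + 1)) = H := by omega
  rw [e] at h1
  rw [h0]
  refine h1.right D (Nat.zero_le _) (by omega) (by omega) (y := .h) ?_ (Or.inl ?_)
  · rw [D.te_low (Nat.zero_le _) (by omega) le_rfl]
    exact D.fH
  · simp [etr1, EA.blk]

theorem rows (D : Dat k' L N K s t F G w τ A H ρ σ) : ∀ q, q < k' →
    R N K cv w τ A ρ (q + 1) (.lc 1) (ρ q - 1) := by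
  intro q
  induction q with
  | zero =>
    intro hq
    exact (fr0 D).mark D hq rfl
  | succ q ih =>
    intro hq
    exact (row' D (by omega) (ih (by omega))).mark D hq rfl

theorem acc (D : Dat k' L N K s t F G w τ A H ρ σ) : w ∈ (em N K).lang cv := by
  have hk := D.k1
  have hlen := D.len
  have h1 := row' (cv := cv) D (q := k' - 1) (by omega) (rows D (k' - 1) (by omega))
  have e : k' - 1 + 1 = k' := by omega
  rw [e] at h1
  obtain ⟨sn, hr, hs⟩ := h1
  rw [hlen] at hr
  have hT : TE A ρ τ k' (w.length + 1) = .rend := by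
    rw [← hlen, D.te_new le_rfl, hlen]
    exact D.fe
  refine ⟨⟨.fin, w.length + 1 + 1, TE A ρ τ k', insert (w.length + 1) sn⟩, hr.tail
    ⟨le_rfl, .inl .s, true, Or.inl ?_, fun _ => rfl, rfl, ?_, ?_, rfl⟩, rfl, rfl⟩
  · simp only
    rw [hT]
    rfl
  · rintro ⟨-, h2, -⟩
    simp only at h2
    omega
  · intro _
    exact ⟨rfl, fun _ _ h3 => absurd hT h3⟩

/-! ### the layout of the input -/

theorem split {α : Type} (f : ℕ → List α) {j : ℕ} : ∀ n, j < n →
    ∃ Q, (List.range n).flatMap f = (List.range j).flatMap f ++ (f j ++ Q) := by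
  intro n
  induction n with
  | zero => intro h; omega
  | succ n ih =>
    intro h
    rw [List.range_succ, List.flatMap_append]
    rcases Nat.lt_or_ge j n with h1 | h1
    · obtain ⟨Q, hQ⟩ := ih h1
      rw [hQ]
      exact ⟨Q ++ [n].flatMap f, by simp only [List.append_assoc]⟩
    · have : j = n := by omega
      subst this
      exact ⟨[], by simp⟩

theorem iT {N K : ℕ} {w : List EA} {i : ℕ} {y : EA} (h : w[i]? = some y) :
    (em N K).initTape w (i + 1) = .inp y := by
  simp [Mach.initTape, h]

theorem iTe {N K : ℕ} {w : List EA} : (em N K).initTape w (w.length + 1) = .rend := by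
  simp [Mach.initTape]

theorem get_mid {N K : ℕ} {w P Z Q : List EA} (e : w = P ++ (Z ++ Q)) {u p : ℕ} {y : EA}
    (h : Z[u]? = some y) (hp : p = P.length + u + 1) : (em N K).initTape w p = .inp y := by
  subst hp
  apply iT
  have hu : u < Z.length := by
    by_contra hc
    rw [List.getElem?_eq_none (by omega)] at h
    exact absurd h (by simp)
  rw [e, List.getElem?_append_right (by omega), Nat.add_sub_cancel_left,
    List.getElem?_append_left hu]
  exact h

theorem eS_length (i j : ℕ) (β : Bool) : (eS i j β).length = i + j + 1 := by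
  simp [eS]
  omega

theorem eE_length (i j : ℕ) (β : Bool) : (eE i j β).length = i + j + 2 := by
  simp [eE]
  omega

theorem eS_get {i j : ℕ} {β : Bool} : (∀ u < i, (eS i j β)[u]? = some .a) ∧
    (eS i j β)[i]? = some (.d β) ∧ ∀ u < j, (eS i j β)[i + 1 + u]? = some .b := by
  refine ⟨?_, ?_, ?_⟩
  · intro u hu
    unfold eS
    rw [List.getElem?_append_left (by simpa using hu), List.getElem?_replicate, if_pos hu]
  · unfold eS
    rw [List.getElem?_append_right (by simp), List.length_replicate, Nat.sub_self]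
    rfl
  · intro u hu
    unfold eS
    rw [List.getElem?_append_right (by simp; omega), List.length_replicate]
    have e : i + 1 + u - i = u + 1 := by omega
    rw [e, List.getElem?_cons_succ, List.getElem?_replicate, if_pos hu]

theorem eE_get {i j : ℕ} {β : Bool} : (eE i j β)[0]? = some .c ∧
    (∀ u < i, (eE i j β)[1 + u]? = some .a) ∧ (∀ u < j, (eE i j β)[1 + i + u]? = some .b) ∧
    (eE i j β)[1 + i + j]? = some (.d β) := by
  refine ⟨rfl, ?_, ?_, ?_⟩
  · intro u hu
    unfold eE
    rw [Nat.add_comm 1 u, List.getElem?_cons_succ,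
      List.getElem?_append_left (by simpa using hu), List.getElem?_replicate, if_pos hu]
  · intro u hu
    unfold eE
    have e : 1 + i + u = (i + u) + 1 := by omega
    rw [e, List.getElem?_cons_succ, List.getElem?_append_right (by simp),
      List.length_replicate, Nat.add_sub_cancel_left,
      List.getElem?_append_left (by simpa using hu), List.getElem?_replicate, if_pos hu]
  · unfold eE
    have e : 1 + i + j = (i + j) + 1 := by omega
    rw [e, List.getElem?_cons_succ, List.getElem?_append_right (by simp),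
      List.length_replicate, Nat.add_sub_cancel_left, List.getElem?_append_right (by simp),
      List.length_replicate, Nat.sub_self]
    rfl

theorem eS_mem {i j : ℕ} {β : Bool} {x : EA} (h : x ∈ eS i j β) : x.row = true := by
  unfold eS at h
  rcases List.mem_append.1 h with h | h
  · rw [(List.mem_replicate.1 h).2]; rfl
  · rcases List.mem_cons.1 h with h | h
    · rw [h]; rfl
    · rw [(List.mem_replicate.1 h).2]; rfl

theorem eE_mem {i j : ℕ} {β : Bool} {x : EA} (h : x ∈ eE i j β) :
    x = .c ∨ x.row = true := by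
  unfold eE at h
  rcases List.mem_cons.1 h with h | h
  · exact Or.inl h
  · right
    rcases List.mem_append.1 h with h | h
    · rw [(List.mem_replicate.1 h).2]; rfl
    · rcases List.mem_append.1 h with h | h
      · rw [(List.mem_replicate.1 h).2]; rfl
      · rw [List.mem_singleton.1 h]; rfl

/-- the body of a block -/
def bd (k' L : ℕ) (s t : ℕ → ℕ → ℕ) (F : ℕ → ℕ → Bool) : List EA :=
  (List.range k').flatMap fun q => (List.range L).flatMap fun l => eE (s q l) (t q l) (F q l)

theorem bd_mem {k' L : ℕ} {s t : ℕ → ℕ → ℕ} {F : ℕ → ℕ → Bool} {x : EA}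
    (h : x ∈ bd k' L s t F) : x = .c ∨ x.row = true := by
  unfold bd at h
  obtain ⟨q, -, h⟩ := List.mem_flatMap.1 h
  obtain ⟨l, -, h⟩ := List.mem_flatMap.1 h
  exact eE_mem h

theorem bd_split {k' L : ℕ} {s t : ℕ → ℕ → ℕ} {F : ℕ → ℕ → Bool} {q l : ℕ} (hq : q < k')
    (hl : l < L) : ∃ P Q, bd k' L s t F = P ++ (eE (s q l) (t q l) (F q l) ++ Q) := by
  obtain ⟨Q1, h1⟩ := split (fun q => (List.range L).flatMap fun l => eE (s q l) (t q l) (F q l))
    k' hq
  obtain ⟨Q2, h2⟩ := split (fun l => eE (s q l) (t q l) (F q l)) L hl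
  unfold bd
  rw [h1, h2]
  exact ⟨((List.range q).flatMap fun q => (List.range L).flatMap fun l =>
      eE (s q l) (t q l) (F q l)) ++
    ((List.range l).flatMap fun l => eE (s q l) (t q l) (F q l)), Q2 ++ Q1,
    by simp only [List.append_assoc]⟩

theorem eX_mem {k' L : ℕ} {s t : ℕ → ℕ → ℕ} {Fs : List (ℕ → ℕ → Bool)} {x : EA}
    (h : x ∈ eX k' L s t Fs) : x.blk = true := by
  unfold eX at h
  obtain ⟨F, -, h⟩ := List.mem_flatMap.1 h
  unfold eB at h
  rcases List.mem_cons.1 h with h | h
  · rw [h]; rfl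
  · rcases bd_mem h with h | h
    · rw [h]; rfl
    · cases x <;> first | rfl | exact absurd h (by simp [EA.row])

/-- a segment -/
def sg (s t : ℕ → ℕ → ℕ) (G : ℕ → ℕ → Bool) (q l : ℕ) : List EA := eS (s q l) (t q l) (G q l)

/-- a row -/
def rw' (L : ℕ) (s t : ℕ → ℕ → ℕ) (G : ℕ → ℕ → Bool) (q : ℕ) : List EA :=
  EA.r :: (List.range L).flatMap (sg s t G q)

theorem eY_eq (k' L : ℕ) (s t : ℕ → ℕ → ℕ) (G : ℕ → ℕ → Bool) :
    eY k' L s t G = EA.h :: (List.range k').flatMap (rw' L s t G) := rfl

theorem exists_dat (hP : PS k' L N s t) (hL : 1 ≤ L) (hk : 1 ≤ k') (hK : k' ≤ K)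
    (l1 l2 : List (ℕ → ℕ → Bool)) (F G : ℕ → ℕ → Bool)
    (h : ∀ q < k', ∀ l < L, F q l = G q l) : ∃ τ A H ρ σ,
    Dat k' L N K s t F G (eX k' L s t (l1 ++ F :: l2) ++ eY k' L s t G) τ A H ρ σ := by
  set X1 := eX k' L s t l1 with hX1
  set X2 := eX k' L s t l2 with hX2
  set X := eX k' L s t (l1 ++ F :: l2) with hX
  have eXX : X = X1 ++ (eB k' L s t F ++ X2) := by
    rw [hX, hX1, hX2, eX, List.flatMap_append, List.flatMap_cons]
    rfl
  have eBB : eB k' L s t F = EA.s :: bd k' L s t F := rfl
  have lX : X.length = X1.length + ((bd k' L s t F).length + 1 + X2.length) := by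
    rw [eXX, eBB, List.length_append, List.length_append, List.length_cons]
  set w := X ++ eY k' L s t G with hw
  set ρ : ℕ → ℕ := fun q => X.length + 2 + ((List.range q).flatMap (rw' L s t G)).length
    with hρ
  set σ : ℕ → ℕ → ℕ := fun q l => ρ q + 1 + ((List.range l).flatMap (sg s t G q)).length
    with hσ
  have r0 : ρ 0 = X.length + 1 + 1 := by simp [hρ]
  have rl : ∀ q, ρ (q + 1) = ρ q + (rw' L s t G q).length := by
    intro q
    simp only [hρ, List.range_succ, List.flatMap_append, List.length_append,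
      List.flatMap_cons, List.flatMap_nil, List.append_nil]
    omega
  have rlen : ∀ q, (rw' L s t G q).length = ((List.range L).flatMap (sg s t G q)).length + 1 :=
    fun q => by simp [rw']
  have g0 : ∀ q, σ q 0 = ρ q + 1 := fun q => by simp [hσ]
  have gs : ∀ q l, σ q (l + 1) = σ q l + s q l + t q l + 1 := by
    intro q l
    simp only [hσ, List.range_succ, List.flatMap_append, List.length_append,
      List.flatMap_cons, List.flatMap_nil, List.append_nil]
    have := eS_length (s q l) (t q l) (G q l)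
    have e : (sg s t G q l).length = s q l + t q l + 1 := this
    omega
  have wrow : ∀ q < k', ∃ Q, w = (X ++ (EA.h :: (List.range q).flatMap (rw' L s t G))) ++
      (rw' L s t G q ++ Q) := by
    intro q hq
    obtain ⟨Q, hQ⟩ := split (rw' L s t G) k' hq
    refine ⟨Q, ?_⟩
    rw [hw, eY_eq, hQ]
    simp only [List.append_assoc, List.cons_append]
  have wseg : ∀ q < k', ∀ l < L, ∃ Q, w = (X ++ (EA.h :: (List.range q).flatMap
      (rw' L s t G)) ++ (EA.r :: (List.range l).flatMap (sg s t G q))) ++
      (sg s t G q l ++ Q) := by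
    intro q hq l hl
    obtain ⟨Q, hQ⟩ := wrow q hq
    obtain ⟨Q', hQ'⟩ := split (sg s t G q) L hl
    refine ⟨Q' ++ Q, ?_⟩
    rw [hQ, rw', hQ']
    simp only [List.append_assoc, List.cons_append]
  have lrow : ∀ q u, ρ q + u = (X ++ (EA.h :: (List.range q).flatMap
      (rw' L s t G))).length + u + 1 := by
    intro q u
    simp only [hρ, List.length_append, List.length_cons]
    omega
  have lseg : ∀ q l u, σ q l + u = (X ++ (EA.h :: (List.range q).flatMap
      (rw' L s t G)) ++ (EA.r :: (List.range l).flatMap (sg s t G q))).length + u + 1 := by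
    intro q l u
    simp only [hσ, hρ, List.length_append, List.length_cons]
    omega
  obtain ⟨B1, wX⟩ : ∃ B1, w = X ++ (EA.h :: B1) := ⟨_, by rw [hw, eY_eq]⟩
  have wB : w = X1 ++ ((EA.s :: bd k' L s t F) ++ (X2 ++ eY k' L s t G)) := by
    rw [hw, eXX, eBB]
    simp only [List.append_assoc, List.cons_append]
  refine ⟨(em N K).initTape w, X1.length + 1, X.length + 1, ρ, σ, ?_⟩
  refine ⟨hL, hk, hK, rfl, by omega, by omega, hP.s1, hP.t1, r0, ?_, fun q _ => g0 q,
    fun q _ l _ => gs q l, ?_, ?_, ?_, ?_, ?_, ?_, ?_, ?_, ?_, ?_, iTe, ?_, h⟩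
  · intro q _
    have := rl q
    have := rlen q
    omega
  · intro q _
    have := rl q
    have := rlen q
    simp only [hσ]
    omega
  · simp only [hρ, hw, eY_eq, List.length_append, List.length_cons]
    omega
  · intro p h1 h2
    obtain ⟨i, rfl⟩ : ∃ i, p = i + 1 := ⟨p - 1, by omega⟩
    have h3 : i < X.length := by omega
    refine ⟨X[i], iT ?_, eX_mem (List.getElem_mem h3)⟩
    rw [hw, List.getElem?_append_left h3, List.getElem?_eq_getElem h3]
  · exact get_mid wB (u := 0) rfl (by omega)
  · exact get_mid (Z := EA.h :: B1) (Q := []) (by rw [List.append_nil]; exact wX) (u := 0) rfl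
      (by omega)
  · intro q hq
    obtain ⟨Q, hQ⟩ := wrow q hq
    exact get_mid hQ (u := 0) rfl (lrow q 0)
  · intro q hq p h1 h2
    obtain ⟨Q, hQ⟩ := wrow q hq
    obtain ⟨i, rfl⟩ : ∃ i, p = ρ q + (i + 1) := ⟨p - (ρ q + 1), by omega⟩
    have h3 : i < ((List.range L).flatMap (sg s t G q)).length := by
      have := rl q
      have := rlen q
      omega
    refine ⟨((List.range L).flatMap (sg s t G q))[i], get_mid hQ (u := i + 1) ?_
      (lrow q (i + 1)), ?_⟩
    · rw [rw', List.getElem?_cons_succ, List.getElem?_eq_getElem h3]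
    · obtain ⟨l, -, h4⟩ := List.mem_flatMap.1 (List.getElem_mem h3)
      exact eS_mem h4
  · intro q hq l hl u hu
    obtain ⟨Q, hQ⟩ := wseg q hq l hl
    exact get_mid hQ (eS_get.1 u hu) (lseg q l u)
  · intro q hq l hl
    obtain ⟨Q, hQ⟩ := wseg q hq l hl
    exact get_mid hQ eS_get.2.1 (lseg q l _)
  · intro q hq l hl u hu
    obtain ⟨Q, hQ⟩ := wseg q hq l hl
    refine get_mid hQ (eS_get.2.2 u hu) ?_
    rw [← lseg q l]
    omega
  · intro q hq l hl
    obtain ⟨P, Q, hPQ⟩ := bd_split (s := s) (t := t) (F := F) hq hl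
    have lb : (bd k' L s t F).length = P.length + (s q l + t q l + 2 + Q.length) := by
      rw [hPQ]
      simp only [List.length_append, eE_length]
    have we : w = (X1 ++ (EA.s :: P)) ++ (eE (s q l) (t q l) (F q l) ++
        (Q ++ (X2 ++ eY k' L s t G))) := by
      rw [wB, hPQ]
      simp only [List.append_assoc, List.cons_append]
    have lp : (X1 ++ (EA.s :: P)).length = X1.length + 1 + P.length := by
      simp only [List.length_append, List.length_cons]
      omega
    obtain ⟨g1, g2, g3, g4⟩ := eE_get (i := s q l) (j := t q l) (β := F q l)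
    refine ⟨X1.length + 1 + P.length + 1, by omega, by omega, ?_, ?_, ?_, ?_, ?_⟩
    · intro p h1 h2
      obtain ⟨i, rfl⟩ : ∃ i, p = X1.length + (i + 1) + 1 := ⟨p - (X1.length + 2), by omega⟩
      have h3 : i < (bd k' L s t F).length := by omega
      refine ⟨(bd k' L s t F)[i], get_mid wB (u := i + 1) ?_ (by omega),
        bd_mem (List.getElem_mem h3)⟩
      rw [List.getElem?_cons_succ, List.getElem?_eq_getElem h3]
    · exact get_mid we g1 (by omega)
    · intro u hu
      exact get_mid we (g2 u hu) (by omega)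
    · intro u hu
      exact get_mid we (g3 u hu) (by omega)
    · exact get_mid we g4 (by omega)

end WitB2Aux

theorem em_complete {k' L N K : ℕ} {s t : ℕ → ℕ → ℕ} (hP : PS k' L N s t) (hL : 1 ≤ L)
    (hk : 1 ≤ k') (hK : k' ≤ K) (cv : Bool) (Fs : List (ℕ → ℕ → Bool)) (G : ℕ → ℕ → Bool)
    {F : ℕ → ℕ → Bool} (hF : F ∈ Fs) (h : ∀ q < k', ∀ l < L, F q l = G q l) :
    eX k' L s t Fs ++ eY k' L s t G ∈ (em N K).lang cv := by
  obtain ⟨l1, l2, rfl⟩ := List.append_of_mem hF
  obtain ⟨τ, A, H, ρ, σ, D⟩ := WitB2Aux.exists_dat (N := N) (K := K) hP hL hk hK l1 l2 F G h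
  exact WitB2Aux.acc D

end Pool.Agent.P0036f5e
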