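import Pool.Agent.Lib.P0036f5e.WitB1
import Pool.Agent.Lib.P0036f5e.WitB2
import Pool.Agent.Lib.P0036f5v2.Lower

/-!
# E5: lower bound for deterministic machines

* `ph_seq`: from `Ph … q n p` one gets sequences `f, g` with `f 0 = q`, `f n = p`, `f l ≤ q` for `l ≤ n`, and
  `g l < k'`, `s (g l) l = s (f l) l`, `t (g l) l = t (f (l + 1)) l`, `F (g l) l = G (f l) l` for `l < n`
  (induction on `n`, `Function.update`).
* `uq_ph`: with `Uq` and `p = q`, `n = L`: `g l = f l = q`, so `F q l = G q l`.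
* `edet_lower`: as `vdet_lower` in `P0036f5b/WitC.lean`, with `ι` = the sets of functions
  `Fin k' × Fin L → Bool` (`2 ^ 2 ^ (k' L)` elements), `em_sound` with `uq_ph`, and `em_complete`.
-/

set_option autoImplicit false

namespace Pool.Agent.P0036f5e

open Relation Pool.Agent.P0036f5v2 Pool.Agent.P0036f5w Pool.Agent.P0036f5g Pool.Agent.P0036f5k
  Classical

namespace WitCAux

theorem ph_seq {k' : ℕ} {s t : ℕ → ℕ → ℕ} {F G : ℕ → ℕ → Bool} {q : ℕ} :
    ∀ (n p : ℕ), Ph k' s t F G q n p → ∃ f g : ℕ → ℕ, f 0 = q ∧ f n = p ∧ (∀ l ≤ n, f l ≤ q) ∧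
      ∀ l < n, (g l < k' ∧ s (g l) l = s (f l) l ∧ t (g l) l = t (f (l + 1)) l) ∧
        F (g l) l = G (f l) l
  | 0, p, h => by
    have hp : p = q := h
    subst hp
    exact ⟨fun _ => p, fun _ => 0, rfl, rfl, fun _ _ => le_rfl, fun l hl => absurd hl (by omega)⟩
  | n + 1, p, h => by
    obtain ⟨hpq, p', r, hp', hr, hs, ht, hF⟩ := h
    obtain ⟨f, g, h0, hn, hle, hstep⟩ := ph_seq n p' hp'
    refine ⟨Function.update f (n + 1) p, Function.update g n r, ?_, ?_, ?_, ?_⟩
    · rw [Function.update_of_ne (by omega)]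
      exact h0
    · rw [Function.update_self]
    · intro l hl
      by_cases hl' : l = n + 1
      · subst hl'
        rw [Function.update_self]
        exact hpq
      · rw [Function.update_of_ne hl']
        exact hle l (by omega)
    · intro l hl
      have e1 : Function.update f (n + 1) p l = f l := Function.update_of_ne (by omega) _ _
      rw [e1]
      by_cases hl' : l = n
      · subst hl'
        rw [Function.update_self, Function.update_self, hn]
        exact ⟨⟨hr, hs, ht⟩, hF⟩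
      · have e2 : Function.update f (n + 1) p (l + 1) = f (l + 1) :=
          Function.update_of_ne (by omega) _ _
        have e3 : Function.update g n r l = g l := Function.update_of_ne hl' _ _
        rw [e2, e3]
        exact hstep l (by omega)

/-- the extension of a matrix -/
noncomputable def mx (k' L : ℕ) (f : Fin k' × Fin L → Bool) (q l : ℕ) : Bool :=
  if h : q < k' ∧ l < L then f (⟨q, h.1⟩, ⟨l, h.2⟩) else false

theorem mx_inj (k' L : ℕ) (f g : Fin k' × Fin L → Bool)
    (h : ∀ q < k', ∀ l < L, mx k' L f q l = mx k' L g q l) : f = g := by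
  funext ⟨q, l⟩
  have hq := q.isLt
  have hl := l.isLt
  have h1 := h q.val hq l.val hl
  unfold mx at h1
  rw [dif_pos ⟨hq, hl⟩, dif_pos ⟨hq, hl⟩] at h1
  exact h1

end WitCAux

open WitCAux

theorem uq_ph {k' L : ℕ} {s t : ℕ → ℕ → ℕ} (hU : Uq k' L s t) {F G : ℕ → ℕ → Bool} {q : ℕ}
    (hq : q < k') (h : Ph k' s t F G q L q) : ∀ l < L, F q l = G q l := by
  obtain ⟨f, g, h0, hn, hle, hstep⟩ := ph_seq L q h
  intro l hl
  obtain ⟨h1, h2⟩ := hU q hq f g h0 hn hle (fun l hl => (hstep l hl).1) l hl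
  have h3 := (hstep l hl).2
  rw [h1, h2] at h3
  exact h3

theorem edet_lower {k' L N K : ℕ} {s t : ℕ → ℕ → ℕ} (hP : PS k' L N s t) (hU : Uq k' L s t)
    (hL : 1 ≤ L) (hk : 1 ≤ k') (hK : k' ≤ K) (D : LA EA) (hD : D.toMach.Det) (cv : Bool)
    (hLg : D.toMach.lang cv = (em N K).lang cv) : 2 ^ (k' * L) ≤ D.toMach.size ^ 2 := by
  have fQ := D.finQ
  have fW := D.finW
  have hmem : ∀ (X : Finset (Fin k' × Fin L → Bool)) (g : Fin k' × Fin L → Bool),
      eX k' L s t (X.toList.map (mx k' L)) ++ eY k' L s t (mx k' L g) ∈ (em N K).lang cv ↔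
        g ∈ X := by
    intro X g
    constructor
    · intro h
      obtain ⟨F, hF, hE⟩ := em_sound hP hL cv _ _ h
      obtain ⟨f, hf, rfl⟩ := List.mem_map.1 hF
      have := mx_inj k' L _ _ (fun q hq => uq_ph hU hq (hE q hq))
      rw [← this]
      exact Finset.mem_toList.1 hf
    · intro h
      have hF : mx k' L g ∈ X.toList.map (mx k' L) :=
        List.mem_map.2 ⟨g, Finset.mem_toList.2 h, rfl⟩
      exact em_complete hP hL hk hK cv _ _ hF (fun _ _ _ _ => rfl)
  have h := D.toMach.card_le_of_residuals cv hD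
    (ι := Finset (Fin k' × Fin L → Bool)) (fun X => eX k' L s t (X.toList.map (mx k' L))) (by
      intro X Y hne
      obtain ⟨g, hg⟩ : ∃ g, ¬ (g ∈ X ↔ g ∈ Y) := by
        by_contra hcon
        push Not at hcon
        exact hne (Finset.ext hcon)
      refine ⟨eY k' L s t (mx k' L g), ?_⟩
      rw [hLg, hmem, hmem]
      exact hg)
  have hcard : Nat.card (Finset (Fin k' × Fin L → Bool)) = 2 ^ 2 ^ (k' * L) := by
    simp
  rw [hcard] at h
  set k := Nat.card D.Q with hk
  have hsz : k + 1 ≤ D.toMach.size := by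
    unfold Mach.size
    omega
  have h1 : 2 ^ (k * k) * k + 1 ≤ 2 ^ (k * k + k + 1) := by
    have h2 : k ≤ 2 ^ k := Nat.lt_two_pow_self.le
    have h3 : 2 ^ (k * k + k + 1) = 2 ^ (k * k) * 2 ^ k + 2 ^ (k * k) * 2 ^ k := by ring
    have h4 : 2 ^ (k * k) * k ≤ 2 ^ (k * k) * 2 ^ k := Nat.mul_le_mul_left _ h2
    have h5 : 1 ≤ 2 ^ (k * k) * 2 ^ k := Nat.mul_pos (by positivity) (by positivity)
    omega
  have h6 : 2 ^ (k' * L) ≤ k * k + k + 1 :=
    (Nat.pow_le_pow_iff_right (by norm_num)).1 (h.trans h1)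
  calc 2 ^ (k' * L) ≤ k * k + k + 1 := h6
    _ ≤ (k + 1) ^ 2 := by nlinarith
    _ ≤ D.toMach.size ^ 2 := Nat.pow_le_pow_left hsz 2

end Pool.Agent.P0036f5e
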