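import Pool.Agent.Lib.P0036f5d.Main
import Pool.Agent.Lib.P0036f5e.WitA
import Pool.Agent.Lib.P0036f5e.WitF
import Pool.Agent.Lib.P0036f5e.WitC
import Pool.Agent.Lib.P0036f5e.NumE

/-!
# The cost of determinising 1-limited automata that change at most `k` cells, for every `k`
-/

set_option autoImplicit false

namespace Pool.Agent.P0036f5e

open Relation Pool.Agent.P0036f5v2 Pool.Agent.P0036f5w Pool.Agent.P0036f5g Pool.Agent.P0036f5k
  Pool.Agent.P0036f5b Pool.Agent.P0036f5d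

theorem finite_EA : Finite EA := by
  refine Finite.of_injective (β := Fin 6 ⊕ Bool)
    (fun y => match y with
      | .s => Sum.inl 0
      | .c => Sum.inl 1
      | .a => Sum.inl 2
      | .b => Sum.inl 3
      | .d β => Sum.inr β
      | .h => Sum.inl 4
      | .r => Sum.inl 5) ?_
  rintro (_ | _ | _ | _ | _ | _ | _) (_ | _ | _ | _ | _ | _ | _) h <;> simp_all

theorem XE_pos {L D e : ℕ} (hL : 1 ≤ L) (hD : 1 ≤ D) (he : 1 ≤ e) : 1 ≤ XE L D e := by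
  unfold XE
  have h1 : 0 < D ^ e := by positivity
  have h2 : 0 < L * (e * D ^ 2) * D ^ e := by positivity
  omega

/-- lower bound from a path system -/
theorem lower_path {cv : Bool} {k n L D e d : ℕ} (hn : 4 ≤ n) (hL : 1 ≤ L) (hD : 1 ≤ D)
    (he : 1 ≤ e) (hsz : 4000 * (NE L D e + KE L D e) ≤ n) (hk : KE L D e + 2 ≤ k)
    (hd : IsGreatest (costsFor (fun _ M => FewWrites M cv k) cv n) d) :
    2 ^ (KE L D e * L / 2) ≤ d := by
  have fEA := finite_EA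
  have hX := XE_pos hL hD he
  have hb : 1 ≤ D ^ e := Nat.one_le_pow _ _ hD
  have hK : 1 ≤ KE L D e := Nat.mul_pos hb (Nat.mul_pos hX hb)
  have hN : 1 ≤ NE L D e := by
    unfold NE
    exact Nat.mul_pos (Nat.mul_pos hL (by omega)) (by positivity)
  obtain ⟨s, t, hP, hU⟩ := exists_ps L D e hL hD he
  obtain ⟨M, hLg, hs, hF⟩ := eexists_small (NE L D e) (KE L D e) hN hK
  obtain ⟨x, hx, Dt, hDt, hL', hsize⟩ := exists_costFew M cv (k := k) (n := n) hn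
    (hF cv k (em_few (NE L D e) (KE L D e) hK cv k hk)) (by omega)
  have h2 := edet_lower hP hU hL hK le_rfl Dt hDt cv (by rw [hL', hLg cv])
  rw [hsize] at h2
  have h3 : 2 ^ (KE L D e * L / 2) ≤ x := by
    have h4 : (2 ^ (KE L D e * L / 2)) ^ 2 ≤ x ^ 2 := by
      rw [← pow_mul]
      refine le_trans (Nat.pow_le_pow_right (by norm_num) ?_) h2
      omega
    exact (Nat.pow_le_pow_iff_left (by norm_num)).1 h4
  exact h3.trans (hd.2 hx)

/-- the exponent of the lower bound -/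
def GE (n k : ℕ) : ℕ :=
  Nat.sqrt (Nat.sqrt (n ^ 3 * (min k n) ^ 2)) / 2 ^ (3 * Nat.sqrt (Nat.log 2 n) + 48)

theorem GE_small {n k : ℕ} (h : n < 2 ^ 128 ∨ (min k n) ^ 2 < 16 * n) : GE n k ≤ n / 2000 := by
  set k' := min k n with hk'
  have hk : k' ≤ n := min_le_right _ _
  set S := Nat.sqrt (Nat.sqrt (n ^ 3 * k' ^ 2)) with hS
  have h1 : S ^ 4 ≤ n ^ 3 * k' ^ 2 := by
    have h2 : S * S ≤ Nat.sqrt (n ^ 3 * k' ^ 2) := Nat.sqrt_le _
    have h3 : Nat.sqrt (n ^ 3 * k' ^ 2) * Nat.sqrt (n ^ 3 * k' ^ 2) ≤ n ^ 3 * k' ^ 2 :=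
      Nat.sqrt_le _
    calc S ^ 4 = (S * S) * (S * S) := by ring
      _ ≤ _ := (Nat.mul_le_mul h2 h2).trans h3
  have h2 : S ≤ n * 2 ^ 32 := by
    have h3 : n ^ 3 * k' ^ 2 ≤ (n * 2 ^ 32) ^ 4 := by
      rcases h with h | h
      · calc n ^ 3 * k' ^ 2 ≤ n ^ 3 * n ^ 2 := Nat.mul_le_mul_left _ (Nat.pow_le_pow_left hk 2)
          _ = n ^ 4 * n := by ring
          _ ≤ n ^ 4 * 2 ^ 128 := Nat.mul_le_mul_left _ h.le
          _ = (n * 2 ^ 32) ^ 4 := by ring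
      · calc n ^ 3 * k' ^ 2 ≤ n ^ 3 * (16 * n) := Nat.mul_le_mul_left _ h.le
          _ = n ^ 4 * 16 := by ring
          _ ≤ n ^ 4 * 2 ^ 128 := Nat.mul_le_mul_left _ (by norm_num)
          _ = (n * 2 ^ 32) ^ 4 := by ring
    exact (Nat.pow_le_pow_iff_left (by norm_num)).1 (h1.trans h3)
  unfold GE
  rw [← hk', ← hS]
  calc S / 2 ^ (3 * Nat.sqrt (Nat.log 2 n) + 48) ≤ S / 2 ^ 48 :=
        Nat.div_le_div_left (Nat.pow_le_pow_right (by norm_num) (by omega)) (by positivity)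
    _ ≤ (n * 2 ^ 32) / 2 ^ 48 := Nat.div_le_div_right h2
    _ ≤ n / 2000 := by omega

/-- The cost of determinising 1-limited automata that change at most `k` cells. -/
theorem main_every (cv : Bool) (k n : ℕ) (hn : 4 ≤ n) :
    ∃ d, IsGreatest (costsFor (fun _ M => FewWrites M cv k) cv n) d ∧
      d ≤ 2 ^ (300 * (k + 1) ^ 2 * n) ∧
      d ≤ 2 ^ (30000 * (Nat.log 2 n + 1) * (Nat.log 2 (k + 1) + 1) *
        min (n + k * Nat.sqrt n) (k + n * (Nat.sqrt k + 1))) ∧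
      d ≤ 2 ^ (1000 * n ^ 2 * (Nat.log 2 (k + 1) + 1)) ∧
      (1 ≤ k → 2 ^ (n / 2000) ≤ d) ∧
      (1 ≤ k → 2 ^ (Nat.sqrt (Nat.sqrt (n ^ 3 * (min k n) ^ 2)) /
        2 ^ (3 * Nat.sqrt (Nat.log 2 n) + 48)) ≤ d) ∧
      2 ^ (min k (n ^ 2) / 1000000000) ≤ d := by
  obtain ⟨d, hd, h1, h2, h3, h4⟩ := main_all cv k n hn
  refine ⟨d, hd, h1, costsSm_le hn hd.1, h2, h3, ?_, h4⟩
  intro hk
  show 2 ^ GE n k ≤ d
  by_cases h : n < 2 ^ 128 ∨ (min k n) ^ 2 < 16 * n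
  · exact (Nat.pow_le_pow_right (by norm_num) (GE_small h)).trans (h3 hk)
  · push Not at h
    obtain ⟨L, D, e, g1, g2, g3, g4, g5, g6⟩ := num_lowerE h.1 (min_le_right k n) h.2
    exact (Nat.pow_le_pow_right (by norm_num) g6).trans
      (lower_path hn g1 g2 g3 g4 (g5.trans (min_le_left _ _)) hd)

end Pool.Agent.P0036f5e
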