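import Pool.Agent.Lib.P0036f5e.EDefs

/-!
# E3: accepted test words are correct

The input is `w = eX k' L s t Fs ++ eY k' L s t G`.  After the block of `F = Fs[l0]` has been marked
(position `g`), the tape is the input with `g` and the `r` cells of the rows `0, …, m - 1` marked
(`m` = number of marked rows); the row `m` (if `m < k'`) starts with an unmarked `r`.  Let `H` be the
position of `h`.  In the phase `q = m - 1`: all rows `q' < q` have been passed, i.e.
`Ph k' s t F G q' L q'` for all `q' < q`.
Invariant by the state (all reachable configurations after the mark `ms`):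
* `fr`: `m = 0`, head at `H + 1`;
* `lc j`, `rc j`: `m ≥ 1`, head in the test or at `H` (for `rc`: in the test, behind `m - j` marked rows, in
  the row number `m - j - 1` or at its start … i.e. exactly `j` marked `r` cells are at positions `≥ p`);
  in `lc j` the number of marked `r` cells `> p` is `j`; so `rc` starts with `j = m` and reaches the last
  marked row in the state `ra 0`;
* `ra i`: head in the `a`-part of the segment `(p, l)` (row `p ≤ q`, segment `l < L`), behind `i` of its
  `a`s, `Ph k' s t F G q l p` (for `ra 0`: `p = q`, `l = 0`; also `ra i` with `i` = all of them, head at the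
  `d` cell);
* `gl β i`, `lf β i`, `se β i`, `ca β i'`, `cb β j'`: there are `p, l` with `Ph k' s t F G q l p`, `i = s p l`,
  `β = G p l`, `p ≤ q`, `l < L`; the head is in the test or at `H` (`gl`), left of `H` and `≥ g` (`lf`), in the
  marked block (`se`, `ca`, `cb`; in `ca β i'` inside the entry `(r, l')` behind `i - i'` of its `a`s, in
  `cb β j'` behind all `i` `a`s, so `s r l' = i = s p l`, hence `l' = l` by `PS.ls`, and `j'` of its `b`s);
* `rt j`, `rh j`: there are `p, l, r` as before with `r < k'`, `s r l = s p l`, `F r l = G p l`, `j = t r l`;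
* `bk j'`: head in the `b`-part of the segment `(p1, l1)` of a row `p1 ≤ q` (the row has a marked `r`, as the
  state `rh` cannot pass an unmarked `r`), `j - j'` of its `b`s passed.  For `bk 0`: at the next letter `b` the
  machine is stuck; otherwise `t p1 l1 = j = t r l`, so `l1 = l` (`PS.lt`) and `Ph k' s t F G q (l + 1) p1`.
  If the head is at the letter `a` of the segment `(p1, l + 1)`: `ra 1`.  If the next cell is a marked
  `r`: stuck.  If it is an unmarked `r` then `p1 = q`, `l + 1 = L`: the row `q` has been passed, the row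
  `q + 1` is marked.  At the right end-marker: `q = k' - 1 = p1`, `l + 1 = L`: all rows have been passed.
* `fin`: `∀ q < k', Ph k' s t F G q L q`.
The positions in the test are described by the functions `R q` (the cell `r` of the row `q`) and `S q l`
(the first cell of the segment `(q, l)`).
-/

set_option autoImplicit false

namespace Pool.Agent.P0036f5e

open Relation Pool.Agent.P0036f5v2 Pool.Agent.P0036f5w Pool.Agent.P0036f5g Pool.Agent.P0036f5k
  Classical

namespace WitB1Aux

/-- an entry of the marked block at the position `e` -/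
def Ent (k' L : ℕ) (s t : ℕ → ℕ → ℕ) (F : ℕ → ℕ → Bool) (Z : ℕ) (T : ℕ → Sym EA EW)
    (e r l : ℕ) : Prop :=
  r < k' ∧ l < L ∧ (∀ u < s r l, T (e + 1 + u) = .inp .a) ∧
    (∀ u < t r l, T (e + 1 + s r l + u) = .inp .b) ∧
    T (e + 1 + s r l + t r l) = .inp (.d (F r l)) ∧ e + 1 + s r l + t r l < Z

/-- what is needed about the initial tape; `Z` is the position after the block -/
structure TF (k' L A H Z : ℕ) (s t : ℕ → ℕ → ℕ) (F G : ℕ → ℕ → Bool) (R : ℕ → ℕ)
    (S : ℕ → ℕ → ℕ) (T : ℕ → Sym EA EW) : Prop where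
  hA : 1 ≤ A
  hAZ : A < Z
  hZH : Z ≤ H
  fH : T H = .inp .h
  R0 : R 0 = H + 1
  S0 : ∀ q < k', S q 0 = R q + 1
  SL : ∀ q < k', S q L = R (q + 1)
  SS : ∀ q < k', ∀ l < L, S q (l + 1) = S q l + s q l + 1 + t q l
  fr : ∀ q < k', T (R q) = .inp .r
  fa : ∀ q < k', ∀ l < L, ∀ u < s q l, T (S q l + u) = .inp .a
  fd : ∀ q < k', ∀ l < L, T (S q l + s q l) = .inp (.d (G q l))
  fb : ∀ q < k', ∀ l < L, ∀ u < t q l, T (S q l + s q l + 1 + u) = .inp .b
  fe : T (R k') = .rend
  fk : ∀ p, A ≤ p → p < H → ∃ x, T p = .inp x ∧ x.blk = true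
  fZ : T Z = .inp .s ∨ T Z = .inp .h
  fc : ∀ p, A < p → p < Z → T p = .inp .c → ∃ r l, Ent k' L s t F Z T p r l

/-- the tape with `m` marked rows -/
noncomputable def TK (A : ℕ) (R : ℕ → ℕ) (T : ℕ → Sym EA EW) (m p : ℕ) : Sym EA EW :=
  if p = A then .wrk .ms else if ∃ q < m, p = R q then .wrk .mr else T p

/-- the part `i` of the test, `0` is the cell `h` -/
def Row (H : ℕ) (R : ℕ → ℕ) : ℕ → ℕ → Prop
  | 0, p => p = H
  | i + 1, p => R i ≤ p ∧ p < R (i + 1)

/-- all rows before the row `q` have been passed -/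
def Dn (k' L : ℕ) (s t : ℕ → ℕ → ℕ) (F G : ℕ → ℕ → Bool) (q : ℕ) : Prop :=
  ∀ x < q, Ph k' s t F G x L x

/-- the machine is in the row `p` before the segment `l` -/
def Dat (k' L : ℕ) (s t : ℕ → ℕ → ℕ) (F G : ℕ → ℕ → Bool) (m p l : ℕ) : Prop :=
  ∃ q, m = q + 1 ∧ q < k' ∧ p ≤ q ∧ l < L ∧ Ph k' s t F G q l p ∧ Dn k' L s t F G q

/-- the state part of the invariant -/
def St (k' L A H Z : ℕ) (s t : ℕ → ℕ → ℕ) (F G : ℕ → ℕ → Bool) (R : ℕ → ℕ)
    (S : ℕ → ℕ → ℕ) (T : ℕ → Sym EA EW) (m : ℕ) : EQ → ℕ → Prop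
  | .scan, _ => False
  | .mid, p => m = 0 ∧ A < p ∧ p ≤ H
  | .fr, p => m = 0 ∧ p = H + 1
  | .fin, _ => ∀ q < k', Ph k' s t F G q L q
  | .lc j, p => ∃ i, i + j = m ∧ 1 ≤ j ∧ m ≤ k' ∧ Dn k' L s t F G (m - 1) ∧ Row H R i p
  | .rc j, p => ∃ i p', p = p' + 1 ∧ i + j = m ∧ 1 ≤ j ∧ m ≤ k' ∧ Dn k' L s t F G (m - 1) ∧
      Row H R i p'
  | .ra i, p => ∃ q' l, Dat k' L s t F G m q' l ∧ i ≤ s q' l ∧ p = S q' l + i
  | .gl β i, p => ∃ q' l, Dat k' L s t F G m q' l ∧ i = s q' l ∧ β = G q' l ∧ H ≤ p ∧ p < R m
  | .lf β i, p => ∃ q' l, Dat k' L s t F G m q' l ∧ i = s q' l ∧ β = G q' l ∧ A ≤ p ∧ p < H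
  | .se β i, p => ∃ q' l, Dat k' L s t F G m q' l ∧ i = s q' l ∧ β = G q' l ∧ A < p ∧ p ≤ Z
  | .ca β i, p => ∃ q' l e r l1 u, Dat k' L s t F G m q' l ∧ β = G q' l ∧
      Ent k' L s t F Z T e r l1 ∧ A < e ∧ i + u = s q' l ∧ u ≤ s r l1 ∧ p = e + 1 + u
  | .cb β j, p => ∃ q' l e r, Dat k' L s t F G m q' l ∧ β = G q' l ∧
      Ent k' L s t F Z T e r l ∧ A < e ∧ s r l = s q' l ∧ 1 ≤ j ∧ j ≤ t r l ∧
      p = e + 1 + s r l + j
  | .rt j, p => ∃ q' l r, Dat k' L s t F G m q' l ∧ r < k' ∧ s r l = s q' l ∧
      F r l = G q' l ∧ j = t r l ∧ A < p ∧ p ≤ H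
  | .rh j, p => ∃ q' l r, Dat k' L s t F G m q' l ∧ r < k' ∧ s r l = s q' l ∧
      F r l = G q' l ∧ j = t r l ∧ H < p ∧ p ≤ R m
  | .bk j, p => ∃ q' l r p1 l1 v, Dat k' L s t F G m q' l ∧ r < k' ∧ s r l = s q' l ∧
      F r l = G q' l ∧ p1 < m ∧ l1 < L ∧ v ≤ t p1 l1 ∧ j + v = t r l ∧
      p = S p1 l1 + s p1 l1 + 1 + v

section

variable {k' L A H Z N K m : ℕ} {s t : ℕ → ℕ → ℕ} {F G : ℕ → ℕ → Bool} {R : ℕ → ℕ}
  {S : ℕ → ℕ → ℕ} {T : ℕ → Sym EA EW}

theorem TF.smono (h : TF k' L A H Z s t F G R S T) {q : ℕ} (hq : q < k') :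
    ∀ l ≤ L, R q + 1 ≤ S q l := by
  intro l
  induction l with
  | zero => intro _; rw [h.S0 q hq]
  | succ l ih => intro hl; have := ih (by omega); rw [h.SS q hq l (by omega)]; omega

theorem TF.smono' (h : TF k' L A H Z s t F G R S T) {q : ℕ} (hq : q < k') {l : ℕ}
    (hl : l ≤ L) : S q l ≤ R (q + 1) := by
  rw [← h.SL q hq]
  have key : ∀ n l, l + n = L → S q l ≤ S q L := by
    intro n
    induction n with
    | zero => intro l h1; rw [← h1]; rfl
    | succ n ih =>
      intro l h1
      have h2 := ih (l + 1) (by omega)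
      rw [h.SS q hq l (by omega)] at h2
      omega
  exact key (L - l) l (by omega)

theorem TF.rmono (h : TF k' L A H Z s t F G R S T) {q : ℕ} (hq : q < k') :
    R q < R (q + 1) := by
  have h1 := h.smono hq L le_rfl
  rw [h.SL q hq] at h1
  omega

theorem TF.rle (h : TF k' L A H Z s t F G R S T) {q q' : ℕ} (h1 : q ≤ q') (h2 : q' ≤ k') :
    R q ≤ R q' := by
  induction q' with
  | zero => rw [Nat.le_zero.1 h1]
  | succ n ih =>
    rcases Nat.lt_or_ge n q with h3 | h3
    · have : q = n + 1 := by omega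
      rw [this]
    · exact (ih h3 (by omega)).trans (h.rmono (by omega)).le

theorem TF.rlt (h : TF k' L A H Z s t F G R S T) {q q' : ℕ} (h1 : q < q') (h2 : q' ≤ k') :
    R q < R q' :=
  lt_of_lt_of_le (h.rmono (by omega)) (h.rle h1 h2)

theorem TF.hR (h : TF k' L A H Z s t F G R S T) {q : ℕ} (h1 : q ≤ k') : H < R q := by
  have := h.rle (Nat.zero_le q) h1
  rw [h.R0] at this
  omega

theorem TF.hAH (h : TF k' L A H Z s t F G R S T) : A < H := by
  have := h.hAZ
  have := h.hZH
  omega

/-- the row of a position -/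
theorem TF.cell (h : TF k' L A H Z s t F G R S T) {p : ℕ} (hp : H < p) :
    ∀ n ≤ k', p < R n → ∃ q < n, R q ≤ p ∧ p < R (q + 1) := by
  intro n
  induction n with
  | zero => intro _ h1; rw [h.R0] at h1; omega
  | succ n ih =>
    intro hn h1
    rcases Nat.lt_or_ge p (R n) with h2 | h2
    · obtain ⟨q, h3, h4⟩ := ih (by omega) h2
      exact ⟨q, by omega, h4⟩
    · exact ⟨n, by omega, h2, h1⟩

/-- the segment of a position -/
theorem TF.seg (h : TF k' L A H Z s t F G R S T) {q p : ℕ} (hq : q < k') (hp : R q < p) :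
    ∀ n ≤ L, p < S q n → ∃ l < n, S q l ≤ p ∧ p < S q (l + 1) := by
  intro n
  induction n with
  | zero => intro _ h1; rw [h.S0 q hq] at h1; omega
  | succ n ih =>
    intro hn h1
    rcases Nat.lt_or_ge p (S q n) with h2 | h2
    · obtain ⟨l, h3, h4⟩ := ih (by omega) h2
      exact ⟨l, by omega, h4⟩
    · exact ⟨n, by omega, h2, h1⟩

/-- the letters inside the rows -/
theorem TF.letter (h : TF k' L A H Z s t F G R S T) {q p : ℕ} (hq : q < k') (hp : R q < p)
    (hp' : p < R (q + 1)) : ∃ l < L, T p = .inp .a ∨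
      (p = S q l + s q l ∧ T p = .inp (.d (G q l))) ∨ T p = .inp .b := by
  rw [← h.SL q hq] at hp'
  obtain ⟨l, hl, h1, h2⟩ := h.seg hq hp L le_rfl hp'
  rw [h.SS q hq l hl] at h2
  refine ⟨l, hl, ?_⟩
  rcases Nat.lt_trichotomy p (S q l + s q l) with h3 | h3 | h3
  · left
    have h4 := h.fa q hq l hl (p - S q l) (by omega)
    rw [Nat.add_sub_cancel' h1] at h4
    exact h4
  · right; left
    exact ⟨h3, by rw [h3]; exact h.fd q hq l hl⟩
  · right; right
    have h4 := h.fb q hq l hl (p - (S q l + s q l + 1)) (by omega)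
    rw [Nat.add_sub_cancel' (by omega)] at h4
    exact h4

theorem TF.rowl (h : TF k' L A H Z s t F G R S T) {q p : ℕ} (hq : q < k') (hp : R q < p)
    (hp' : p < R (q + 1)) : ∃ y, T p = .inp y ∧ y.row = true := by
  obtain ⟨l, _, h1 | ⟨_, h1⟩ | h1⟩ := h.letter hq hp hp'
  · exact ⟨_, h1, rfl⟩
  · exact ⟨_, h1, rfl⟩
  · exact ⟨_, h1, rfl⟩

theorem tk_A : TK A R T m A = .wrk .ms := by simp [TK]

theorem TF.tk_low (h : TF k' L A H Z s t F G R S T) (hm : m ≤ k') {p : ℕ} (h1 : p ≠ A)
    (h2 : p ≤ H) : TK A R T m p = T p := by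
  unfold TK
  rw [if_neg h1, if_neg]
  rintro ⟨q, hq, rfl⟩
  have := h.hR (q := q) (by omega)
  omega

theorem TF.tk_mark (h : TF k' L A H Z s t F G R S T) (hm : m ≤ k') {q : ℕ} (hq : q < m) :
    TK A R T m (R q) = .wrk .mr := by
  unfold TK
  have := h.hR (q := q) (by omega)
  have := h.hAH
  rw [if_neg (by omega), if_pos ⟨q, hq, rfl⟩]

theorem TF.tk_fresh (h : TF k' L A H Z s t F G R S T) (hm : m ≤ k') :
    TK A R T m (R m) = T (R m) := by
  unfold TK
  have := h.hR hm
  have := h.hAH
  rw [if_neg (by omega), if_neg]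
  rintro ⟨q, hq, h1⟩
  have := h.rlt hq hm
  omega

theorem TF.tk_in (h : TF k' L A H Z s t F G R S T) (hm : m ≤ k') {q p : ℕ} (hq : q < k')
    (hp : R q < p) (hp' : p < R (q + 1)) : TK A R T m p = T p := by
  unfold TK
  have := h.hR hq.le
  have := h.hAH
  rw [if_neg (by omega), if_neg]
  rintro ⟨q', hq', rfl⟩
  rcases Nat.lt_or_ge q q' with h1 | h1
  · have := h.rle (q := q + 1) (q' := q') h1 (by omega)
    omega
  · have := h.rle (q := q') (q' := q) h1 (by omega)
    omega

/-- what one step gives -/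
def Out (k' L A H Z : ℕ) (s t : ℕ → ℕ → ℕ) (F G : ℕ → ℕ → Bool) (R : ℕ → ℕ)
    (S : ℕ → ℕ → ℕ) (T : ℕ → Sym EA EW) (m p : ℕ) (q' : EQ) (x : EA ⊕ EW) (d : Bool) : Prop :=
  ((Sym.ofW x = TK A R T m p ∨ p = R k') ∧ (p < R m ∨ p = R k') ∧
      St k' L A H Z s t F G R S T m q' (if d = true then p + 1 else p - 1)) ∨
    (p = R m ∧ m < k' ∧ x = .inr .mr ∧
      St k' L A H Z s t F G R S T (m + 1) q' (if d = true then p + 1 else p - 1))

theorem step_mid (h : TF k' L A H Z s t F G R S T) {p : ℕ} {q' : EQ} {x : EA ⊕ EW} {d : Bool}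
    (hst : St k' L A H Z s t F G R S T m .mid p)
    (htr : etr1 N K .mid (TK A R T m p) = some (q', x, d)) :
    Out k' L A H Z s t F G R S T m p q' x d := by
  obtain ⟨h1, h2, h3⟩ := hst
  subst h1
  have e : TK A R T 0 p = T p := h.tk_low (Nat.zero_le _) (by omega) h3
  have hR := h.R0
  left
  rcases Nat.lt_or_ge p H with hp | hp
  · obtain ⟨y, hy, hb⟩ := h.fk p (by omega) hp
    rw [e, hy] at htr
    simp only [etr1, if_pos hb, Option.some.injEq, Prod.mk.injEq] at htr
    obtain ⟨rfl, rfl, rfl⟩ := htr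
    refine ⟨Or.inl (by rw [e, hy]; rfl), by omega, ?_⟩
    simp only [St, if_true]
    exact ⟨trivial, by omega, by omega⟩
  · have hpe : p = H := by omega
    subst hpe
    rw [e, h.fH] at htr
    simp only [etr1, EA.blk, Bool.false_eq_true, if_false, if_true, Option.some.injEq,
      Prod.mk.injEq] at htr
    obtain ⟨rfl, rfl, rfl⟩ := htr
    refine ⟨Or.inl (by rw [e, h.fH]; rfl), by omega, ?_⟩
    simp only [St, if_true]
    exact ⟨trivial, trivial⟩

theorem step_fr (h : TF k' L A H Z s t F G R S T) {p : ℕ} {q' : EQ} {x : EA ⊕ EW} {d : Bool}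
    (hst : St k' L A H Z s t F G R S T m .fr p)
    (htr : etr1 N K .fr (TK A R T m p) = some (q', x, d)) :
    Out k' L A H Z s t F G R S T m p q' x d := by
  obtain ⟨h1, h2⟩ := hst
  subst h1
  rw [← h.R0] at h2
  have e : TK A R T 0 p = T p := by rw [h2]; exact h.tk_fresh (Nat.zero_le _)
  rcases Nat.eq_zero_or_pos k' with hk | hk
  · exfalso
    have h3 := h.fe
    rw [hk, ← h2] at h3
    rw [e, h3] at htr
    simp [etr1] at htr
  · have h3 := h.fr 0 hk
    rw [← h2] at h3
    rw [e, h3] at htr
    simp only [etr1, Option.some.injEq, Prod.mk.injEq] at htr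
    obtain ⟨rfl, rfl, rfl⟩ := htr
    right
    refine ⟨h2, hk, rfl, ?_⟩
    simp only [St, Bool.false_eq_true, if_false]
    refine ⟨0, rfl, le_rfl, hk, fun x hx => absurd hx (Nat.not_lt_zero _), ?_⟩
    simp only [Row]
    have := h.R0
    omega

theorem step_lc (h : TF k' L A H Z s t F G R S T) {p j : ℕ} {q' : EQ} {x : EA ⊕ EW} {d : Bool}
    (hst : St k' L A H Z s t F G R S T m (.lc j) p)
    (htr : etr1 N K (.lc j) (TK A R T m p) = some (q', x, d)) :
    Out k' L A H Z s t F G R S T m p q' x d := by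
  obtain ⟨i, h1, h2, h3, h4, h5⟩ := hst
  left
  cases i with
  | zero =>
    have hpe : p = H := h5
    subst hpe
    have e : TK A R T m p = T p := h.tk_low h3 (by have := h.hAH; omega) le_rfl
    rw [e, h.fH] at htr
    simp only [etr1, EA.row, Bool.false_eq_true, if_false, if_true, Option.some.injEq,
      Prod.mk.injEq] at htr
    obtain ⟨rfl, rfl, rfl⟩ := htr
    refine ⟨Or.inl (by rw [e, h.fH]; rfl), Or.inl (h.hR h3), ?_⟩
    simp only [St, if_true]
    exact ⟨0, p, rfl, h1, h2, h3, h4, rfl⟩
  | succ i =>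
    obtain ⟨h5, h6⟩ := h5
    have hm : p < R m := lt_of_lt_of_le h6 (h.rle (by omega) h3)
    rcases Nat.eq_or_lt_of_le h5 with h7 | h7
    · subst h7
      have e := h.tk_mark (q := i) h3 (by omega)
      rw [e] at htr
      simp only [etr1] at htr
      split_ifs at htr with hj
      simp only [Option.some.injEq, Prod.mk.injEq] at htr
      obtain ⟨rfl, rfl, rfl⟩ := htr
      refine ⟨Or.inl (by rw [e]; rfl), Or.inl hm, ?_⟩
      simp only [St, Bool.false_eq_true, if_false]
      refine ⟨i, by omega, by omega, h3, h4, ?_⟩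
      cases i with
      | zero => simp only [Row]; have := h.R0; omega
      | succ i =>
        simp only [Row]
        have := h.rmono (q := i) (by omega)
        omega
    · have e := h.tk_in (m := m) h3 (by omega : i < k') h7 h6
      obtain ⟨y, hy, hb⟩ := h.rowl (by omega : i < k') h7 h6
      rw [e, hy] at htr
      simp only [etr1, if_pos hb, Option.some.injEq, Prod.mk.injEq] at htr
      obtain ⟨rfl, rfl, rfl⟩ := htr
      refine ⟨Or.inl (by rw [e, hy]; rfl), Or.inl hm, ?_⟩
      simp only [St, Bool.false_eq_true, if_false]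
      refine ⟨i + 1, h1, h2, h3, h4, ?_⟩
      simp only [Row]
      omega

theorem step_rc (h : TF k' L A H Z s t F G R S T) (hL : 1 ≤ L) {p j : ℕ} {q' : EQ}
    {x : EA ⊕ EW} {d : Bool}
    (hst : St k' L A H Z s t F G R S T m (.rc j) p)
    (htr : etr1 N K (.rc j) (TK A R T m p) = some (q', x, d)) :
    Out k' L A H Z s t F G R S T m p q' x d := by
  obtain ⟨i, p', rfl, h1, h2, h3, h4, h5⟩ := hst
  left
  have hR : R i < R (i + 1) := h.rmono (by omega)
  have hi : R (i + 1) ≤ R m := h.rle (by omega) h3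
  have h0 : (p' + 1 = R i) ∨ (∃ i', i = i' + 1 ∧ R i' < p' + 1 ∧ p' + 1 < R i) := by
    cases i with
    | zero =>
      have : p' = H := h5
      have := h.R0
      left; omega
    | succ i =>
      obtain ⟨h5, h6⟩ := h5
      by_cases hc : p' + 1 = R (i + 1)
      · left; exact hc
      · right; exact ⟨i, rfl, by omega, by omega⟩
  rcases h0 with h0 | ⟨i', rfl, h6, h7⟩
  · have e := h.tk_mark (q := i) h3 (by omega)
    rw [h0, e] at htr
    obtain ⟨j', rfl⟩ : ∃ j', j = j' + 1 := ⟨j - 1, by omega⟩
    cases j' with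
    | zero =>
      simp only [etr1, Option.some.injEq, Prod.mk.injEq] at htr
      obtain ⟨rfl, rfl, rfl⟩ := htr
      refine ⟨Or.inl (by rw [h0, e]; rfl), Or.inl (by omega), ?_⟩
      simp only [St, if_true]
      refine ⟨i, 0, ⟨i, by omega, by omega, le_rfl, by omega, rfl, ?_⟩, Nat.zero_le _, ?_⟩
      · have : m - 1 = i := by omega
        rw [← this]; exact h4
      · rw [h.S0 i (by omega), h0]
    | succ j' =>
      simp only [etr1, Option.some.injEq, Prod.mk.injEq] at htr
      obtain ⟨rfl, rfl, rfl⟩ := htr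
      refine ⟨Or.inl (by rw [h0, e]; rfl), Or.inl (by omega), ?_⟩
      simp only [St, if_true]
      refine ⟨i + 1, p' + 1, rfl, by omega, by omega, h3, h4, ?_⟩
      simp only [Row]
      omega
  · have e := h.tk_in (m := m) h3 (by omega : i' < k') h6 h7
    obtain ⟨y, hy, hb⟩ := h.rowl (by omega : i' < k') h6 h7
    rw [e, hy] at htr
    simp only [etr1, if_pos hb, Option.some.injEq, Prod.mk.injEq] at htr
    obtain ⟨rfl, rfl, rfl⟩ := htr
    refine ⟨Or.inl (by rw [e, hy]; rfl), Or.inl (by omega), ?_⟩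
    simp only [St, if_true]
    refine ⟨i' + 1, p' + 1, rfl, h1, h2, h3, h4, ?_⟩
    simp only [Row]
    omega

theorem step_ra (h : TF k' L A H Z s t F G R S T) {p i : ℕ} {q' : EQ}
    {x : EA ⊕ EW} {d : Bool}
    (hst : St k' L A H Z s t F G R S T m (.ra i) p)
    (htr : etr1 N K (.ra i) (TK A R T m p) = some (q', x, d)) :
    Out k' L A H Z s t F G R S T m p q' x d := by
  obtain ⟨r, l, hD, h1, h2⟩ := hst
  have hD' := hD
  obtain ⟨q, d1, d2, d3, d4, d5, d6⟩ := hD'
  left
  have hs := h.smono (q := r) (by omega) l (by omega)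
  have hs' := h.smono' (q := r) (by omega) (l := l + 1) (by omega)
  rw [h.SS r (by omega) l d4] at hs'
  have hin : p < R (r + 1) := by omega
  have hm : R (r + 1) ≤ R m := h.rle (by omega) (by omega)
  have e := h.tk_in (m := m) (by omega) (by omega : r < k') (p := p) (by omega) hin
  rcases Nat.eq_or_lt_of_le h1 with h3 | h3
  · have h4 := h.fd r (by omega) l d4
    rw [← h3, ← h2] at h4
    rw [e, h4] at htr
    simp only [etr1, Option.some.injEq, Prod.mk.injEq] at htr
    obtain ⟨rfl, rfl, rfl⟩ := htr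
    refine ⟨Or.inl (by rw [e, h4]; rfl), Or.inl (by omega), ?_⟩
    simp only [St, Bool.false_eq_true, if_false]
    have := h.hR (q := r) (by omega)
    exact ⟨r, l, hD, h3, rfl, by omega, by omega⟩
  · have h4 := h.fa r (by omega) l d4 i h3
    rw [← h2] at h4
    rw [e, h4] at htr
    simp only [etr1] at htr
    split_ifs at htr with hN
    simp only [Option.some.injEq, Prod.mk.injEq] at htr
    obtain ⟨rfl, rfl, rfl⟩ := htr
    refine ⟨Or.inl (by rw [e, h4]; rfl), Or.inl (by omega), ?_⟩
    simp only [St, if_true]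
    exact ⟨r, l, hD, h3, by omega⟩

theorem step_gl (h : TF k' L A H Z s t F G R S T) {p i : ℕ} {β : Bool} {q' : EQ}
    {x : EA ⊕ EW} {d : Bool}
    (hst : St k' L A H Z s t F G R S T m (.gl β i) p)
    (htr : etr1 N K (.gl β i) (TK A R T m p) = some (q', x, d)) :
    Out k' L A H Z s t F G R S T m p q' x d := by
  obtain ⟨r, l, hD, h1, h2, h3, h5⟩ := hst
  have hD' := hD
  obtain ⟨q, d1, d2, d3, d4, d5, d6⟩ := hD'
  have hm : m ≤ k' := by omega
  left
  rcases Nat.eq_or_lt_of_le h3 with h4 | h4
  · subst h4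
    have e : TK A R T m H = T H := h.tk_low hm (by have := h.hAH; omega) le_rfl
    rw [e, h.fH] at htr
    simp only [etr1, EA.row, Bool.false_eq_true, if_false, if_true, Option.some.injEq,
      Prod.mk.injEq] at htr
    obtain ⟨rfl, rfl, rfl⟩ := htr
    refine ⟨Or.inl (by rw [e, h.fH]; rfl), Or.inl (h.hR hm), ?_⟩
    simp only [St, Bool.false_eq_true, if_false]
    have := h.hAH
    exact ⟨r, l, hD, h1, h2, by omega, by omega⟩
  · obtain ⟨n, n1, n2, n3⟩ := h.cell h4 m hm h5
    rcases Nat.eq_or_lt_of_le n2 with n4 | n4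
    · have e := h.tk_mark (q := n) hm n1
      rw [n4] at e
      rw [e] at htr
      simp only [etr1, Option.some.injEq, Prod.mk.injEq] at htr
      obtain ⟨rfl, rfl, rfl⟩ := htr
      refine ⟨Or.inl (by rw [e]; rfl), Or.inl h5, ?_⟩
      simp only [St, Bool.false_eq_true, if_false]
      exact ⟨r, l, hD, h1, h2, by omega, by omega⟩
    · have e := h.tk_in hm (by omega : n < k') n4 n3
      obtain ⟨y, hy, hb⟩ := h.rowl (by omega : n < k') n4 n3
      rw [e, hy] at htr
      simp only [etr1, if_pos hb, Option.some.injEq, Prod.mk.injEq] at htr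
      obtain ⟨rfl, rfl, rfl⟩ := htr
      refine ⟨Or.inl (by rw [e, hy]; rfl), Or.inl h5, ?_⟩
      simp only [St, Bool.false_eq_true, if_false]
      exact ⟨r, l, hD, h1, h2, by omega, by omega⟩

theorem step_lf (h : TF k' L A H Z s t F G R S T) {p i : ℕ} {β : Bool} {q' : EQ}
    {x : EA ⊕ EW} {d : Bool}
    (hst : St k' L A H Z s t F G R S T m (.lf β i) p)
    (htr : etr1 N K (.lf β i) (TK A R T m p) = some (q', x, d)) :
    Out k' L A H Z s t F G R S T m p q' x d := by
  obtain ⟨r, l, hD, h1, h2, h3, h4⟩ := hst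
  have hD' := hD
  obtain ⟨q, d1, d2, d3, d4, d5, d6⟩ := hD'
  have hm : m ≤ k' := by omega
  have hR := h.hR hm
  left
  rcases Nat.eq_or_lt_of_le h3 with h5 | h5
  · subst h5
    rw [tk_A] at htr
    simp only [etr1, Option.some.injEq, Prod.mk.injEq] at htr
    obtain ⟨rfl, rfl, rfl⟩ := htr
    refine ⟨Or.inl (by rw [tk_A]; rfl), Or.inl (by omega), ?_⟩
    simp only [St, if_true]
    have := h.hAZ
    exact ⟨r, l, hD, h1, h2, by omega, by omega⟩
  · have e : TK A R T m p = T p := h.tk_low hm (by omega) h4.le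
    obtain ⟨y, hy, hb⟩ := h.fk p h3 h4
    rw [e, hy] at htr
    simp only [etr1, if_pos hb, Option.some.injEq, Prod.mk.injEq] at htr
    obtain ⟨rfl, rfl, rfl⟩ := htr
    refine ⟨Or.inl (by rw [e, hy]; rfl), Or.inl (by omega), ?_⟩
    simp only [St, Bool.false_eq_true, if_false]
    exact ⟨r, l, hD, h1, h2, by omega, by omega⟩

theorem step_se (h : TF k' L A H Z s t F G R S T) {p i : ℕ} {β : Bool} {q' : EQ}
    {x : EA ⊕ EW} {d : Bool}
    (hst : St k' L A H Z s t F G R S T m (.se β i) p)
    (htr : etr1 N K (.se β i) (TK A R T m p) = some (q', x, d) ∨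
      etr2 (.se β i) (TK A R T m p) = some (q', x, d)) :
    Out k' L A H Z s t F G R S T m p q' x d := by
  obtain ⟨r, l, hD, h1, h2, h3, h4⟩ := hst
  have hD' := hD
  obtain ⟨q, d1, d2, d3, d4, d5, d6⟩ := hD'
  have hm : m ≤ k' := by omega
  have hR := h.hR hm
  have hZH := h.hZH
  have e : TK A R T m p = T p := h.tk_low hm (by omega) (by omega)
  left
  rcases Nat.eq_or_lt_of_le h4 with h5 | h5
  · exfalso
    rw [e, h5] at htr
    rcases h.fZ with h6 | h6
    · rw [h6] at htr
      simp [etr1, etr2, EA.row] at htr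
    · rw [h6] at htr
      simp [etr1, etr2, EA.row] at htr
  · obtain ⟨y, hy, hb⟩ := h.fk p (by omega) (by omega)
    by_cases hc : y = .c
    · subst hc
      rw [e, hy] at htr
      rcases htr with htr | htr
      · simp only [etr1, Option.some.injEq, Prod.mk.injEq] at htr
        obtain ⟨rfl, rfl, rfl⟩ := htr
        refine ⟨Or.inl (by rw [e, hy]; rfl), Or.inl (by omega), ?_⟩
        simp only [St, if_true]
        obtain ⟨r1, l1, hE⟩ := h.fc p h3 h5 hy
        exact ⟨r, l, p, r1, l1, 0, hD, h2, hE, h3, h1, Nat.zero_le _, rfl⟩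
      · simp only [etr2, Option.some.injEq, Prod.mk.injEq] at htr
        obtain ⟨rfl, rfl, rfl⟩ := htr
        refine ⟨Or.inl (by rw [e, hy]; rfl), Or.inl (by omega), ?_⟩
        simp only [St, if_true]
        exact ⟨r, l, hD, h1, h2, by omega, by omega⟩
    · rw [e, hy] at htr
      have h6 : q' = .se β i ∧ x = .inl y ∧ d = true := by
        cases y <;> simp [etr1, etr2, EA.row] at htr hc ⊢ <;>
          exact ⟨htr.1.symm, htr.2.1.symm, htr.2.2⟩
      obtain ⟨rfl, rfl, rfl⟩ := h6
      refine ⟨Or.inl (by rw [e, hy]; rfl), Or.inl (by omega), ?_⟩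
      simp only [St, if_true]
      exact ⟨r, l, hD, h1, h2, by omega, by omega⟩

theorem step_ca (h : TF k' L A H Z s t F G R S T) (hP : PS k' L N s t) {p i : ℕ} {β : Bool}
    {q' : EQ} {x : EA ⊕ EW} {d : Bool}
    (hst : St k' L A H Z s t F G R S T m (.ca β i) p)
    (htr : etr1 N K (.ca β i) (TK A R T m p) = some (q', x, d)) :
    Out k' L A H Z s t F G R S T m p q' x d := by
  obtain ⟨r, l, e, r1, l1, u, hD, h1, hE, h2, h3, h4, h5⟩ := hst
  have hD' := hD
  obtain ⟨q, d1, d2, d3, d4, d5, d6⟩ := hD'
  have hE' := hE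
  obtain ⟨e1, e2, e3, e4, e5, e6⟩ := hE'
  have hm : m ≤ k' := by omega
  have hR := h.hR hm
  have hZH := h.hZH
  have e0 : TK A R T m p = T p := h.tk_low hm (by omega) (by omega)
  left
  rcases Nat.eq_or_lt_of_le h4 with h6 | h6
  · have h7 := e4 0 (hP.t1 r1 e1 l1 e2).1
    rw [Nat.add_zero, ← h6, ← h5] at h7
    rw [e0, h7] at htr
    cases i with
    | zero =>
      simp only [etr1, Option.some.injEq, Prod.mk.injEq] at htr
      obtain ⟨rfl, rfl, rfl⟩ := htr
      refine ⟨Or.inl (by rw [e0, h7]; rfl), Or.inl (by omega), ?_⟩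
      simp only [St, if_true]
      have h8 : s r1 l1 = s r l := by omega
      have h9 : l1 = l := hP.ls r1 e1 l1 e2 r (by omega) l d4 h8
      subst h9
      exact ⟨r, l1, e, r1, hD, h1, hE, h2, h8, le_rfl, (hP.t1 r1 e1 l1 e2).1, by omega⟩
    | succ i => simp [etr1] at htr
  · have h7 := e3 u h6
    rw [← h5] at h7
    rw [e0, h7] at htr
    cases i with
    | zero => simp [etr1] at htr
    | succ i =>
      simp only [etr1, Option.some.injEq, Prod.mk.injEq] at htr
      obtain ⟨rfl, rfl, rfl⟩ := htr
      refine ⟨Or.inl (by rw [e0, h7]; rfl), Or.inl (by omega), ?_⟩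
      simp only [St, if_true]
      exact ⟨r, l, e, r1, l1, u + 1, hD, h1, hE, h2, by omega, h6, by omega⟩

theorem step_cb (h : TF k' L A H Z s t F G R S T) {p j : ℕ} {β : Bool}
    {q' : EQ} {x : EA ⊕ EW} {d : Bool}
    (hst : St k' L A H Z s t F G R S T m (.cb β j) p)
    (htr : etr1 N K (.cb β j) (TK A R T m p) = some (q', x, d)) :
    Out k' L A H Z s t F G R S T m p q' x d := by
  obtain ⟨r, l, e, r1, hD, h1, hE, h2, h3, h4, h5, h6⟩ := hst
  have hD' := hD
  obtain ⟨q, d1, d2, d3, d4, d5, d6⟩ := hD'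
  have hE' := hE
  obtain ⟨e1, e2, e3, e4, e5, e6⟩ := hE'
  have hm : m ≤ k' := by omega
  have hR := h.hR hm
  have hZH := h.hZH
  have e0 : TK A R T m p = T p := h.tk_low hm (by omega) (by omega)
  left
  rcases Nat.eq_or_lt_of_le h5 with h7 | h7
  · have h8 := e5
    rw [← h7, ← h6] at h8
    rw [e0, h8] at htr
    simp only [etr1] at htr
    split_ifs at htr with hb
    simp only [Option.some.injEq, Prod.mk.injEq] at htr
    obtain ⟨rfl, rfl, rfl⟩ := htr
    refine ⟨Or.inl (by rw [e0, h8]; rfl), Or.inl (by omega), ?_⟩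
    simp only [St, if_true]
    exact ⟨r, l, r1, hD, e1, h3, hb.trans h1, h7, by omega, by omega⟩
  · have h8 := e4 j h7
    rw [← h6] at h8
    rw [e0, h8] at htr
    simp only [etr1] at htr
    split_ifs at htr with hb
    simp only [Option.some.injEq, Prod.mk.injEq] at htr
    obtain ⟨rfl, rfl, rfl⟩ := htr
    refine ⟨Or.inl (by rw [e0, h8]; rfl), Or.inl (by omega), ?_⟩
    simp only [St, if_true]
    exact ⟨r, l, e, r1, hD, h1, hE, h2, h3, by omega, h7, by omega⟩

theorem step_rt (h : TF k' L A H Z s t F G R S T) {p j : ℕ}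
    {q' : EQ} {x : EA ⊕ EW} {d : Bool}
    (hst : St k' L A H Z s t F G R S T m (.rt j) p)
    (htr : etr1 N K (.rt j) (TK A R T m p) = some (q', x, d)) :
    Out k' L A H Z s t F G R S T m p q' x d := by
  obtain ⟨r, l, r1, hD, h1, h2, h3, h4, h5, h6⟩ := hst
  have hD' := hD
  obtain ⟨q, d1, d2, d3, d4, d5, d6⟩ := hD'
  have hm : m ≤ k' := by omega
  have hR := h.hR hm
  have e : TK A R T m p = T p := h.tk_low hm (by omega) h6
  left
  rcases Nat.eq_or_lt_of_le h6 with h7 | h7
  · subst h7
    rw [e, h.fH] at htr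
    simp only [etr1, EA.blk, Bool.false_eq_true, if_false, if_true, Option.some.injEq,
      Prod.mk.injEq] at htr
    obtain ⟨rfl, rfl, rfl⟩ := htr
    refine ⟨Or.inl (by rw [e, h.fH]; rfl), Or.inl (by omega), ?_⟩
    simp only [St, if_true]
    exact ⟨r, l, r1, hD, h1, h2, h3, h4, by omega, by omega⟩
  · obtain ⟨y, hy, hb⟩ := h.fk p (by omega) h7
    rw [e, hy] at htr
    simp only [etr1, if_pos hb, Option.some.injEq, Prod.mk.injEq] at htr
    obtain ⟨rfl, rfl, rfl⟩ := htr
    refine ⟨Or.inl (by rw [e, hy]; rfl), Or.inl (by omega), ?_⟩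
    simp only [St, if_true]
    exact ⟨r, l, r1, hD, h1, h2, h3, h4, by omega, by omega⟩

theorem step_rh (h : TF k' L A H Z s t F G R S T) {p j : ℕ}
    {q' : EQ} {x : EA ⊕ EW} {d : Bool}
    (hst : St k' L A H Z s t F G R S T m (.rh j) p)
    (htr : etr1 N K (.rh j) (TK A R T m p) = some (q', x, d) ∨
      etr2 (.rh j) (TK A R T m p) = some (q', x, d)) :
    Out k' L A H Z s t F G R S T m p q' x d := by
  obtain ⟨r, l, r1, hD, h1, h2, h3, h4, h5, h6⟩ := hst
  have hD' := hD
  obtain ⟨q, d1, d2, d3, d4, d5, d6⟩ := hD'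
  have hm : m ≤ k' := by omega
  left
  rcases Nat.eq_or_lt_of_le h6 with h7 | h7
  · exfalso
    rw [h7, h.tk_fresh hm] at htr
    rcases Nat.eq_or_lt_of_le hm with h8 | h8
    · rw [h8, h.fe] at htr
      simp [etr1, etr2] at htr
    · rw [h.fr m h8] at htr
      simp [etr1, etr2, EA.row] at htr
  · obtain ⟨n, n1, n2, n3⟩ := h.cell h5 m hm h7
    rcases Nat.eq_or_lt_of_le n2 with n4 | n4
    · have e := h.tk_mark (q := n) hm n1
      rw [n4] at e
      rw [e] at htr
      simp only [etr1, etr2, Option.some.injEq, Prod.mk.injEq, reduceCtorEq, or_false] at htr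
      obtain ⟨rfl, rfl, rfl⟩ := htr
      refine ⟨Or.inl (by rw [e]; rfl), Or.inl h7, ?_⟩
      simp only [St, if_true]
      exact ⟨r, l, r1, hD, h1, h2, h3, h4, by omega, by omega⟩
    · have e := h.tk_in hm (by omega : n < k') n4 n3
      obtain ⟨y, hy, hb⟩ := h.rowl (by omega : n < k') n4 n3
      rcases htr with htr | htr
      · rw [e, hy] at htr
        simp only [etr1, if_pos hb, Option.some.injEq, Prod.mk.injEq] at htr
        obtain ⟨rfl, rfl, rfl⟩ := htr
        refine ⟨Or.inl (by rw [e, hy]; rfl), Or.inl h7, ?_⟩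
        simp only [St, if_true]
        exact ⟨r, l, r1, hD, h1, h2, h3, h4, by omega, by omega⟩
      · rw [e] at htr
        obtain ⟨l1, n5, n6 | ⟨n6, n7⟩ | n6⟩ := h.letter (by omega : n < k') n4 n3
        · rw [n6] at htr; simp [etr2] at htr
        · rw [n7] at htr
          simp only [etr2, Option.some.injEq, Prod.mk.injEq] at htr
          obtain ⟨rfl, rfl, rfl⟩ := htr
          refine ⟨Or.inl (by rw [e, n7]; rfl), Or.inl h7, ?_⟩
          simp only [St, if_true]
          exact ⟨r, l, r1, n, l1, 0, hD, h1, h2, h3, n1, n5, Nat.zero_le _, h4,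
            by omega⟩
        · rw [n6] at htr; simp [etr2] at htr

theorem step_bk (h : TF k' L A H Z s t F G R S T) (hP : PS k' L N s t) {p j : ℕ}
    {q' : EQ} {x : EA ⊕ EW} {d : Bool}
    (hst : St k' L A H Z s t F G R S T m (.bk j) p)
    (htr : etr1 N K (.bk j) (TK A R T m p) = some (q', x, d)) :
    Out k' L A H Z s t F G R S T m p q' x d := by
  obtain ⟨r, l, r1, p1, l1, v, hD, h1, h2, h3, h4, h5, h6, h7, h8⟩ := hst
  have hD' := hD
  obtain ⟨q, d1, d2, d3, d4, d5, d6⟩ := hD'
  have hm : m ≤ k' := by omega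
  have hp1 : p1 < k' := by omega
  have hs := h.smono hp1 l1 (by omega)
  have hs' := h.smono' hp1 (l := l1 + 1) (by omega)
  rw [h.SS p1 hp1 l1 h5] at hs'
  have hRm : R (p1 + 1) ≤ R m := h.rle (by omega) hm
  rcases Nat.eq_or_lt_of_le h6 with h9 | h9
  · -- behind the last letter `b`
    have hpe : p = S p1 (l1 + 1) := by rw [h.SS p1 hp1 l1 h5]; omega
    -- what is known for `j = 0`
    have key : j = 0 → l1 = l ∧ Ph k' s t F G q (l + 1) p1 := by
      intro hj
      have h10 : t r1 l = t p1 l1 := by omega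
      have h11 : l = l1 := hP.lt r1 h1 l d4 p1 hp1 l1 h5 h10
      subst h11
      exact ⟨rfl, by omega, r, r1, d5, h1, h2, h10, h3⟩
    rcases Nat.lt_or_ge (l1 + 1) L with h10 | h10
    · left
      have h11 := h.fa p1 hp1 (l1 + 1) h10 0 (hP.s1 p1 hp1 (l1 + 1) h10).1
      rw [Nat.add_zero, ← hpe] at h11
      have h12 := h.smono' hp1 (l := l1 + 1 + 1) (by omega)
      rw [h.SS p1 hp1 (l1 + 1) h10, ← hpe] at h12
      have e := h.tk_in hm hp1 (p := p) (by omega) (by omega)
      rw [e, h11] at htr
      cases j with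
      | zero =>
        obtain ⟨rfl, hk⟩ := key rfl
        simp only [etr1, Option.some.injEq, Prod.mk.injEq] at htr
        obtain ⟨rfl, rfl, rfl⟩ := htr
        refine ⟨Or.inl (by rw [e, h11]; rfl), Or.inl (by omega), ?_⟩
        simp only [St, if_true]
        refine ⟨p1, l1 + 1, ⟨q, d1, d2, by omega, h10, hk, d6⟩,
          (hP.s1 p1 hp1 (l1 + 1) h10).1, by omega⟩
      | succ j => simp [etr1] at htr
    · have hL : l1 + 1 = L := by omega
      rw [hL, h.SL p1 hp1] at hpe
      rcases Nat.lt_or_ge (p1 + 1) m with h11 | h11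
      · exfalso
        rw [hpe, h.tk_mark hm h11] at htr
        cases j <;> simp [etr1] at htr
      · have hpm : p1 + 1 = m := by omega
        rw [hpm] at hpe
        have hq : p1 = q := by omega
        have hdn : j = 0 → Dn k' L s t F G m := by
          intro hj y hy
          rcases Nat.lt_or_ge y q with h12 | h12
          · exact d6 y h12
          · have : y = q := by omega
            subst this
            obtain ⟨e1, e2⟩ := key hj
            rw [← e1, hL, hq] at e2
            exact e2
        rcases Nat.lt_or_ge m k' with h12 | h12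
        · right
          rw [hpe, h.tk_fresh hm, h.fr m h12] at htr
          cases j with
          | zero =>
            simp only [etr1, Option.some.injEq, Prod.mk.injEq] at htr
            obtain ⟨rfl, rfl, rfl⟩ := htr
            refine ⟨hpe, h12, rfl, ?_⟩
            simp only [St, Bool.false_eq_true, if_false]
            refine ⟨m, rfl, le_rfl, h12, hdn rfl, ?_⟩
            rw [← hpm]
            simp only [Row]
            have := h.rmono hp1
            rw [hpe, ← hpm]
            omega
          | succ j => simp [etr1] at htr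
        · left
          have hmk : m = k' := by omega
          rw [hpe, h.tk_fresh hm, hmk, h.fe] at htr
          cases j with
          | zero =>
            simp only [etr1, Option.some.injEq, Prod.mk.injEq] at htr
            obtain ⟨rfl, rfl, rfl⟩ := htr
            have hpk : p = R k' := by rw [hpe, hmk]
            refine ⟨Or.inr hpk, Or.inr hpk, ?_⟩
            simp only [St]
            intro y hy
            exact hdn rfl y (by omega)
          | succ j => simp [etr1] at htr
  · left
    have h10 := h.fb p1 hp1 l1 h5 v h9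
    rw [← h8] at h10
    have e := h.tk_in hm hp1 (p := p) (by omega) (by omega)
    rw [e, h10] at htr
    cases j with
    | zero => simp [etr1] at htr
    | succ j =>
      simp only [etr1, Option.some.injEq, Prod.mk.injEq] at htr
      obtain ⟨rfl, rfl, rfl⟩ := htr
      refine ⟨Or.inl (by rw [e, h10]; rfl), Or.inl (by omega), ?_⟩
      simp only [St, if_true]
      exact ⟨r, l, r1, p1, l1, v + 1, hD, h1, h2, h3, h4, h5, h9, by omega, by omega⟩

theorem st_step (h : TF k' L A H Z s t F G R S T) (hP : PS k' L N s t) (hL : 1 ≤ L)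
    {q q' : EQ} {p : ℕ} {x : EA ⊕ EW} {d : Bool}
    (hst : St k' L A H Z s t F G R S T m q p)
    (htr : etr1 N K q (TK A R T m p) = some (q', x, d) ∨
      etr2 q (TK A R T m p) = some (q', x, d)) :
    Out k' L A H Z s t F G R S T m p q' x d := by
  cases q with
  | scan => exact hst.elim
  | mid => exact step_mid h hst (htr.resolve_right (by simp [etr2]))
  | fr => exact step_fr h hst (htr.resolve_right (by simp [etr2]))
  | fin =>
    exfalso
    rcases htr with htr | htr
    · simp [etr1] at htr
    · simp [etr2] at htr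
  | lc j => exact step_lc h hst (htr.resolve_right (by simp [etr2]))
  | rc j => exact step_rc h hL hst (htr.resolve_right (by simp [etr2]))
  | ra i => exact step_ra h hst (htr.resolve_right (by simp [etr2]))
  | gl β i => exact step_gl h hst (htr.resolve_right (by simp [etr2]))
  | lf β i => exact step_lf h hst (htr.resolve_right (by simp [etr2]))
  | se β i => exact step_se h hst htr
  | ca β i => exact step_ca h hP hst (htr.resolve_right (by simp [etr2]))
  | cb β j => exact step_cb h hst (htr.resolve_right (by simp [etr2]))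
  | rt j => exact step_rt h hst (htr.resolve_right (by simp [etr2]))
  | rh j => exact step_rh h hst htr
  | bk j => exact step_bk h hP hst (htr.resolve_right (by simp [etr2]))

/-- the new tape after the marking of the row `m` -/
theorem TF.tk_update (h : TF k' L A H Z s t F G R S T) (hm : m < k') :
    Function.update (TK A R T m) (R m) (.wrk .mr) = TK A R T (m + 1) := by
  funext i
  have := h.hR hm.le
  have := h.hAH
  by_cases hi : i = R m
  · subst hi
    rw [Function.update_self, h.tk_mark (q := m) (m := m + 1) (by omega) (by omega)]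
  · rw [Function.update_of_ne hi]
    unfold TK
    by_cases h1 : i = A
    · rw [if_pos h1, if_pos h1]
    · rw [if_neg h1, if_neg h1]
      by_cases h2 : ∃ q < m, i = R q
      · obtain ⟨q, h3, h4⟩ := h2
        rw [if_pos ⟨q, h3, h4⟩, if_pos ⟨q, by omega, h4⟩]
      · rw [if_neg h2, if_neg]
        rintro ⟨q, h3, h4⟩
        rcases Nat.lt_or_ge q m with h5 | h5
        · exact h2 ⟨q, h5, h4⟩
        · have : q = m := by omega
          rw [this] at h4
          exact hi h4

end

/-! ### The test words -/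

/-- the block of a flattened list that contains a given index -/
theorem flat_split {α β : Type} (f : α → List β) : ∀ (l : List α) (k : ℕ),
    k < (l.flatMap f).length → ∃ l1 x l2, l = l1 ++ x :: l2 ∧ (l1.flatMap f).length ≤ k ∧
      k < (l1.flatMap f).length + (f x).length := by
  intro l
  induction l with
  | nil => intro k hk; simp at hk
  | cons a l ih =>
    intro k hk
    rcases Nat.lt_or_ge k (f a).length with h1 | h1
    · exact ⟨[], a, l, rfl, by simp, by simpa using h1⟩
    · have h2 : k - (f a).length < (l.flatMap f).length := by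
        rw [List.flatMap_cons, List.length_append] at hk
        omega
      obtain ⟨l1, x, l2, e, h3, h4⟩ := ih _ h2
      refine ⟨a :: l1, x, l2, by rw [e]; rfl, ?_, ?_⟩
      · rw [List.flatMap_cons, List.length_append]; omega
      · rw [List.flatMap_cons, List.length_append]; omega

/-- the start of the part `n` of a list of lists -/
def off {β : Type} (f : ℕ → List β) (n : ℕ) : ℕ := ((List.range n).flatMap f).length

theorem off_zero {β : Type} (f : ℕ → List β) : off f 0 = 0 := rfl

theorem off_succ {β : Type} (f : ℕ → List β) (n : ℕ) : off f (n + 1) = off f n + (f n).length := by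
  simp [off, List.range_succ, List.flatMap_append, List.flatMap_singleton]

theorem off_get {β : Type} (f : ℕ → List β) {n M : ℕ} (hn : n < M) {u : ℕ}
    (hu : u < (f n).length) : ((List.range M).flatMap f)[off f n + u]? = (f n)[u]? := by
  induction M with
  | zero => exact absurd hn (Nat.not_lt_zero _)
  | succ M ih =>
    rw [List.range_succ, List.flatMap_append, List.flatMap_singleton]
    rcases Nat.lt_succ_iff_lt_or_eq.1 hn with h1 | h1
    · have h2 : off f n + u < ((List.range M).flatMap f).length := by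
        by_contra h3
        have h4 := ih h1
        rw [List.getElem?_eq_none (by omega), List.getElem?_eq_getElem hu] at h4
        cases h4
      rw [List.getElem?_append_left h2]
      exact ih h1
    · subst h1
      rw [List.getElem?_append_right (by unfold off; omega)]
      congr 1
      unfold off
      omega

/-- the entries of a block -/
def body (k' L : ℕ) (s t : ℕ → ℕ → ℕ) (F : ℕ → ℕ → Bool) : List EA :=
  (List.range k').flatMap fun q => (List.range L).flatMap fun l => eE (s q l) (t q l) (F q l)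

theorem eB_eq (k' L : ℕ) (s t : ℕ → ℕ → ℕ) (F : ℕ → ℕ → Bool) :
    eB k' L s t F = EA.s :: body k' L s t F := rfl

theorem eE_length (i j : ℕ) (β : Bool) : (eE i j β).length = i + j + 2 := by
  simp [eE]
  omega

theorem eE_mem {i j : ℕ} {β : Bool} {x : EA} (h : x ∈ eE i j β) :
    x.blk = true ∧ x ≠ .s := by
  simp only [eE, List.mem_cons, List.mem_append, List.mem_replicate, List.not_mem_nil,
    or_false] at h
  rcases h with rfl | ⟨-, rfl⟩ | ⟨-, rfl⟩ | rfl <;> simp [EA.blk]

theorem body_mem {k' L : ℕ} {s t : ℕ → ℕ → ℕ} {F : ℕ → ℕ → Bool} {x : EA}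
    (h : x ∈ body k' L s t F) : x.blk = true ∧ x ≠ .s := by
  simp only [body, List.mem_flatMap, List.mem_range] at h
  obtain ⟨j, -, i, -, h⟩ := h
  exact eE_mem h

theorem eX_mem {k' L : ℕ} {s t : ℕ → ℕ → ℕ} {Fs : List (ℕ → ℕ → Bool)} {x : EA}
    (h : x ∈ eX k' L s t Fs) : x.blk = true := by
  simp only [eX, List.mem_flatMap] at h
  obtain ⟨F, -, h⟩ := h
  rw [eB_eq, List.mem_cons] at h
  rcases h with rfl | h
  · rfl
  · exact (body_mem h).1

theorem eY_mem {k' L : ℕ} {s t : ℕ → ℕ → ℕ} {G : ℕ → ℕ → Bool} {x : EA}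
    (h : x ∈ eY k' L s t G) : x ≠ .s := by
  simp only [eY, eS, List.mem_cons, List.mem_flatMap, List.mem_range, List.mem_append,
    List.mem_replicate] at h
  rcases h with rfl | ⟨j, -, rfl | ⟨i, -, ⟨-, rfl⟩ | rfl | ⟨-, rfl⟩⟩⟩ <;> simp

theorem eE_c {i j k : ℕ} {β : Bool} (h : (eE i j β)[k]? = some EA.c) : k = 0 := by
  cases k with
  | zero => rfl
  | succ k =>
    exfalso
    rw [eE, List.getElem?_cons_succ] at h
    have h1 := List.mem_of_getElem? h
    simp only [List.mem_append, List.mem_replicate, List.mem_singleton] at h1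
    rcases h1 with ⟨-, h1⟩ | ⟨-, h1⟩ | h1 <;> cases h1

theorem eE_get {i j : ℕ} {β : Bool} :
    (∀ u < i, (eE i j β)[1 + u]? = some .a) ∧ (∀ u < j, (eE i j β)[1 + i + u]? = some .b) ∧
      (eE i j β)[1 + i + j]? = some (.d β) := by
  have e : ∀ u, (eE i j β)[u + 1]? =
      (List.replicate i EA.a ++ (List.replicate j EA.b ++ [EA.d β]))[u]? := by
    intro u
    rw [eE, List.getElem?_cons_succ]
  refine ⟨?_, ?_, ?_⟩
  · intro u hu
    rw [Nat.add_comm, e, List.getElem?_append_left (by simpa using hu),
      List.getElem?_replicate, if_pos hu]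
  · intro u hu
    have e1 : 1 + i + u = (i + u) + 1 := by ring
    rw [e1, e, List.getElem?_append_right (by simp), List.length_replicate,
      Nat.add_sub_cancel_left, List.getElem?_append_left (by simpa using hu),
      List.getElem?_replicate, if_pos hu]
  · have e1 : 1 + i + j = (i + j) + 1 := by ring
    rw [e1, e, List.getElem?_append_right (by simp), List.length_replicate,
      Nat.add_sub_cancel_left, List.getElem?_append_right (by simp), List.length_replicate,
      Nat.sub_self]
    rfl

theorem eS_length (i j : ℕ) (β : Bool) : (eS i j β).length = i + 1 + j := by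
  simp [eS]
  omega

theorem eS_get {i j : ℕ} {β : Bool} :
    (∀ u < i, (eS i j β)[u]? = some .a) ∧ (eS i j β)[i]? = some (.d β) ∧
      (∀ u < j, (eS i j β)[i + 1 + u]? = some .b) := by
  unfold eS
  refine ⟨?_, ?_, ?_⟩
  · intro u hu
    rw [List.getElem?_append_left (by simpa using hu), List.getElem?_replicate, if_pos hu]
  · rw [List.getElem?_append_right (by simp), List.length_replicate, Nat.sub_self]
    rfl
  · intro u hu
    rw [List.getElem?_append_right (by simp; omega), List.length_replicate]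
    have e1 : i + 1 + u - i = u + 1 := by omega
    rw [e1, List.getElem?_cons_succ, List.getElem?_replicate, if_pos hu]

/-- every `c` of a block starts an entry -/
theorem body_c {k' L : ℕ} {s t : ℕ → ℕ → ℕ} {F : ℕ → ℕ → Bool} {k : ℕ}
    (h : (body k' L s t F)[k]? = some EA.c) :
    ∃ r l P Q, r < k' ∧ l < L ∧ body k' L s t F = P ++ (eE (s r l) (t r l) (F r l) ++ Q) ∧
      P.length = k := by
  have hk : k < (body k' L s t F).length := by
    by_contra hc
    rw [List.getElem?_eq_none (by omega)] at h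
    cases h
  obtain ⟨l1, r, l2, e1, h1, h2⟩ := flat_split _ _ _ hk
  have hr : r < k' := by
    have : r ∈ List.range k' := by rw [e1]; simp
    exact List.mem_range.1 this
  have e2 : body k' L s t F = (l1.flatMap fun q => (List.range L).flatMap fun l =>
      eE (s q l) (t q l) (F q l)) ++ (((List.range L).flatMap fun l =>
        eE (s r l) (t r l) (F r l)) ++
        (l2.flatMap fun q => (List.range L).flatMap fun l => eE (s q l) (t q l) (F q l))) := by
    rw [body, e1, List.flatMap_append, List.flatMap_cons]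
  set P1 := l1.flatMap fun q => (List.range L).flatMap fun l => eE (s q l) (t q l) (F q l)
  set Q1 := l2.flatMap fun q => (List.range L).flatMap fun l => eE (s q l) (t q l) (F q l)
  have h3 : k - P1.length < ((List.range L).flatMap fun l =>
      eE (s r l) (t r l) (F r l)).length := by omega
  obtain ⟨l3, l, l4, e3, h4, h5⟩ := flat_split _ _ _ h3
  have hl : l < L := by
    have : l ∈ List.range L := by rw [e3]; simp
    exact List.mem_range.1 this
  have e4 : ((List.range L).flatMap fun l => eE (s r l) (t r l) (F r l)) =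
      (l3.flatMap fun l => eE (s r l) (t r l) (F r l)) ++ (eE (s r l) (t r l) (F r l) ++
        (l4.flatMap fun l => eE (s r l) (t r l) (F r l))) := by
    rw [e3, List.flatMap_append, List.flatMap_cons]
  set P2 := l3.flatMap fun l => eE (s r l) (t r l) (F r l)
  set Q2 := l4.flatMap fun l => eE (s r l) (t r l) (F r l)
  have e5 : body k' L s t F = (P1 ++ P2) ++ (eE (s r l) (t r l) (F r l) ++ (Q2 ++ Q1)) := by
    rw [e2, e4]
    simp only [List.append_assoc]
  refine ⟨r, l, P1 ++ P2, Q2 ++ Q1, hr, hl, e5, ?_⟩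
  rw [e5, List.getElem?_append_right (by rw [List.length_append]; omega),
    List.getElem?_append_left (by rw [List.length_append]; omega)] at h
  have h6 := eE_c h
  rw [List.length_append] at h6 ⊢
  omega

section

variable {N K : ℕ} {w : List EA}

theorem iT_zero : (em N K).initTape w 0 = .lend := by simp [Mach.initTape]

theorem iT_succ (i : ℕ) (y : EA) (h : w[i]? = some y) :
    (em N K).initTape w (i + 1) = .inp y := by
  simp [Mach.initTape, h]

theorem iT_end (p : ℕ) (h : w.length < p) : (em N K).initTape w p = .rend := by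
  have h0 : p ≠ 0 := by omega
  have h1 : w[p - 1]? = none := List.getElem?_eq_none (by omega)
  simp [Mach.initTape, h0, h1]

theorem iT_inv {i : ℕ} {y : EA} (h : (em N K).initTape w (i + 1) = .inp y) :
    w[i]? = some y := by
  unfold Mach.initTape at h
  rw [if_neg (by omega), Nat.add_sub_cancel] at h
  cases hw : w[i]? with
  | none => rw [hw] at h; cases h
  | some z => rw [hw] at h; exact congrArg some (Sym.inp.inj h)

end

/-- a row of the test -/
def rw' (L : ℕ) (s t : ℕ → ℕ → ℕ) (G : ℕ → ℕ → Bool) (q : ℕ) : List EA :=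
  EA.r :: (List.range L).flatMap fun l => eS (s q l) (t q l) (G q l)

/-- the position of the row `q` of the test -/
def Rr (k' L : ℕ) (s t : ℕ → ℕ → ℕ) (Fs : List (ℕ → ℕ → Bool)) (G : ℕ → ℕ → Bool)
    (q : ℕ) : ℕ := (eX k' L s t Fs).length + 2 + off (rw' L s t G) q

/-- the position of the segment `(q, l)` of the test -/
def Ss (k' L : ℕ) (s t : ℕ → ℕ → ℕ) (Fs : List (ℕ → ℕ → Bool)) (G : ℕ → ℕ → Bool)
    (q l : ℕ) : ℕ := Rr k' L s t Fs G q + 1 + off (fun l => eS (s q l) (t q l) (G q l)) l

theorem w_length (k' L : ℕ) (s t : ℕ → ℕ → ℕ) (Fs : List (ℕ → ℕ → Bool))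
    (G : ℕ → ℕ → Bool) :
    (eX k' L s t Fs ++ eY k' L s t G).length + 1 = Rr k' L s t Fs G k' := by
  have : (eY k' L s t G).length = off (rw' L s t G) k' + 1 := rfl
  rw [List.length_append, this, Rr]
  omega

/-- the layout of the input -/
theorem lay (N K k' L : ℕ) (s t : ℕ → ℕ → ℕ) (Fs l1 l2 : List (ℕ → ℕ → Bool))
    (F G : ℕ → ℕ → Bool) (e : Fs = l1 ++ F :: l2) :
    TF k' L ((eX k' L s t l1).length + 1) ((eX k' L s t Fs).length + 1)
      ((eX k' L s t l1).length + 1 + (eB k' L s t F).length) s t F G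
      (Rr k' L s t Fs G) (Ss k' L s t Fs G)
      ((em N K).initTape (eX k' L s t Fs ++ eY k' L s t G)) := by
  have eXe : eX k' L s t Fs = eX k' L s t l1 ++ (eB k' L s t F ++ eX k' L s t l2) := by
    rw [e, eX, List.flatMap_append, List.flatMap_cons]
    rfl
  have lX : (eX k' L s t Fs).length = (eX k' L s t l1).length + ((eB k' L s t F).length +
      (eX k' L s t l2).length) := by rw [eXe, List.length_append, List.length_append]
  have lB : (eB k' L s t F).length = (body k' L s t F).length + 1 := by
    rw [eB_eq, List.length_cons]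
  have gY : ∀ q < k', ∀ o < (rw' L s t G q).length,
      (em N K).initTape (eX k' L s t Fs ++ eY k' L s t G) (Rr k' L s t Fs G q + o) =
      (em N K).initTape (rw' L s t G q) (o + 1) := by
    intro q hq o ho
    have h1 : (eX k' L s t Fs ++ eY k' L s t G)[(eX k' L s t Fs).length + 1 +
        (off (rw' L s t G) q + o)]? = (rw' L s t G q)[o]? := by
      rw [List.getElem?_append_right (by omega)]
      have e1 : (eX k' L s t Fs).length + 1 + (off (rw' L s t G) q + o) -
          (eX k' L s t Fs).length = (off (rw' L s t G) q + o) + 1 := by omega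
      rw [e1]
      show (EA.h :: (List.range k').flatMap (rw' L s t G))[_ + 1]? = _
      rw [List.getElem?_cons_succ]
      exact off_get _ hq ho
    have e2 : Rr k' L s t Fs G q + o = ((eX k' L s t Fs).length + 1 +
        (off (rw' L s t G) q + o)) + 1 := by unfold Rr; ring
    rw [List.getElem?_eq_getElem ho] at h1
    rw [e2, iT_succ _ _ h1, iT_succ _ _ (List.getElem?_eq_getElem ho)]
  have gS : ∀ q < k', ∀ l < L, ∀ u < (eS (s q l) (t q l) (G q l)).length,
      (em N K).initTape (eX k' L s t Fs ++ eY k' L s t G) (Ss k' L s t Fs G q l + u) =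
      (em N K).initTape (eS (s q l) (t q l) (G q l)) (u + 1) := by
    intro q hq l hl u hu
    have h1 := off_get (fun l => eS (s q l) (t q l) (G q l)) hl hu
    have h2 : (rw' L s t G q)[off (fun l => eS (s q l) (t q l) (G q l)) l + u + 1]? =
        (eS (s q l) (t q l) (G q l))[u]? := by
      rw [rw', List.getElem?_cons_succ]
      exact h1
    rw [List.getElem?_eq_getElem hu] at h2
    have h3 : off (fun l => eS (s q l) (t q l) (G q l)) l + u + 1 < (rw' L s t G q).length := by
      by_contra hc
      rw [List.getElem?_eq_none (by omega)] at h2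
      cases h2
    have h4 := gY q hq _ h3
    rw [iT_succ _ _ h2] at h4
    rw [iT_succ _ _ (List.getElem?_eq_getElem hu), ← h4]
    congr 1
    unfold Ss
    omega
  have gB : ∀ k < (eB k' L s t F).length, (eX k' L s t Fs ++ eY k' L s t G)[
      (eX k' L s t l1).length + k]? = (eB k' L s t F)[k]? := by
    intro k hk
    rw [List.getElem?_append_left (by omega), eXe, List.getElem?_append_right (by omega),
      Nat.add_sub_cancel_left, List.getElem?_append_left hk]
  have rl : ∀ q, 0 < (rw' L s t G q).length := by intro q; simp [rw']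
  refine ⟨by omega, by omega, by omega, ?_, ?_, ?_, ?_, ?_, ?_, ?_, ?_, ?_, ?_, ?_, ?_, ?_⟩
  · apply iT_succ
    rw [List.getElem?_append_right le_rfl, Nat.sub_self]
    rfl
  · simp [Rr, off_zero]
  · intro q _
    simp [Ss, off_zero]
  · intro q _
    show Rr k' L s t Fs G q + 1 + off (fun l => eS (s q l) (t q l) (G q l)) L =
      (eX k' L s t Fs).length + 2 + off (rw' L s t G) (q + 1)
    rw [off_succ]
    have : (rw' L s t G q).length = off (fun l => eS (s q l) (t q l) (G q l)) L + 1 := rfl
    rw [this]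
    unfold Rr
    omega
  · intro q _ l _
    unfold Ss
    rw [off_succ, eS_length]
    omega
  · intro q hq
    have h1 := gY q hq 0 (rl q)
    rw [Nat.add_zero] at h1
    rw [h1]
    exact iT_succ _ _ rfl
  · intro q hq l hl u hu
    rw [gS q hq l hl u (by rw [eS_length]; omega)]
    exact iT_succ _ _ (eS_get.1 u hu)
  · intro q hq l hl
    rw [gS q hq l hl _ (by rw [eS_length]; omega)]
    exact iT_succ _ _ eS_get.2.1
  · intro q hq l hl u hu
    rw [Nat.add_assoc (Ss k' L s t Fs G q l + s q l) 1 u, Nat.add_assoc,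
      gS q hq l hl _ (by rw [eS_length]; omega)]
    apply iT_succ
    rw [← Nat.add_assoc]
    exact eS_get.2.2 u hu
  · apply iT_end
    have := w_length k' L s t Fs G
    omega
  · intro p h1 h2
    obtain ⟨i, rfl⟩ : ∃ i, p = i + 1 := ⟨p - 1, by omega⟩
    have h3 : i < (eX k' L s t Fs).length := by omega
    have h4 : (eX k' L s t Fs ++ eY k' L s t G)[i]? = some ((eX k' L s t Fs)[i]) := by
      rw [List.getElem?_append_left h3, List.getElem?_eq_getElem h3]
    exact ⟨_, iT_succ _ _ h4, eX_mem (List.getElem_mem h3)⟩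
  · cases l2 with
    | nil =>
      right
      have e1 : (eX k' L s t l1).length + 1 + (eB k' L s t F).length =
          (eX k' L s t Fs).length + 1 := by
        rw [lX]
        simp [eX]
        omega
      rw [e1]
      apply iT_succ
      rw [List.getElem?_append_right le_rfl, Nat.sub_self]
      rfl
    | cons F' l3 =>
      left
      have e1 : (eX k' L s t l1).length + 1 + (eB k' L s t F).length =
          ((eX k' L s t l1).length + (eB k' L s t F).length) + 1 := by omega
      have e2 : eX k' L s t (F' :: l3) = EA.s :: (body k' L s t F' ++ eX k' L s t l3) := by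
        simp only [eX, List.flatMap_cons, eB_eq, List.cons_append]
      rw [e1]
      apply iT_succ
      rw [List.getElem?_append_left (by rw [lX, e2, List.length_cons]; omega), eXe,
        List.getElem?_append_right (by omega), Nat.add_sub_cancel_left,
        List.getElem?_append_right le_rfl, Nat.sub_self, e2]
      rfl
  · intro p h1 h2 h3
    obtain ⟨k, rfl⟩ : ∃ k, p = (eX k' L s t l1).length + (k + 1) + 1 :=
      ⟨p - ((eX k' L s t l1).length + 2), by omega⟩
    have h4 := iT_inv h3
    rw [gB _ (by omega), eB_eq, List.getElem?_cons_succ] at h4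
    obtain ⟨r, l, P, Q, a1, a2, a5, a6⟩ := body_c h4
    have lE := eE_length (s r l) (t r l) (F r l)
    have hlen : (body k' L s t F).length = P.length +
        ((eE (s r l) (t r l) (F r l)).length + Q.length) := by
      rw [a5, List.length_append, List.length_append]
    have gE : ∀ u < (eE (s r l) (t r l) (F r l)).length,
        (eX k' L s t Fs ++ eY k' L s t G)[(eX k' L s t l1).length +
        (k + u + 1)]? = (eE (s r l) (t r l) (F r l))[u]? := by
      intro u hu
      rw [gB _ (by omega), eB_eq, List.getElem?_cons_succ, a5,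
        List.getElem?_append_right (by omega)]
      have e1 : k + u - P.length = u := by omega
      rw [e1, List.getElem?_append_left hu]
    obtain ⟨g1, g2, g3⟩ := eE_get (i := s r l) (j := t r l) (β := F r l)
    refine ⟨r, l, a1, a2, ?_, ?_, ?_, by omega⟩
    · intro u hu
      have e1 : (eX k' L s t l1).length + (k + 1) + 1 + 1 + u =
          ((eX k' L s t l1).length + (k + (1 + u) + 1)) + 1 := by ring
      rw [e1]
      apply iT_succ _ _
      rw [gE _ (by omega)]
      exact g1 u hu
    · intro u hu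
      have e1 : (eX k' L s t l1).length + (k + 1) + 1 + 1 + s r l + u =
          ((eX k' L s t l1).length + (k + (1 + s r l + u) + 1)) + 1 := by ring
      rw [e1]
      apply iT_succ _ _
      rw [gE _ (by omega)]
      exact g2 u hu
    · have e1 : (eX k' L s t l1).length + (k + 1) + 1 + 1 + s r l + t r l =
          ((eX k' L s t l1).length + (k + (1 + s r l + t r l) + 1)) + 1 := by ring
      rw [e1]
      apply iT_succ _ _
      rw [gE _ (by omega)]
      exact g3

/-- a separator is the start of a block -/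
theorem is_s {N K k' L : ℕ} {s t : ℕ → ℕ → ℕ} {Fs : List (ℕ → ℕ → Bool)}
    {G : ℕ → ℕ → Bool} {p : ℕ} (hp : 1 ≤ p)
    (h : (em N K).initTape (eX k' L s t Fs ++ eY k' L s t G) p = .inp .s) :
    ∃ l1 F l2, Fs = l1 ++ F :: l2 ∧ p = (eX k' L s t l1).length + 1 := by
  obtain ⟨i, rfl⟩ : ∃ i, p = i + 1 := ⟨p - 1, by omega⟩
  have h1 := iT_inv h
  rcases Nat.lt_or_ge i (eX k' L s t Fs).length with h2 | h2
  · rw [List.getElem?_append_left h2] at h1
    obtain ⟨l1, F, l2, e, h3, h4⟩ := flat_split _ _ _ h2
    refine ⟨l1, F, l2, e, ?_⟩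
    have eXe : eX k' L s t Fs = eX k' L s t l1 ++ (eB k' L s t F ++ eX k' L s t l2) := by
      rw [e, eX, List.flatMap_append, List.flatMap_cons]
      rfl
    have h3' : (eX k' L s t l1).length ≤ i := h3
    have h4' : i < (eX k' L s t l1).length + (eB k' L s t F).length := h4
    rw [eXe, List.getElem?_append_right h3', List.getElem?_append_left (by omega), eB_eq] at h1
    rcases Nat.eq_zero_or_pos (i - (eX k' L s t l1).length) with h5 | h5
    · omega
    · exfalso
      obtain ⟨k, hk⟩ : ∃ k, i - (eX k' L s t l1).length = k + 1 :=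
        ⟨i - (eX k' L s t l1).length - 1, by omega⟩
      rw [hk, List.getElem?_cons_succ] at h1
      exact (body_mem (List.mem_of_getElem? h1)).2 rfl
  · exfalso
    rw [List.getElem?_append_right h2] at h1
    exact eY_mem (List.mem_of_getElem? h1) rfl

/-- the invariant -/
def Inv (N K k' L : ℕ) (s t : ℕ → ℕ → ℕ) (Fs : List (ℕ → ℕ → Bool)) (G : ℕ → ℕ → Bool)
    (c : (em N K).Cfg) : Prop :=
  (c.st = EQ.scan ∧ c.tape = (em N K).initTape (eX k' L s t Fs ++ eY k' L s t G) ∧
    1 ≤ c.pos ∧ ∀ i ∈ c.seen, i < c.pos) ∨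
  ∃ l1 F l2 m, Fs = l1 ++ F :: l2 ∧ m ≤ k' ∧
    c.tape = TK ((eX k' L s t l1).length + 1) (Rr k' L s t Fs G)
      ((em N K).initTape (eX k' L s t Fs ++ eY k' L s t G)) m ∧
    (∀ i ∈ c.seen, i < Rr k' L s t Fs G m ∨ i = Rr k' L s t Fs G k') ∧
    St k' L ((eX k' L s t l1).length + 1) ((eX k' L s t Fs).length + 1)
      ((eX k' L s t l1).length + 1 + (eB k' L s t F).length) s t F G
      (Rr k' L s t Fs G) (Ss k' L s t Fs G)
      ((em N K).initTape (eX k' L s t Fs ++ eY k' L s t G)) m c.st c.pos

theorem inv_step {N K k' L : ℕ} {s t : ℕ → ℕ → ℕ} (hP : PS k' L N s t) (hL : 1 ≤ L)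
    {cv : Bool} {Fs : List (ℕ → ℕ → Bool)} {G : ℕ → ℕ → Bool}
    {c c' : (em N K).Cfg} (hI : Inv N K k' L s t Fs G c)
    (hs : (em N K).Step cv (eX k' L s t Fs ++ eY k' L s t G).length c c') :
    Inv N K k' L s t Fs G c' := by
  obtain ⟨hle, x, d, hδ, h0, hp, hw, hnw, hseen⟩ := hs
  obtain ⟨q, pos, tape, seen⟩ := c
  obtain ⟨q', pos', tape', seen'⟩ := c'
  simp only at hle hδ h0 hp hw hnw hseen
  have hδ' : etr1 N K q (tape pos) = some (q', x, d) ∨ etr2 q (tape pos) = some (q', x, d) := hδ
  have hlen := w_length k' L s t Fs G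
  rcases hI with ⟨h1, h2, h3, h4⟩ | ⟨l1, F, l2, m, h1, h2, h3, h4, h5⟩
  · simp only at h1 h2 h3 h4
    subst h1
    have hfresh : pos ∉ seen := fun h => lt_irrefl _ (h4 pos h)
    rcases hδ' with h | h
    · left
      have hx : Sym.ofW x = tape pos ∧ q' = .scan ∧ d = true := by
        generalize tape pos = s at h
        cases s with
        | inp y =>
          simp only [etr1] at h
          split_ifs at h with hb
          simp only [Option.some.injEq, Prod.mk.injEq] at h
          obtain ⟨rfl, rfl, rfl⟩ := h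
          exact ⟨rfl, rfl, rfl⟩
        | wrk u => simp [etr1] at h
        | lend => simp [etr1] at h
        | rend => simp [etr1] at h
      obtain ⟨hx, rfl, rfl⟩ := hx
      have ht : tape' = tape := by
        by_cases hc : 1 ≤ pos ∧ pos ≤ (eX k' L s t Fs ++ eY k' L s t G).length ∧ pos ∉ seen
        · rw [hw hc, hx, Function.update_eq_self]
        · exact (hnw hc).1
      rw [if_pos rfl] at hp
      refine ⟨rfl, by simp only; rw [ht, h2], by simp only; omega, ?_⟩
      intro i hi
      simp only at hi ⊢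
      rw [hseen] at hi
      rcases hi with hi | hi
      · omega
      · have := h4 i hi; omega
    · right
      have hts : tape pos = .inp .s ∧ q' = .mid ∧ x = .inr .ms ∧ d = true := by
        generalize tape pos = s at h
        cases s with
        | inp y =>
          cases y <;> simp [etr2] at h
          exact ⟨rfl, h.1.symm, h.2.1.symm, h.2.2⟩
        | wrk u => simp [etr2] at h
        | lend => simp [etr2] at h
        | rend => simp [etr2] at h
      obtain ⟨hts, rfl, rfl, rfl⟩ := hts
      rw [h2] at hts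
      obtain ⟨l1, F, l2, e, hpe⟩ := is_s h3 hts
      have hL' := lay N K k' L s t Fs l1 l2 F G e
      have hAZ := hL'.hAZ
      have hZH := hL'.hZH
      have hR0 := hL'.R0
      have hRk := hL'.hR (q := k') le_rfl
      have ht := hw ⟨h3, by omega, hfresh⟩
      refine ⟨l1, F, l2, 0, e, Nat.zero_le _, ?_, ?_, ?_⟩
      · simp only
        rw [ht, h2, hpe]
        funext i
        by_cases hi : i = (eX k' L s t l1).length + 1
        · rw [hi, Function.update_self, tk_A]
          rfl
        · rw [Function.update_of_ne hi]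
          unfold TK
          rw [if_neg hi, if_neg (by rintro ⟨q, hq, -⟩; exact Nat.not_lt_zero _ hq)]
      · intro i hi
        simp only at hi
        rw [hseen] at hi
        left
        rcases hi with hi | hi
        · omega
        · have := h4 i hi; omega
      · simp only [St]
        rw [if_pos rfl] at hp
        exact ⟨trivial, by omega, by omega⟩
  · simp only at h3 h4 h5
    right
    have hL' := lay N K k' L s t Fs l1 l2 F G h1
    rw [h3] at hδ'
    rcases st_step hL' hP hL h5 hδ' with ⟨g1, g2, g3⟩ | ⟨g1, g2, g3, g4⟩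
    · have ht : tape' = tape := by
        by_cases hc : 1 ≤ pos ∧ pos ≤ (eX k' L s t Fs ++ eY k' L s t G).length ∧ pos ∉ seen
        · rw [hw hc]
          have hx : Sym.ofW x = tape pos := by
            rcases g1 with g1 | g1
            · rw [h3]; exact g1
            · omega
          rw [hx, Function.update_eq_self]
        · exact (hnw hc).1
      refine ⟨l1, F, l2, m, h1, h2, ?_, ?_, ?_⟩
      · simp only
        rw [ht, h3]
      · intro i hi
        simp only at hi
        rw [hseen] at hi
        rcases hi with hi | hi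
        · rw [hi]; exact g2
        · exact h4 i hi
      · simp only
        rw [hp]
        exact g3
    · have hRm := hL'.rlt g2 le_rfl
      have hHR := hL'.hR (q := m) (by omega)
      have hns : pos ∉ seen := by
        intro hc
        have := h4 pos hc
        omega
      have ht := hw ⟨by omega, by omega, hns⟩
      refine ⟨l1, F, l2, m + 1, h1, g2, ?_, ?_, ?_⟩
      · simp only
        rw [ht, h3, g3, g1]
        exact hL'.tk_update g2
      · intro i hi
        simp only at hi
        rw [hseen] at hi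
        have hmm := hL'.rmono g2
        rcases hi with hi | hi
        · left; omega
        · rcases h4 i hi with h8 | h8
          · left; omega
          · right; exact h8
      · simp only
        rw [hp]
        exact g4

end WitB1Aux

theorem em_sound {k' L N K : ℕ} {s t : ℕ → ℕ → ℕ} (hP : PS k' L N s t) (hL : 1 ≤ L) (cv : Bool)
    (Fs : List (ℕ → ℕ → Bool)) (G : ℕ → ℕ → Bool)
    (h : eX k' L s t Fs ++ eY k' L s t G ∈ (em N K).lang cv) :
    ∃ F ∈ Fs, ∀ q < k', Ph k' s t F G q L q := by
  obtain ⟨c, hr, hpos, hF⟩ := h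
  have hI : WitB1Aux.Inv N K k' L s t Fs G c := by
    clear hpos hF
    induction hr with
    | refl =>
      left
      exact ⟨rfl, rfl, le_rfl, fun i hi => hi.elim⟩
    | tail _ hs ih => exact WitB1Aux.inv_step hP hL ih hs
  have hq : c.st = EQ.fin := hF
  rcases hI with ⟨h1, _⟩ | ⟨l1, F, l2, m, h1, h2, h3, h4, h5⟩
  · rw [hq] at h1
    cases h1
  · rw [hq] at h5
    exact ⟨F, by rw [h1]; simp, h5⟩

end Pool.Agent.P0036f5e
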